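import Pool.Agent.Kal5.Stmts

/-!
# K5_CE: cut edges of large degree (helper79)
-/

set_option autoImplicit false
set_option linter.unusedSectionVars false

namespace Pool.Agent.Kal5

open Finset Submodule Pool.Agent.Lib_helper40.Kal

namespace CeAux

variable {ι : Type} [DecidableEq ι] {V : Type} [AddCommGroup V] [Module ℝ V]

lemma SS_symm {p : ι → V} {h : V →ₗ[ℝ] ℝ} {i j : ι} (H : SS p h i j) : SS p h j i := by
  unfold SS at *
  exact H.symm

lemma SS_refl (p : ι → V) (h : V →ₗ[ℝ] ℝ) (i : ι) : SS p h i i := Iff.rfl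

lemma mem_un {p : ι → V} {s : Finset ι} {h : V →ₗ[ℝ] ℝ} {x y : ι} :
    y ∈ un p s h x ↔ Adj p s x y ∧ SS p h x y := by
  classical
  unfold un
  rw [mem_filter, mem_nb]

lemma mem_cn {p : ι → V} {s : Finset ι} {h : V →ₗ[ℝ] ℝ} {x y : ι} :
    y ∈ cn p s h x ↔ Adj p s x y ∧ ¬ SS p h x y := by
  classical
  unfold cn
  rw [mem_filter, mem_nb]

lemma mem_cf {p : ι → V} {s : Finset ι} {h : V →ₗ[ℝ] ℝ} {r : ℕ} {F : Finset ι} :
    F ∈ cf p s h r ↔ F ∈ facesR p s r ∧ ¬ Unc p h F := by
  classical
  unfold cf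
  rw [mem_filter]

/-- the far neighbours of large degree -/
noncomputable def TT (p : ι → V) (s : Finset ι) (h : V →ₗ[ℝ] ℝ) (x : ι) : Finset ι :=
  (cn p s h x).filter fun y => 73 ≤ up p s 4 {x, y}

/-- the sum of the degrees -/
noncomputable def SX (p : ι → V) (s : Finset ι) (h : V →ₗ[ℝ] ℝ) (x : ι) : ℕ :=
  ∑ y ∈ TT p s h x, up p s 4 {x, y}

lemma SX_eq (p : ι → V) (s : Finset ι) (h : V →ₗ[ℝ] ℝ) (x : ι) :
    SX p s h x = ∑ W ∈ (facesR p s 4).filter (fun W => x ∈ W), (W ∩ TT p s h x).card := by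
  have e1 : ∀ y, up p s 4 {x, y} =
      ∑ W ∈ (facesR p s 4).filter (fun W => x ∈ W), if y ∈ W then 1 else 0 := by
    intro y
    unfold up
    rw [← card_filter, filter_filter]
    congr 1
    apply filter_congr
    intro W _
    rw [insert_subset_iff, singleton_subset_iff]
  unfold SX
  simp_rw [e1]
  rw [sum_comm]
  apply sum_congr rfl
  intro W _
  rw [← card_filter]
  congr 1
  ext y
  rw [mem_filter, mem_inter]
  tauto

lemma SX_le (hL : S_L5) {p : ι → V} {s : Finset ι} {h : V →ₗ[ℝ] ℝ} (hc : Cut p s h 5) {x : ι}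
    (hx : x ∈ s) : SX p s h x ≤ 36 * (un p s h x).card + 2 * bd p s h x := by
  set T := TT p s h x with hT
  set Y := un p s h x ∪ T with hY
  have hYnb : Y ⊆ nb p s x := by
    intro y hy
    rw [hY, mem_union] at hy
    rw [mem_nb]
    rcases hy with hy | hy
    · exact (mem_un.1 hy).1
    · rw [hT, TT, mem_filter] at hy
      exact (mem_cn.1 hy.1).1
  have hL' := hL ι V p s Y x hc.toPR hx hYnb
  have hYc : Y.card ≤ (un p s h x).card + T.card := card_union_le _ _
  have hA : ∑ W ∈ ((facesR p s 4).filter (fun W => x ∈ W)).filter (fun W => 2 ≤ (W ∩ Y).card),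
      (W ∩ T).card ≤ 18 * Y.card := by
    refine le_trans ?_ hL'
    rw [filter_filter]
    apply sum_le_sum
    intro W _
    apply card_le_card
    apply inter_subset_inter_left
    exact subset_union_right
  have hB : ∑ W ∈ ((facesR p s 4).filter (fun W => x ∈ W)).filter
      (fun W => ¬ 2 ≤ (W ∩ Y).card), (W ∩ T).card ≤ bd p s h x := by
    have h1 : ∀ W ∈ ((facesR p s 4).filter (fun W => x ∈ W)).filter
        (fun W => ¬ 2 ≤ (W ∩ Y).card),
        (W ∩ T).card ≤ if un p s h x ∩ W = ∅ then 1 else 0 := by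
      intro W hW
      rw [mem_filter] at hW
      have h2 : (W ∩ T).card ≤ (W ∩ Y).card :=
        card_le_card (inter_subset_inter_left subset_union_right)
      split_ifs with h3
      · omega
      · by_contra hcon
        push Not at hcon
        obtain ⟨z, hz⟩ := card_pos.1 hcon
        obtain ⟨y, hy⟩ := nonempty_iff_ne_empty.2 h3
        rw [mem_inter] at hz hy
        have hzy : z ≠ y := by
          rintro rfl
          have h4 := hz.2
          rw [hT, TT, mem_filter] at h4
          exact (mem_cn.1 h4.1).2 (mem_un.1 hy.1).2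
        have h5 : ({z, y} : Finset ι) ⊆ W ∩ Y := by
          intro k hk
          rw [mem_insert, mem_singleton] at hk
          rw [mem_inter, hY, mem_union]
          rcases hk with rfl | rfl
          · exact ⟨hz.1, Or.inr hz.2⟩
          · exact ⟨hy.2, Or.inl hy.1⟩
        have h6 := card_le_card h5
        rw [card_pair hzy] at h6
        exact hW.2 h6
    refine (sum_le_sum h1).trans ?_
    rw [← card_filter]
    unfold bd
    apply card_le_card
    intro W hW
    rw [mem_filter, mem_filter, mem_filter] at hW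
    rw [mem_filter]
    exact ⟨hW.1.1.1, hW.1.1.2, hW.2⟩
  have hsum : SX p s h x ≤ 18 * Y.card + bd p s h x := by
    rw [SX_eq, ← sum_filter_add_sum_filter_not _ (fun W => 2 ≤ (W ∩ Y).card)]
    exact add_le_add hA hB
  have hT73 : 73 * T.card ≤ SX p s h x := by
    unfold SX
    rw [mul_comm, ← smul_eq_mul, ← hT]
    apply card_nsmul_le_sum
    intro y hy
    rw [hT, TT, mem_filter] at hy
    exact hy.2
  omega

lemma SX_good (hL : S_L5) {p : ι → V} {s : Finset ι} {h : V →ₗ[ℝ] ℝ} (hc : Cut p s h 5) {x : ι}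
    (hx : x ∈ s) (hg : Good p s h x) : SX p s h x = 0 := by
  have h1 := SX_le hL hc hx
  rw [hg.1, hg.2] at h1
  by_contra hne
  have h2 : (TT p s h x).Nonempty := by
    rw [nonempty_iff_ne_empty]
    intro he
    apply hne
    unfold SX
    rw [he, sum_empty]
  obtain ⟨y, hy⟩ := h2
  have h3 : up p s 4 {x, y} ≤ SX p s h x :=
    single_le_sum (f := fun y => up p s 4 {x, y}) (fun _ _ => Nat.zero_le _) hy
  rw [TT, mem_filter] at hy
  omega

lemma edge_sum {p : ι → V} {s : Finset ι} {h : V →ₗ[ℝ] ℝ} (hc : Cut p s h 5) (x : ι) :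
    ∑ g ∈ ((cf p s h 2).filter (fun g => 73 ≤ up p s 4 g)).filter (fun g => x ∈ g), up p s 4 g ≤
      SX p s h x := by
  have hinj : Set.InjOn (fun y => ({x, y} : Finset ι)) (TT p s h x : Set ι) := by
    intro y hy z hz hyz
    have hyz' : ({x, y} : Finset ι) = {x, z} := hyz
    rw [mem_coe, TT, mem_filter] at hy
    have hxy : x ≠ y := (mem_cn.1 hy.1).1.1
    have h1 : y ∈ ({x, z} : Finset ι) := by
      rw [← hyz']
      simp
    rw [mem_insert, mem_singleton] at h1
    rcases h1 with h1 | h1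
    · exact absurd h1.symm hxy
    · exact h1
  have e : SX p s h x = ∑ g ∈ (TT p s h x).image (fun y => ({x, y} : Finset ι)), up p s 4 g := by
    unfold SX
    rw [sum_image hinj]
  rw [e]
  apply sum_le_sum_of_subset
  intro g hg
  rw [mem_filter, mem_filter, mem_cf] at hg
  obtain ⟨⟨⟨hg1, hg2⟩, hg3⟩, hxg⟩ := hg
  obtain ⟨k, rfl, hk⟩ := hc.red.edge_eq hc.pointed hg1 hxg
  rw [mem_image]
  refine ⟨k, ?_, rfl⟩
  rw [TT, mem_filter, mem_cn]
  refine ⟨⟨hk, fun hss => hg2 ?_⟩, hg3⟩
  intro i hi j hj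
  rw [mem_insert, mem_singleton] at hi hj
  rcases hi with rfl | rfl <;> rcases hj with rfl | rfl
  · exact SS_refl _ _ _
  · exact hss
  · exact SS_symm hss
  · exact SS_refl _ _ _

end CeAux

open CeAux in
theorem ce (hL : S_L5) (hBAD : S_BAD) (hDEL : S_DEL) : S_CE := by
  intro ι _ V _ _ p s h hc
  classical
  set C := (cf p s h 2).filter (fun g => 73 ≤ up p s 4 g) with hC
  -- every cut edge is counted twice
  have h1 : 2 * ∑ g ∈ C, up p s 4 g ≤ ∑ x ∈ s, SX p s h x := by
    have e1 : 2 * ∑ g ∈ C, up p s 4 g = ∑ g ∈ C, ∑ x ∈ s, if x ∈ g then up p s 4 g else 0 := by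
      rw [mul_sum]
      apply sum_congr rfl
      intro g hg
      rw [hC, mem_filter, mem_cf] at hg
      have hgs : g ⊆ s := (mem_facesR.1 hg.1.1).1.1
      rw [← sum_filter]
      have e2 : s.filter (fun x => x ∈ g) = g := by
        ext x
        rw [mem_filter]
        exact ⟨fun H => H.2, fun H => ⟨hgs H, H⟩⟩
      rw [e2, sum_const, hc.red.edge_card hc.pointed hg.1.1, smul_eq_mul]
    rw [e1, sum_comm]
    apply sum_le_sum
    intro x _
    rw [← sum_filter]
    exact edge_sum hc x
  -- only the vertices that are not good contribute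
  have h2 : ∑ x ∈ s, SX p s h x =
      ∑ x ∈ s.filter (fun x => ¬ Good p s h x), SX p s h x := by
    rw [← sum_filter_add_sum_filter_not s (fun x => Good p s h x)]
    have : ∑ x ∈ s.filter (fun x => Good p s h x), SX p s h x = 0 := by
      apply sum_eq_zero
      intro x hx
      rw [mem_filter] at hx
      exact SX_good hL hc hx.1 hx.2
    rw [this, zero_add]
  have h3 : ∑ x ∈ s.filter (fun x => ¬ Good p s h x), SX p s h x ≤
      ∑ x ∈ s.filter (fun x => ¬ Good p s h x),
        (36 * (un p s h x).card + 2 * bd p s h x) := by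
    apply sum_le_sum
    intro x hx
    exact SX_le hL hc (mem_filter.1 hx).1
  rw [sum_add_distrib, ← mul_sum, ← mul_sum] at h3
  have h4 : ∑ x ∈ s.filter (fun x => ¬ Good p s h x), (un p s h x).card ≤ 22 * UU p s h := by
    have := hDEL ι V p s h hc
    convert this using 2
  have h5 : ∑ x ∈ s.filter (fun x => ¬ Good p s h x), bd p s h x ≤ 2 * UU p s h := by
    refine le_trans ?_ (hBAD ι V p s h hc)
    exact sum_le_sum_of_subset (filter_subset _ _)
  show ∑ g ∈ C, up p s 4 g ≤ 398 * UU p s h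
  omega

end Pool.Agent.Kal5
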