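import Pool.Agent.Kal5.Sharp2

/-!
One list for dimension five (10 ^ 10 vertices) and dimension seven (96 vertices) (MP_716236_co).
-/

set_option autoImplicit false
set_option linter.unusedSectionVars false

namespace Pool.Agent.Kal5

open Finset Submodule Pool.Agent.Lib_helper40.Kal

theorem combine (h : S_FIN) :
    ∃ (m : ℕ) (Q : Fin m → Set (EuclideanSpace ℝ (Fin 3))),
      (∀ i, (∃ S : Finset (EuclideanSpace ℝ (Fin 3)),
              Q i = convexHull ℝ (S : Set (EuclideanSpace ℝ (Fin 3)))) ∧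
            Module.finrank ℝ (vectorSpan ℝ (Q i)) = 3) ∧
      ∀ (n : ℕ) (P : Set (EuclideanSpace ℝ (Fin n))),
        (∃ S : Finset (EuclideanSpace ℝ (Fin n)),
            P = convexHull ℝ (S : Set (EuclideanSpace ℝ (Fin n)))) →
        5 ≤ Module.finrank ℝ (vectorSpan ℝ P) →
        ∃ F : Set (EuclideanSpace ℝ (Fin n)), IsExposed ℝ P F ∧ F.Nonempty ∧
          Module.finrank ℝ (vectorSpan ℝ F) = 3 ∧
          (∃ T : Finset (EuclideanSpace ℝ (Fin n)), T.card ≤ 10 ^ 10 ∧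
            (7 ≤ Module.finrank ℝ (vectorSpan ℝ P) → T.card ≤ 96) ∧
            F = convexHull ℝ (T : Set (EuclideanSpace ℝ (Fin n)))) ∧
          ∃ i : Fin m, Nonempty
            ({G : Set (EuclideanSpace ℝ (Fin n)) | IsExposed ℝ F G} ≃o
             {G : Set (EuclideanSpace ℝ (Fin 3)) | IsExposed ℝ (Q i) G}) := by
  obtain ⟨m1, Q1, hQ1, h1⟩ := h
  obtain ⟨m2, Q2, hQ2, h2⟩ := main3
  refine ⟨m1 + m2, Fin.append Q1 Q2, ?_, ?_⟩
  · intro i
    refine Fin.addCases (fun i => ?_) (fun i => ?_) i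
    · rw [Fin.append_left]; exact hQ1 i
    · rw [Fin.append_right]; exact hQ2 i
  · intro n P hP h5
    by_cases h7 : 7 ≤ Module.finrank ℝ (vectorSpan ℝ P)
    · obtain ⟨F, hF, hne, h3, ⟨T, hT, hT'⟩, i, hi⟩ := h2 n P hP h7
      exact ⟨F, hF, hne, h3, ⟨T, hT.trans (by norm_num), fun _ => hT, hT'⟩, Fin.natAdd m1 i,
        by rw [Fin.append_right]; exact hi⟩
    · obtain ⟨F, hF, hne, h3, ⟨T, hT, hT'⟩, i, hi⟩ := h1 n P hP h5
      exact ⟨F, hF, hne, h3, ⟨T, hT, fun h => absurd h h7, hT'⟩, Fin.castAdd m2 i,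
        by rw [Fin.append_left]; exact hi⟩

end Pool.Agent.Kal5
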