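import Pool.Agent.Kal5.Stmts

/-!
Module K5_DEL: handshake for the uncut edges and the counting of `S_DEL`.
-/

set_option autoImplicit false
set_option linter.unusedSectionVars false

namespace Pool.Agent.Kal5

open Finset Submodule Pool.Agent.Lib_helper40.Kal

section
variable {ι : Type} [DecidableEq ι] {V : Type} [AddCommGroup V] [Module ℝ V]

lemma unc_pair {p : ι → V} {h : V →ₗ[ℝ] ℝ} {x y : ι} : Unc p h {x, y} ↔ SS p h x y := by
  unfold Unc SS
  constructor
  · intro H
    exact H x (by simp) y (by simp)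
  · intro H i hi j hj
    rw [mem_insert, mem_singleton] at hi hj
    rcases hi with rfl | rfl <;> rcases hj with rfl | rfl
    · exact Iff.rfl
    · exact H
    · exact H.symm
    · exact Iff.rfl

lemma mem_un {p : ι → V} {s : Finset ι} {h : V →ₗ[ℝ] ℝ} {x y : ι} :
    y ∈ un p s h x ↔ Adj p s x y ∧ SS p h x y := by
  classical
  unfold un
  rw [mem_filter, mem_nb]

lemma mem_uf {p : ι → V} {s : Finset ι} {h : V →ₗ[ℝ] ℝ} {r : ℕ} {F : Finset ι} :
    F ∈ uf p s h r ↔ F ∈ facesR p s r ∧ Unc p h F := by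
  classical
  unfold uf
  rw [mem_filter]

open scoped Classical in
/-- the uncut edges at `x` correspond to the uncut neighbours of `x` -/
lemma card_un {p : ι → V} {s : Finset ι} {h : V →ₗ[ℝ] ℝ} {n : ℕ} (hc : Cut p s h n) (x : ι) :
    (un p s h x).card = ((uf p s h 2).filter fun E => x ∈ E).card := by
  apply card_bij (fun y _ => ({x, y} : Finset ι))
  · intro y hy
    rw [mem_un] at hy
    rw [mem_filter, mem_uf, mem_facesR]
    exact ⟨⟨⟨hy.1.2, hy.1.rk_eq hc.pointed hc.red⟩, unc_pair.2 hy.2⟩, by simp⟩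
  · intro y hy z hz hyz
    rw [mem_un] at hy hz
    have h1 : y ∈ ({x, z} : Finset ι) := by
      have : y ∈ ({x, y} : Finset ι) := by simp
      rwa [hyz] at this
    rw [mem_insert, mem_singleton] at h1
    rcases h1 with h1 | h1
    · exact absurd h1.symm hy.1.1
    · exact h1
  · intro E hE
    rw [mem_filter, mem_uf] at hE
    obtain ⟨k, rfl, hk⟩ := Red.edge_eq hc.pointed hc.red hE.1.1 hE.2
    exact ⟨k, mem_un.2 ⟨hk, unc_pair.1 hE.1.2⟩, rfl⟩

/-- HANDSHAKE for the uncut edges. -/
lemma sum_un {p : ι → V} {s : Finset ι} {h : V →ₗ[ℝ] ℝ} {n : ℕ} (hc : Cut p s h n) :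
    ∑ x ∈ s, (un p s h x).card = 2 * (uf p s h 2).card := by
  classical
  have h1 : ∑ x ∈ s, (un p s h x).card = ∑ x ∈ s, ((uf p s h 2).filter fun E => x ∈ E).card :=
    sum_congr rfl fun x _ => card_un hc x
  have h2 := Finset.sum_card_bipartiteAbove_eq_sum_card_bipartiteBelow (s := s) (t := uf p s h 2)
    (fun (x : ι) (E : Finset ι) => x ∈ E)
  unfold bipartiteAbove bipartiteBelow at h2
  rw [h1, h2, mul_comm, card_eq_sum_ones, sum_mul]
  simp only [one_mul]
  apply sum_congr rfl
  intro E hE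
  rw [mem_uf] at hE
  have h3 : s.filter (fun x => x ∈ E) = E := by
    ext i
    rw [mem_filter]
    exact ⟨fun hi => hi.2, fun hi => ⟨(mem_facesR.1 hE.1).1.1 hi, hi⟩⟩
  rw [h3, Red.edge_card hc.pointed hc.red hE.1]

end

theorem del (hRK : S_RK) (hBAD : S_BAD) (hTWO : S_TWO) : S_DEL := by
  classical
  intro ι _ V _ _ p s h hc
  have hrk := hRK ι V p s h 5 hc
  have hbad := hBAD ι V p s h hc
  have htwo := hTWO ι V p s h
  have hsum := sum_un hc
  -- pointwise: `δ + (2 - δ) = 2 + (δ - 2)`
  have e1 : ∑ x ∈ s, (un p s h x).card + ∑ x ∈ s, (2 - (un p s h x).card) =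
      2 * s.card + ∑ x ∈ s, ((un p s h x).card - 2) := by
    rw [← sum_add_distrib, mul_comm, card_eq_sum_ones, sum_mul, ← sum_add_distrib]
    apply sum_congr rfl
    intro x _
    omega
  have e2 : ∑ x ∈ s, (2 - (un p s h x).card) ≤ 2 * ∑ x ∈ s, bd p s h x := by
    rw [mul_sum]
    apply sum_le_sum
    intro x hx
    have := htwo x hc hx
    by_cases h0 : bd p s h x = 0
    · have := this h0
      omega
    · omega
  have e3 : ∑ x ∈ s.filter (fun x => ¬ Good p s h x), (un p s h x).card ≤
      ∑ x ∈ s, (2 * bd p s h x + 3 * ((un p s h x).card - 2)) := by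
    calc ∑ x ∈ s.filter (fun x => ¬ Good p s h x), (un p s h x).card
        ≤ ∑ x ∈ s.filter (fun x => ¬ Good p s h x),
            (2 * bd p s h x + 3 * ((un p s h x).card - 2)) := by
          apply sum_le_sum
          intro x hx
          rw [mem_filter] at hx
          have h1 := htwo x hc hx.1
          have h2 : ¬ ((un p s h x).card = 2 ∧ bd p s h x = 0) := hx.2
          by_cases h0 : bd p s h x = 0
          · have h3 := h1 h0
            have h4 : (un p s h x).card ≠ 2 := fun h5 => h2 ⟨h5, h0⟩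
            omega
          · omega
      _ ≤ ∑ x ∈ s, (2 * bd p s h x + 3 * ((un p s h x).card - 2)) :=
          sum_le_sum_of_subset (filter_subset _ _)
  rw [sum_add_distrib, ← mul_sum, ← mul_sum] at e3
  omega

end Pool.Agent.Kal5
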