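import Pool.Agent.Kal5.Final

/-!
From the inequality for rank six families to the finiteness theorem and the average (MP_716236_co).
-/

set_option autoImplicit false
set_option linter.unusedSectionVars false

namespace Pool.Agent.Kal5

open Finset Submodule Pool.Agent.Lib_helper40.Kal

/-- the inequality for all pointed families of rank six (not necessarily reduced) -/
lemma main_any (hM : S_MAIN) {ι : Type} [DecidableEq ι] {V : Type} [AddCommGroup V] [Module ℝ V]
    {p : ι → V} {s : Finset ι} (h0 : IsFace p s ∅) (hrk : rk p s = 6) :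
    ∑ K ∈ facesR p s 4, (facesR p K 3).card ≤ 2627871988 * (facesR p s 4).card := by
  obtain ⟨s', hs, hm, hr⟩ := exists_red h0
  have h0' : IsFace p s' ∅ := by
    have := h0.sub hs
    simpa using this
  have hrk' : rk p s' = 6 := by
    rw [← hrk]
    unfold rk
    rw [hm.span_eq h0 hs]
  have h := hM ι V p s' ⟨h0', hr, hrk'⟩
  rw [hm.sum_card h0 hs, hm.card_facesR h0 hs] at h
  exact h

lemma rays_le {ι : Type} [DecidableEq ι] {V : Type} [AddCommGroup V] [Module ℝ V]
    {p : ι → V} {s K : Finset ι} (h0 : IsFace p s ∅) (hK : K ∈ facesR p s 4) :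
    (facesR p K 1).card ≤ 2 * (facesR p K 3).card := by
  rw [mem_facesR] at hK
  exact card_rays_le ((isFace_restrict hK.1).2 ⟨h0, empty_subset _⟩) (k := 2) (by omega)

/-- some face of rank four has few rays -/
lemma exists_small5 (hM : S_MAIN) {ι : Type} [DecidableEq ι] {V : Type} [AddCommGroup V]
    [Module ℝ V] {p : ι → V} {s : Finset ι} (h0 : IsFace p s ∅) (hrk : rk p s = 6) :
    ∃ K ∈ facesR p s 4, (facesR p K 1).card ≤ 10 ^ 10 := by
  have h := main_any hM h0 hrk
  obtain ⟨K₀, hK₀, -, hK₀r⟩ := exists_face_rk h0 4 (by rw [rk_empty]; omega) (by omega)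
  have hne : (facesR p s 4).Nonempty := ⟨K₀, mem_facesR.2 ⟨hK₀, hK₀r⟩⟩
  have h2 : ∑ K ∈ facesR p s 4, (facesR p K 3).card ≤ ∑ K ∈ facesR p s 4, 2627871988 := by
    rw [sum_const, smul_eq_mul, mul_comm]
    exact h
  obtain ⟨K, hK, hle⟩ := exists_le_of_sum_le hne h2
  refine ⟨K, hK, ?_⟩
  have := rays_le h0 hK
  norm_num
  omega

section hulls

variable {ι : Type} [DecidableEq ι] {E : Type} [NormedAddCommGroup E] [NormedSpace ℝ E]
  [FiniteDimensional ℝ E]

lemma nonempty_of_dim {x : ι → E} {S : Finset ι}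
    (hd : 0 < Module.finrank ℝ (vectorSpan ℝ (hull x S))) : S.Nonempty := by
  rw [nonempty_iff_ne_empty]
  rintro rfl
  unfold hull at hd
  rw [coe_empty, Set.image_empty, convexHull_empty, vectorSpan_empty, finrank_bot] at hd
  omega

/-- a polytope of dimension at least five has a three-dimensional face with at most `10 ^ 10`
vertices -/
lemma exists_three_face5 (hM : S_MAIN) (x : ι → E) (S : Finset ι)
    (hd : 5 ≤ Module.finrank ℝ (vectorSpan ℝ (hull x S))) :
    ∃ K : Finset ι, IsFace (hom x) S K ∧ K.Nonempty ∧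
      Module.finrank ℝ (vectorSpan ℝ (hull x K)) = 3 ∧
      (facesR (hom x) K 1).card ≤ 10 ^ 10 := by
  have hS : S.Nonempty := nonempty_of_dim (x := x) (by omega)
  have hrk := rk_hom (x := x) hS
  have h0 := hom_pointed x S
  obtain ⟨G, hG, -, hGr⟩ := exists_face_rk h0 6 (by rw [rk_empty]; omega) (by omega)
  obtain ⟨K, hK, hcard⟩ := exists_small5 hM ((isFace_restrict hG).2 ⟨h0, empty_subset _⟩) hGr
  rw [facesR_restrict hG, mem_facesR] at hK
  have hKne : K.Nonempty := rk_pos_nonempty (p := hom x) (by omega)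
  refine ⟨K, hK.1.1, hKne, ?_, hcard⟩
  have := rk_hom (x := x) hKne
  omega

end hulls

theorem fin5 (hM : S_MAIN) : S_FIN := by
  classical
  obtain ⟨m, Q, hQ, hlist⟩ := exists_list 3 (10 ^ 10)
  refine ⟨m, Q, hQ, ?_⟩
  rintro n P ⟨S, rfl⟩ hP
  have hPS : hull (id : EuclideanSpace ℝ (Fin n) → _) S = convexHull ℝ (S : Set _) := by
    unfold hull; rw [Set.image_id]
  rw [← hPS] at hP
  obtain ⟨K, hK, hKne, hK3, hKc⟩ := exists_three_face5 hM
    (id : EuclideanSpace ℝ (Fin n) → EuclideanSpace ℝ (Fin n)) S hP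
  obtain ⟨s', hs, hm, hr⟩ := exists_red (hom_pointed (id : EuclideanSpace ℝ (Fin n) → _) K)
  have h0' : IsFace (hom (id : EuclideanSpace ℝ (Fin n) → _)) s' ∅ := hom_pointed _ _
  refine ⟨hull id K, ?_, hull_nonempty_iff.2 hKne, hK3, ⟨s', ?_, ?_⟩, ?_⟩
  · rw [← hPS]
    exact exposed_of_isFace hK
  · rw [← hr.card_facesR_one h0', hm.card_facesR (hom_pointed _ K) hs]
    exact hKc
  · rw [← hull_of_meets hm hs]
    unfold hull
    rw [Set.image_id]
  · obtain ⟨i, hi⟩ := hlist _ _ (id : EuclideanSpace ℝ (Fin n) → _) K hKne hK3 hKc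
    exact ⟨i, hi⟩

section average

variable {E : Type} [NormedAddCommGroup E] [NormedSpace ℝ E] [FiniteDimensional ℝ E]

/-- the extreme points of a hull are among the points of a reduced subfamily -/
lemma exists_ext [DecidableEq E] (K : Finset E) :
    ∃ T : Finset E, T.card = (facesR (hom (id : E → E)) K 1).card ∧
      Set.extremePoints ℝ (hull (id : E → E) K) ⊆ (T : Set E) := by
  obtain ⟨s', hs, hm, hr⟩ := exists_red (hom_pointed (id : E → E) K)
  have h0' : IsFace (hom (id : E → E)) s' ∅ := hom_pointed _ _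
  refine ⟨s', ?_, ?_⟩
  · rw [← hr.card_facesR_one h0', hm.card_facesR (hom_pointed _ K) hs]
  · rw [← hull_of_meets hm hs]
    unfold hull
    rw [Set.image_id]
    exact extremePoints_convexHull_subset

/-- the 3-faces as a finite image -/
lemma three_faces [DecidableEq E] (S : Finset E) :
    {F : Set E | IsExposed ℝ (hull (id : E → E) S) F ∧
      Module.finrank ℝ (vectorSpan ℝ F) = 3} =
      (hull (id : E → E)) '' ((facesR (hom (id : E → E)) S 4 : Finset (Finset E)) :
        Set (Finset E)) := by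
  ext F
  simp only [Set.mem_setOf_eq, Set.mem_image, mem_coe, mem_facesR]
  constructor
  · rintro ⟨hF, h3⟩
    obtain ⟨h1, h2⟩ := isFace_of_exposed hF
    refine ⟨idx id S F, ⟨h1, ?_⟩, h2.symm⟩
    have h4 : Module.finrank ℝ (vectorSpan ℝ (hull (id : E → E) (idx id S F))) = 3 := by
      rw [← h2]; exact h3
    have hne : (idx (id : E → E) S F).Nonempty := nonempty_of_dim (x := (id : E → E)) (by omega)
    rw [rk_hom (x := (id : E → E)) hne, h4]
  · rintro ⟨K, ⟨hK, hr⟩, rfl⟩
    refine ⟨exposed_of_isFace hK, ?_⟩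
    have hne : K.Nonempty := rk_pos_nonempty (p := hom (id : E → E)) (by omega)
    have := rk_hom (x := (id : E → E)) hne
    omega

lemma hull_injOn [DecidableEq E] (S : Finset E) (r : ℕ) :
    Set.InjOn (hull (id : E → E)) ((facesR (hom (id : E → E)) S r : Finset (Finset E)) :
        Set (Finset E)) := by
  intro K hK K' hK' he
  have h1 := idx_hull (mem_facesR.1 (mem_coe.1 hK)).1
  have h2 := idx_hull (mem_facesR.1 (mem_coe.1 hK')).1
  rw [← h1, ← h2, he]

end average

theorem avg (hM : S_MAIN) : S_AVG := by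
  classical
  rintro n P ⟨S, rfl⟩ hP
  have hPS : hull (id : EuclideanSpace ℝ (Fin n) → _) S = convexHull ℝ (S : Set _) := by
    unfold hull; rw [Set.image_id]
  rw [← hPS] at hP ⊢
  have hS : S.Nonempty :=
    nonempty_of_dim (x := (id : EuclideanSpace ℝ (Fin n) → _)) (by omega)
  have hrk : rk (hom (id : EuclideanSpace ℝ (Fin n) → _)) S = 6 := by
    rw [rk_hom (x := (id : EuclideanSpace ℝ (Fin n) → _)) hS, hP]
  have h0 := hom_pointed (id : EuclideanSpace ℝ (Fin n) → _) S
  have hA := three_faces (E := EuclideanSpace ℝ (Fin n)) S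
  have hmain := main_any hM h0 hrk
  have hcard : {F : Set (EuclideanSpace ℝ (Fin n)) | IsExposed ℝ (hull id S) F ∧
            Module.finrank ℝ (vectorSpan ℝ F) = 3}.ncard =
      (facesR (hom (id : EuclideanSpace ℝ (Fin n) → _)) S 4).card := by
    rw [hA, (hull_injOn S 4).ncard_image, Set.ncard_coe_finset]
  choose T hTc hT using fun K : Finset (EuclideanSpace ℝ (Fin n)) => exists_ext K
  let B : Finset (EuclideanSpace ℝ (Fin n) × Set (EuclideanSpace ℝ (Fin n))) :=
    (facesR (hom (id : EuclideanSpace ℝ (Fin n) → _)) S 4).biUnion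
      fun K => T K ×ˢ ({hull id K} : Finset (Set (EuclideanSpace ℝ (Fin n))))
  have hB : {y : EuclideanSpace ℝ (Fin n) × Set (EuclideanSpace ℝ (Fin n)) |
      IsExposed ℝ (hull id S) y.2 ∧ Module.finrank ℝ (vectorSpan ℝ y.2) = 3 ∧
        y.1 ∈ Set.extremePoints ℝ y.2} ⊆ (B : Set _) := by
    rintro ⟨y, F⟩ ⟨h1, h2, h3⟩
    have h4 : F ∈ {F : Set (EuclideanSpace ℝ (Fin n)) | IsExposed ℝ (hull id S) F ∧
      Module.finrank ℝ (vectorSpan ℝ F) = 3} := ⟨h1, h2⟩
    rw [hA] at h4
    obtain ⟨K, hK, rfl⟩ := h4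
    rw [mem_coe, mem_biUnion]
    exact ⟨K, mem_coe.1 hK, mem_product.2 ⟨mem_coe.1 (hT K h3), mem_singleton_self _⟩⟩
  refine ⟨?_, B.finite_toSet.subset hB, ?_⟩
  · rw [hA]
    exact (Finset.finite_toSet _).image _
  · rw [hcard]
    refine (Set.ncard_le_ncard hB B.finite_toSet).trans ?_
    rw [Set.ncard_coe_finset]
    refine card_biUnion_le.trans ?_
    have h1 : ∀ K ∈ facesR (hom (id : EuclideanSpace ℝ (Fin n) → _)) S 4,
        (T K ×ˢ ({hull id K} : Finset (Set (EuclideanSpace ℝ (Fin n))))).card ≤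
          2 * (facesR (hom (id : EuclideanSpace ℝ (Fin n) → _)) K 3).card := by
      intro K hK
      rw [card_product, card_singleton, mul_one, hTc]
      exact rays_le h0 hK
    refine (sum_le_sum h1).trans ?_
    rw [← mul_sum]
    refine (Nat.mul_le_mul_left 2 hmain).trans ?_
    rw [← mul_assoc]
    exact Nat.mul_le_mul_right _ (by norm_num)

end Pool.Agent.Kal5
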