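import Pool.Agent.Kal5.Stmts

/-!
Module K5_H1: the positive part of the graph of a polytope has no `ZMod 2` cohomology modulo the
positive 2-faces.
-/

set_option autoImplicit false
set_option linter.unusedSectionVars false

namespace Pool.Agent.Kal5

open Finset Submodule Pool.Agent.Lib_helper40.Kal

variable {ι : Type} [DecidableEq ι] {V : Type} [AddCommGroup V] [Module ℝ V]

/-- every vertex of a 2-face is in two of its edges -/
lemma h1_card_edges {p : ι → V} {s F : Finset ι} (h0 : IsFace p s ∅) (hr : Red p s)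
    (hF : F ∈ facesR p s 3) {i : ι} (hi : i ∈ F) :
    ((facesR p F 2).filter fun E => i ∈ E).card = 2 := by
  have hF' := mem_facesR.1 hF
  have his : i ∈ s := hF'.1.1 hi
  have h1 := Red.rk_one h0 (hi := his)
  have hd := card_diamond (hr i his) hF'.1 (by simpa using hi) (by rw [hF'.2, h1])
  rw [h1] at hd
  refine Eq.trans ?_ hd
  congr 1
  ext E
  rw [mem_filter, facesR_restrict hF'.1, mem_mid, mem_facesR, singleton_subset_iff]
  tauto

lemma h1_double {p : ι → V} {s F : Finset ι} (h0 : IsFace p s ∅) (hr : Red p s)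
    (hF : F ∈ facesR p s 3) (ψ : ι → ZMod 2) : ∑ E ∈ facesR p F 2, ∑ i ∈ E, ψ i = 0 := by
  have h1 : ∀ E ∈ facesR p F 2, ∑ i ∈ E, ψ i = ∑ i ∈ F, if i ∈ E then ψ i else 0 := by
    intro E hE
    have hEF : E ⊆ F := (mem_facesR.1 hE).1.1
    rw [← sum_filter]
    congr 1
    ext i
    rw [mem_filter]
    exact ⟨fun h => ⟨hEF h, h⟩, fun h => h.2⟩
  rw [sum_congr rfl h1, sum_comm]
  apply sum_eq_zero
  intro i hi
  rw [← sum_filter, sum_const, h1_card_edges h0 hr hF hi, two_nsmul]
  exact CharTwo.add_self_eq_zero _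

/-- one step of the sweep: lower `h` until exactly one vertex `v` of its positive part is hit -/
lemma h1_sweep {p : ι → V} {s : Finset ι} (h0 : IsFace p s ∅) (hr : Red p s) (h : V →ₗ[ℝ] ℝ)
    (hne : (s.filter fun i => 0 < h (p i)).Nonempty) :
    ∃ (h' : V →ₗ[ℝ] ℝ) (v : ι), v ∈ s ∧ 0 < h (p v) ∧ h' (p v) = 0 ∧
      ∀ i ∈ s, 0 < h' (p i) ↔ (0 < h (p i) ∧ i ≠ v) := by
  obtain ⟨_, lam, _, lpos⟩ := id h0
  have lpos : ∀ i ∈ s, 0 < lam (p i) := fun i hi => lpos i hi (by simp)
  obtain ⟨v, hv, hmin⟩ := exists_min_image _ (fun i => h (p i) / lam (p i)) hne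
  rw [mem_filter] at hv
  obtain ⟨_, ρ, ρ0, ρp⟩ := hr v hv.1
  have ρv : ρ (p v) = 0 := ρ0 v (mem_singleton_self v)
  have ρpos : ∀ i ∈ s, i ≠ v → 0 < ρ (p i) := fun i hi hiv =>
    ρp i hi (by rw [mem_singleton]; exact hiv)
  set c := h (p v) / lam (p v) with hc
  have hcpos : 0 < c := div_pos hv.2 (lpos _ hv.1)
  obtain ⟨M, hM⟩ := exists_bound s (fun i => ρ (p i) / (c * lam (p i) - h (p i)))
  set δ := 1 / (max M 0 + 1) with hδ
  have hMp : 0 < max M 0 + 1 := by have := le_max_right M 0; linarith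
  have hδpos : 0 < δ := by positivity
  refine ⟨h - c • lam + δ • ρ, v, hv.1, hv.2, ?_, ?_⟩
  · simp only [LinearMap.add_apply, LinearMap.sub_apply, LinearMap.smul_apply, smul_eq_mul, ρv, hc]
    have := (lpos _ hv.1).ne'
    field_simp
    ring
  · intro i hi
    simp only [LinearMap.add_apply, LinearMap.sub_apply, LinearMap.smul_apply, smul_eq_mul]
    constructor
    · intro hpos
      have hiv : i ≠ v := by
        rintro rfl
        rw [ρv, hc, div_mul_cancel₀ _ (lpos _ hi).ne'] at hpos
        simp at hpos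
      refine ⟨?_, hiv⟩
      by_contra hn
      push Not at hn
      have h1 : 0 < c * lam (p i) - h (p i) := by
        have := mul_pos hcpos (lpos i hi)
        linarith
      have h2 := hM i hi
      rw [div_le_iff₀ h1] at h2
      have h3 : M * (c * lam (p i) - h (p i)) ≤ max M 0 * (c * lam (p i) - h (p i)) :=
        mul_le_mul_of_nonneg_right (le_max_left _ _) h1.le
      have h4 : δ * ρ (p i) < c * lam (p i) - h (p i) := by
        rw [hδ, one_div, inv_mul_lt_iff₀ hMp]
        linarith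
      linarith
    · rintro ⟨h1, h2⟩
      have h3 := hmin i (mem_filter.2 ⟨hi, h1⟩)
      rw [le_div_iff₀ (lpos i hi)] at h3
      have h4 := mul_pos hδpos (ρpos i hi h2)
      linarith

/-- the step over one 2-face at `v` -/
lemma h1_face {p : ι → V} {s F : Finset ι} (h0 : IsFace p s ∅) (hr : Red p s)
    (hF : F ∈ facesR p s 3) {v k l : ι} (hv : v ∈ F) (hkl : k ≠ l)
    (hFN : F ∩ nb p s v = {k, l}) (φ : Finset ι → ZMod 2) (hφ : ∑ E ∈ facesR p F 2, φ E = 0)
    (ψ : ι → ZMod 2)
    (hψ : ∀ i j, Adj p s i j → i ∈ F → j ∈ F → i ≠ v → j ≠ v → φ {i, j} = ψ i + ψ j) :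
    φ {v, k} + ψ k = φ {v, l} + ψ l := by
  have hF' := mem_facesR.1 hF
  have hk : k ∈ F ∩ nb p s v := by rw [hFN]; simp
  have hl : l ∈ F ∩ nb p s v := by rw [hFN]; simp
  rw [mem_inter, mem_nb] at hk hl
  set ψ1 : ι → ZMod 2 := fun i => if i = v then 0 else ψ i with hψ1
  have hsum : ∑ E ∈ facesR p F 2, (φ E + ∑ i ∈ E, ψ1 i) = 0 := by
    rw [sum_add_distrib, hφ, h1_double h0 hr hF ψ1, add_zero]
  rw [← sum_filter_add_sum_filter_not _ (fun E => v ∈ E)] at hsum
  have hz : ∑ E ∈ (facesR p F 2).filter (fun E => ¬ v ∈ E), (φ E + ∑ i ∈ E, ψ1 i) = 0 := by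
    apply sum_eq_zero
    intro E hE
    rw [mem_filter, facesR_restrict hF'.1] at hE
    obtain ⟨⟨hE1, hE2⟩, hE3⟩ := hE
    obtain ⟨i, hi⟩ := rk_pos_nonempty (p := p) (I := E) (by rw [(mem_facesR.1 hE1).2]; norm_num)
    obtain ⟨j, rfl, hij⟩ := hr.edge_eq h0 hE1 hi
    have hiv : i ≠ v := fun h => hE3 (by rw [h]; simp)
    have hjv : j ≠ v := fun h => hE3 (by rw [h]; simp)
    rw [sum_pair hij.1, hψ i j hij (hE2 (by simp)) (hE2 (by simp)) hiv hjv]
    simp only [hψ1, if_neg hiv, if_neg hjv]
    exact CharTwo.add_self_eq_zero _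
  have hset : (facesR p F 2).filter (fun E => v ∈ E) = {{v, k}, {v, l}} := by
    ext E
    rw [mem_filter, facesR_restrict hF'.1, mem_insert, mem_singleton]
    constructor
    · rintro ⟨⟨hE1, hE2⟩, hE3⟩
      obtain ⟨j, rfl, hij⟩ := hr.edge_eq h0 hE1 hE3
      have : j ∈ F ∩ nb p s v := mem_inter.2 ⟨hE2 (by simp), mem_nb.2 hij⟩
      rw [hFN, mem_insert, mem_singleton] at this
      rcases this with rfl | rfl
      · exact Or.inl rfl
      · exact Or.inr rfl
    · rintro (rfl | rfl)
      · refine ⟨⟨mem_facesR.2 ⟨hk.2.2, hk.2.rk_eq h0 hr⟩, ?_⟩, by simp⟩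
        intro j hj
        rw [mem_insert, mem_singleton] at hj
        rcases hj with rfl | rfl
        exacts [hv, hk.1]
      · refine ⟨⟨mem_facesR.2 ⟨hl.2.2, hl.2.rk_eq h0 hr⟩, ?_⟩, by simp⟩
        intro j hj
        rw [mem_insert, mem_singleton] at hj
        rcases hj with rfl | rfl
        exacts [hv, hl.1]
  have hne : ({v, k} : Finset ι) ≠ {v, l} := by
    intro h
    have : k ∈ ({v, l} : Finset ι) := by rw [← h]; simp
    rw [mem_insert, mem_singleton] at this
    rcases this with h1 | h1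
    · exact hk.2.1 h1.symm
    · exact hkl h1
  rw [hz, add_zero, hset, sum_pair hne, sum_pair hk.2.1, sum_pair hl.2.1] at hsum
  simp only [hψ1, if_true, if_neg hk.2.1.symm, if_neg hl.2.1.symm, zero_add] at hsum
  exact CharTwo.add_eq_zero.1 hsum

theorem h1 (hVF : S_VF) : S_H1 := by
  intro ι _ V _ _ p s n hP h φ
  have h0 := hP.pointed
  have hr := hP.red
  obtain ⟨m, hm⟩ : ∃ m, (s.filter fun i => 0 < h (p i)).card ≤ m := ⟨_, le_rfl⟩
  induction m generalizing h with
  | zero =>
    intro _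
    refine ⟨0, fun i j hij hi hj => ?_⟩
    have hi' : i ∈ s.filter fun i => 0 < h (p i) := mem_filter.2 ⟨hij.left, hi⟩
    have := card_pos.2 ⟨i, hi'⟩
    omega
  | succ m ih =>
    intro hφ
    by_cases hne : (s.filter fun i => 0 < h (p i)).Nonempty
    · obtain ⟨h', v, hvs, hvp, hv0, hiff⟩ := h1_sweep h0 hr h hne
      have hcard : (s.filter fun i => 0 < h' (p i)).card ≤ m := by
        have h1 : (s.filter fun i => 0 < h' (p i)) ⊆ (s.filter fun i => 0 < h (p i)).erase v := by
          intro i hi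
          rw [mem_filter] at hi
          have := (hiff i hi.1).1 hi.2
          exact mem_erase.2 ⟨this.2, mem_filter.2 ⟨hi.1, this.1⟩⟩
        have h2 := card_le_card h1
        rw [card_erase_of_mem (mem_filter.2 ⟨hvs, hvp⟩)] at h2
        omega
      obtain ⟨ψ0, hψ0⟩ := ih h' hcard (by
        intro F hF hpos
        refine hφ F hF (fun i hi => ?_)
        exact ((hiff i ((mem_facesR.1 hF).1.1 hi)).1 (hpos i hi)).1)
      -- the vertex figure
      obtain ⟨n', hn'⟩ : ∃ n', n = n' + 1 := by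
        have h1 := rk_mono (p := p) (I := {v}) (J := s) (by simpa using hvs)
        rw [Red.rk_one h0 hvs, hP.rank] at h1
        exact ⟨n - 1, by omega⟩
      subst hn'
      obtain ⟨hq, hface, hlift, _, hfun, hlast⟩ := hVF ι V p s n' v hP hvs
      obtain ⟨hb, hbv⟩ := hfun h' hv0
      have key : ∀ k l, Adj p s v k → 0 < h (p k) → Adj p s v l → 0 < h (p l) →
          φ {v, k} + ψ0 k = φ {v, l} + ψ0 l := by
        intro k l hk hkp hl hlp
        have hk' : 0 < h' (p k) := (hiff k hk.right).2 ⟨hkp, hk.1.symm⟩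
        have hl' : 0 < h' (p l) := (hiff l hl.right).2 ⟨hlp, hl.1.symm⟩
        classical
        set Z := (nb p s v).filter (fun j => 0 < h' (p j) ∧ φ {v, j} + ψ0 j = φ {v, k} + ψ0 k)
          with hZ
        have hmem : l ∈ Z := by
          refine connected_pos hq.pointed hq.red hb (Z := Z) ?_ ⟨k, ?_⟩ ?_ (mem_nb.2 hl)
            (by rw [hbv]; exact hl')
          · intro i hi
            rw [hZ, mem_filter] at hi
            exact ⟨hi.1, by rw [hbv]; exact hi.2.1⟩
          · rw [hZ, mem_filter]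
            exact ⟨mem_nb.2 hk, hk', rfl⟩
          · intro i hi j hij hj
            rw [hbv] at hj
            rw [hZ, mem_filter] at hi ⊢
            refine ⟨hij.right, hj, ?_⟩
            rw [← hi.2.2]
            obtain ⟨F, hF, hvF, hFN⟩ := hlift {i, j} hij.2
            have hrF : rk p F = 3 := by
              have h1 := (hface F hF hvF).2
              rw [hFN, hij.rk_eq hq.pointed hq.red] at h1
              omega
            have hF3 : F ∈ facesR p s 3 := mem_facesR.2 ⟨hF, hrF⟩
            have hFpos : ∀ a ∈ F, a ≠ v → 0 < h' (p a) := by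
              refine hlast h' hv0 F hF hvF (fun a ha => ?_)
              rw [hFN, mem_insert, mem_singleton] at ha
              rcases ha with rfl | rfl
              exacts [hi.2.1, hj]
            have hFpos' : ∀ a ∈ F, 0 < h (p a) := by
              intro a ha
              by_cases hav : a = v
              · rw [hav]; exact hvp
              · exact ((hiff a (hF.1 ha)).1 (hFpos a ha hav)).1
            exact (h1_face h0 hr hF3 hvF hij.1 hFN φ (hφ F hF3 hFpos') ψ0
              (fun a b hab ha hb hav hbv => hψ0 a b hab (hFpos a ha hav) (hFpos b hb hbv))).symm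
        rw [hZ, mem_filter] at hmem
        exact hmem.2.2.symm
      obtain ⟨t, ht⟩ : ∃ t : ZMod 2, ∀ k, Adj p s v k → 0 < h (p k) → φ {v, k} = t + ψ0 k := by
        by_cases hex : ∃ k, Adj p s v k ∧ 0 < h (p k)
        · obtain ⟨k, hk, hkp⟩ := hex
          refine ⟨φ {v, k} + ψ0 k, fun l hl hlp => ?_⟩
          rw [key k l hk hkp hl hlp, add_assoc, CharTwo.add_self_eq_zero, add_zero]
        · exact ⟨0, fun k hk hkp => absurd ⟨k, hk, hkp⟩ hex⟩
      refine ⟨Function.update ψ0 v t, fun i j hij hi hj => ?_⟩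
      by_cases hiv : i = v
      · subst hiv
        rw [Function.update_self, Function.update_of_ne hij.1.symm]
        exact ht j hij hj
      · by_cases hjv : j = v
        · subst hjv
          rw [Function.update_self, Function.update_of_ne hiv, pair_comm, add_comm]
          exact ht i hij.symm hi
        · rw [Function.update_of_ne hiv, Function.update_of_ne hjv]
          exact hψ0 i j hij ((hiff i hij.left).2 ⟨hi, hiv⟩) ((hiff j hij.right).2 ⟨hj, hjv⟩)
    · refine ⟨0, fun i j hij hi hj => ?_⟩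
      exact absurd ⟨i, mem_filter.2 ⟨hij.left, hi⟩⟩ hne

end Pool.Agent.Kal5
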