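import Pool.Agent.Kal5.Stmts

/-!
Module K5_K0: the parity argument around an uncut edge in no uncut 2-face.
-/

set_option autoImplicit false
set_option linter.unusedSectionVars false

namespace Pool.Agent.Kal5

open Finset Submodule Pool.Agent.Lib_helper40.Kal

section K0

variable {ι : Type} [DecidableEq ι] {V : Type} [AddCommGroup V] [Module ℝ V]

/-- A function constant along the edges of one side of a face is constant on this side. -/
lemma k0_conn (hC : S_CON) {p : ι → V} {s : Finset ι} {h : V →ₗ[ℝ] ℝ} {n : ℕ}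
    (hcut : Cut p s h n) {F : Finset ι} (hF : IsFace p s F) (g : ι → ZMod 2) {x : ι} (hx : x ∈ F)
    (hg : ∀ i ∈ F, ∀ k ∈ F, SS p h x i → SS p h x k → Adj p s i k → g i = g k) :
    ∀ w ∈ F, SS p h x w → g w = g x := by
  classical
  intro w hw hxw
  have := hC ι V p s h n hcut F hF (F.filter fun i => SS p h x i ∧ g i = g x) x
    (mem_filter.2 ⟨hx, Iff.rfl, rfl⟩) (fun i hi => ⟨(mem_filter.1 hi).1, (mem_filter.1 hi).2.1⟩)
    (fun i hi k hk hadj hss => by
      obtain ⟨h1, h2, h3⟩ := mem_filter.1 hi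
      have h4 : SS p h x k := h2.trans hss
      refine mem_filter.2 ⟨hk, h4, ?_⟩
      rw [← hg i h1 k hk h2 h4 hadj]
      exact h3) w hw hxw
  exact (mem_filter.1 this).2.2

/-- The parity argument. -/
lemma k0_parity {T A : Finset (Finset ι)} {F' : Finset ι} (hF' : F' ∈ T)
    (h1 : ∀ W ∈ A, (T.filter (fun G => G ⊆ W)).card = 2)
    (h2 : (A.filter (fun W => F' ⊆ W)).card = 1)
    (h3 : ∀ G ∈ T, G ≠ F' → Even (A.filter (fun W => G ⊆ W)).card) : False := by
  classical
  have key : ∑ G ∈ T, (A.filter (fun W => G ⊆ W)).card =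
      ∑ W ∈ A, (T.filter (fun G => G ⊆ W)).card :=
    Finset.sum_card_bipartiteAbove_eq_sum_card_bipartiteBelow (s := T) (t := A)
      (r := fun G W : Finset ι => G ⊆ W)
  rw [Finset.sum_congr rfl h1, sum_const, smul_eq_mul] at key
  rw [← Finset.add_sum_erase _ _ hF', h2] at key
  have hev : Even (∑ G ∈ T.erase F', (A.filter (fun W => G ⊆ W)).card) := by
    apply Finset.even_sum
    intro G hG
    rw [mem_erase] at hG
    exact h3 G hG.2 hG.1
  obtain ⟨r, hr⟩ := hev
  omega

/-- The 2-faces between an edge and a facet. -/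
lemma k0_two {p : ι → V} {s : Finset ι} {e W : Finset ι} (he : e ∈ facesR p s 2)
    (hW : W ∈ facesR p s 4) (heW : e ⊆ W) :
    ((facesR p s 3).filter fun G => e ⊆ G ∧ G ⊆ W).card = 2 := by
  rw [mem_facesR] at he hW
  have := card_diamond he.1 hW.1 heW (by omega)
  rw [he.2] at this
  exact this

end K0

theorem k0 (hC : S_CON) (hCS : S_CUTSET) : S_K0 := by
  classical
  intro ι _ V _ _ p s h hcut e he hte W hW heW
  by_contra hno
  push Not at hno
  have hno' : ∀ f ∈ uf p s h 2, f ⊆ W → tt p s h f = 0 := fun f hf hfW => by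
    have := hno f hf hfW
    omega
  obtain ⟨he2, heU⟩ := mem_filter.1 he
  have he2' := mem_facesR.1 he2
  have hW' := mem_facesR.1 hW
  have h0 := hcut.pointed
  have hred := hcut.red
  have hrk := hcut.rank
  -- no uncut 2-face contains `e`
  have hcutT : ∀ T ∈ facesR p s 3, e ⊆ T → ¬ Unc p h T := by
    intro T hT heT hU
    unfold tt at hte
    rw [card_eq_zero, filter_eq_empty_iff] at hte
    exact hte (mem_filter.2 ⟨hT, hU⟩) heT
  -- the two 2-faces of `W`
  have heW2 : e ∈ facesR p W 2 := mem_facesR.2 ⟨(isFace_restrict hW'.1).2 ⟨he2'.1, heW⟩, he2'.2⟩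
  obtain ⟨F, F', hF, hF', hne, heF, heF', hFF', hall⟩ := exists_two_facets heW2 hW'.2
  have hFW := mem_facesR.1 hF
  have hFW' := mem_facesR.1 hF'
  rw [isFace_restrict hW'.1] at hFW hFW'
  have hFs : F ∈ facesR p s 3 := mem_facesR.2 ⟨hFW.1.1, hFW.2⟩
  have hFs' : F' ∈ facesR p s 3 := mem_facesR.2 ⟨hFW'.1.1, hFW'.2⟩
  obtain ⟨x0, hx0⟩ : e.Nonempty := rk_pos_nonempty (p := p) (by omega)
  -- every 2-face containing `e` has an opposite vertex
  have hopp : ∀ T ∈ facesR p s 3, e ⊆ T → ∃ i ∈ T, ¬ SS p h x0 i := by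
    intro T hT heT
    by_contra hcon
    push Not at hcon
    apply hcutT T hT heT
    intro i hi j hj
    exact (hcon i hi).symm.trans (hcon j hj)
  obtain ⟨a, haF, hxa⟩ := hopp F hFs heF
  obtain ⟨a', haF', hxa'⟩ := hopp F' hFs' heF'
  -- opposite = same side as `a`
  have hside : ∀ i, ¬ SS p h x0 i → SS p h a i := by
    intro i hi
    unfold SS at *
    tauto
  have hside' : ∀ i, SS p h a i → ¬ SS p h x0 i := by
    intro i hi
    unfold SS at *
    tauto
  have hne_e : ∀ i, SS p h a i → i ∉ e := by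
    intro i hi hie
    exact hside' i hi (heU x0 hx0 i hie)
  -- the cut set
  obtain ⟨ψ, hψ⟩ := hCS ι V p s h 5 hcut
    {E | ∃ b c, E = {b, c} ∧ b ∈ F ∧ c ∉ F ∧ c ∈ W ∧ SS p h a b ∧ SS p h a c}
    (by
      rintro E ⟨b, c, rfl, hb, hc, hcW, -, -⟩ hE
      apply hno' _ hE
      intro k hk
      rw [mem_insert, mem_singleton] at hk
      rcases hk with rfl | rfl
      · exact hFW.1.2 hb
      · exact hcW)
  -- membership in the cut set
  have hmem : ∀ i k, ({i, k} : Finset ι) ∈ {E | ∃ b c, E = ({b, c} : Finset ι) ∧ b ∈ F ∧ c ∉ F ∧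
      c ∈ W ∧ SS p h a b ∧ SS p h a c} ↔
      (i ∈ F ∧ k ∉ F ∧ k ∈ W ∧ SS p h a i ∧ SS p h a k) ∨
      (k ∈ F ∧ i ∉ F ∧ i ∈ W ∧ SS p h a k ∧ SS p h a i) := by
    intro i k
    constructor
    · rintro ⟨b, c, hE, hb, hc, hcW, hab, hac⟩
      have hb' : b ∈ ({i, k} : Finset ι) := by rw [hE]; simp
      have hc' : c ∈ ({i, k} : Finset ι) := by rw [hE]; simp
      rw [mem_insert, mem_singleton] at hb' hc'
      rcases hb' with rfl | rfl
      · rcases hc' with rfl | rfl
        · exact absurd hb hc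
        · exact Or.inl ⟨hb, hc, hcW, hab, hac⟩
      · rcases hc' with rfl | rfl
        · exact Or.inr ⟨hb, hc, hcW, hab, hac⟩
        · exact absurd hb hc
    · rintro (⟨h1, h2, h3, h4, h5⟩ | ⟨h1, h2, h3, h4, h5⟩)
      · exact ⟨i, k, rfl, h1, h2, h3, h4, h5⟩
      · exact ⟨k, i, pair_comm _ _, h1, h2, h3, h4, h5⟩
  have z2 : ∀ x y : ZMod 2, x ≠ y → x + 1 = y := by decide
  have haW : a ∈ W := hFW.1.2 haF
  have haW' : a' ∈ W := hFW'.1.2 haF'
  have ha'F : a' ∉ F := fun h1 => hne_e a' (hside a' hxa') (by rw [← hFF']; exact mem_inter.2 ⟨h1, haF'⟩)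
  -- `ψ + 1_F` is constant on the opposite vertices of `W`
  have hψa : ψ a + 1 = ψ a' := by
    have := k0_conn hC hcut hW'.1 (fun i => ψ i + if i ∈ F then 1 else 0) haW (by
      intro i hi k hk hai hak hadj
      have hik : SS p h i k := hai.symm.trans hak
      have h1 := hψ i k hadj hik
      rw [hmem] at h1
      by_cases hiF : i ∈ F
      · by_cases hkF : k ∈ F
        · have : ψ i = ψ k := by
            by_contra h2
            rcases h1.1 h2 with h3 | h3
            · exact h3.2.1 hkF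
            · exact h3.2.1 hiF
          simp [hiF, hkF, this]
        · have h2 := h1.2 (Or.inl ⟨hiF, hkF, hk, hai, hak⟩)
          simp only [hiF, hkF, if_true, if_false, add_zero]
          exact z2 _ _ h2
      · by_cases hkF : k ∈ F
        · have h2 := h1.2 (Or.inr ⟨hkF, hiF, hi, hak, hai⟩)
          simp only [hiF, hkF, if_true, if_false, add_zero]
          exact (z2 _ _ h2.symm).symm
        · have : ψ i = ψ k := by
            by_contra h2
            rcases h1.1 h2 with h3 | h3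
            · exact hiF h3.1
            · exact hkF h3.1
          simp [hiF, hkF, this]) a' haW' (hside a' hxa')
    simp only [haF, ha'F, if_true, if_false, add_zero] at this
    exact this.symm
  have hψne : ψ a ≠ ψ a' := by
    rw [← hψa]
    have : ∀ x : ZMod 2, x ≠ x + 1 := by decide
    exact this _
  -- the other facets
  have hconst : ∀ W' ∈ facesR p s 4, e ⊆ W' → W' ≠ W → ∀ i ∈ W', ∀ k ∈ W', SS p h a i →
      SS p h a k → ψ i = ψ k := by
    intro W' hW1 heW1 hneW i hi k hk hai hak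
    have hW1' := mem_facesR.1 hW1
    have hin := hW'.1.inter hW1'.1
    have hlt : rk p (W ∩ W') < 4 := by
      have h1 : rk p (W ∩ W') < rk p W := by
        apply hin.rk_lt hW'.1.1
        refine ⟨inter_subset_left, fun h2 => hneW ?_⟩
        exact (hW'.1.eq_of_rk_le hW1'.1.1 (h2.trans inter_subset_right) (by omega)).symm
      omega
    -- no edge of the cut set is in `W'`
    have hS : ∀ b ∈ W', ∀ c ∈ W', b ∈ F → c ∉ F → c ∈ W → SS p h a b → SS p h a c → False := by
      intro b hb c hc hbF hcF hcW hab hac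
      have hbW : b ∈ W := hFW.1.2 hbF
      have hsub : e ⊂ W ∩ W' := by
        refine ⟨subset_inter heW heW1, fun h2 => hne_e b hab (h2 (mem_inter.2 ⟨hbW, hb⟩))⟩
      have hgt := he2'.1.rk_lt hin.1 hsub
      have hmem3 : W ∩ W' ∈ facesR p W 3 := by
        rw [mem_facesR, isFace_restrict hW'.1]
        exact ⟨⟨hin, inter_subset_left⟩, by omega⟩
      rcases hall _ hmem3 hsub.1 with h2 | h2
      · exact hcF (by rw [← h2]; exact mem_inter.2 ⟨hcW, hc⟩)
      · apply hne_e b hab
        rw [← hFF']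
        refine mem_inter.2 ⟨hbF, ?_⟩
        rw [← h2]
        exact mem_inter.2 ⟨hbW, hb⟩
    have hik : SS p h i k := hai.symm.trans hak
    have := k0_conn hC hcut hW1'.1 ψ hi (by
      intro j hj l hl hij hil hadj
      have haj : SS p h a j := hai.trans hij
      have hal : SS p h a l := hai.trans hil
      by_contra hcon
      have h1 := (hψ j l hadj (hij.symm.trans hil)).1 hcon
      rw [hmem] at h1
      rcases h1 with ⟨h2, h3, h4, h5, h6⟩ | ⟨h2, h3, h4, h5, h6⟩
      · exact hS j hj l hl h2 h3 h4 h5 h6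
      · exact hS l hl j hj h2 h3 h4 h5 h6) k hk hik
    exact this.symm
  -- the parity argument
  set T := (facesR p s 3).filter fun G => e ⊆ G with hT
  set A := (facesR p s 4).filter fun W' => e ⊆ W' ∧ W' ≠ W ∧ ∃ i ∈ W', SS p h a i ∧ ψ i = ψ a'
    with hA
  -- the two facets containing a 2-face
  have htwo : ∀ G ∈ facesR p s 3, ∃ W₁ W₂, W₁ ∈ facesR p s 4 ∧ W₂ ∈ facesR p s 4 ∧ W₁ ≠ W₂ ∧
      G ⊆ W₁ ∧ G ⊆ W₂ ∧ ∀ W₃ ∈ facesR p s 4, G ⊆ W₃ → W₃ = W₁ ∨ W₃ = W₂ := by
    intro G hG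
    obtain ⟨W₁, W₂, h1, h2, h3, h4, h5, -, h6⟩ := exists_two_facets hG hrk
    exact ⟨W₁, W₂, h1, h2, h3, h4, h5, h6⟩
  -- facets on the other side of `F` and `F'`
  have hW_only : ∀ G ∈ facesR p s 3, e ⊆ G → G ⊆ W → G = F ∨ G = F' := by
    intro G hG heG hGW
    apply hall G _ heG
    rw [mem_facesR] at hG ⊢
    exact ⟨(isFace_restrict hW'.1).2 ⟨hG.1, hGW⟩, hG.2⟩
  have hother : ∀ G ∈ facesR p s 3, G ⊆ W → ∃ W₁ ∈ facesR p s 4, W₁ ≠ W ∧ G ⊆ W₁ ∧
      ∀ W₃ ∈ facesR p s 4, G ⊆ W₃ → W₃ = W ∨ W₃ = W₁ := by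
    intro G hG hGW
    obtain ⟨W₁, W₂, h1, h2, h3, h4, h5, h6⟩ := htwo G hG
    rcases h6 W hW hGW with rfl | rfl
    · exact ⟨W₂, h2, h3.symm, h5, h6⟩
    · exact ⟨W₁, h1, h3, h4, fun W₃ h7 h8 => (h6 W₃ h7 h8).symm⟩
  refine k0_parity (T := T) (A := A) (F' := F') (mem_filter.2 ⟨hFs', heF'⟩) ?_ ?_ ?_
  · intro W₁ hW₁
    obtain ⟨h1, h2, -, -⟩ := mem_filter.1 hW₁
    have := k0_two he2 h1 h2
    rw [hT, filter_filter]
    exact this
  · obtain ⟨W₁, h1, h2, h3, h4⟩ := hother F' hFs' hFW'.1.2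
    rw [card_eq_one]
    refine ⟨W₁, ?_⟩
    ext W₃
    rw [mem_filter, mem_singleton]
    constructor
    · rintro ⟨h5, h6⟩
      obtain ⟨h7, h8, h9, -⟩ := mem_filter.1 h5
      rcases h4 W₃ h7 h6 with h10 | h10
      · exact absurd h10 h9
      · exact h10
    · rintro rfl
      exact ⟨mem_filter.2 ⟨h1, heF'.trans h3, h2, a', h3 haF', hside a' hxa', rfl⟩, h3⟩
  · intro G hG hGne
    obtain ⟨hG3, heG⟩ := mem_filter.1 hG
    by_cases hGF : G = F
    · subst hGF
      obtain ⟨W₁, h1, h2, h3, h4⟩ := hother G hG3 hFW.1.2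
      have : (A.filter fun W' => G ⊆ W') = ∅ := by
        rw [filter_eq_empty_iff]
        intro W₃ h5 h6
        obtain ⟨h7, h8, h9, i, h10, h11, h12⟩ := mem_filter.1 h5
        apply hψne
        rw [← h12]
        exact hconst W₃ h7 h8 h9 a (h6 haF) i h10 Iff.rfl h11
      rw [this, card_empty]
      exact Even.zero
    · have hGW : ¬ G ⊆ W := fun h1 => by
        rcases hW_only G hG3 heG h1 with h2 | h2
        · exact hGF h2
        · exact hGne h2
      obtain ⟨W₁, W₂, h1, h2, h3, h4, h5, h6⟩ := htwo G hG3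
      have hW₁ : W₁ ≠ W := fun h7 => hGW (h7 ▸ h4)
      have hW₂ : W₂ ≠ W := fun h7 => hGW (h7 ▸ h5)
      obtain ⟨b, hbG, hxb⟩ := hopp G hG3 heG
      have hab := hside b hxb
      by_cases hb : ψ b = ψ a'
      · have : (A.filter fun W' => G ⊆ W') = {W₁, W₂} := by
          ext W₃
          rw [mem_filter, mem_insert, mem_singleton]
          constructor
          · rintro ⟨h7, h8⟩
            exact h6 W₃ (mem_filter.1 h7).1 h8
          · rintro (rfl | rfl)
            · exact ⟨mem_filter.2 ⟨h1, heG.trans h4, hW₁, b, h4 hbG, hab, hb⟩, h4⟩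
            · exact ⟨mem_filter.2 ⟨h2, heG.trans h5, hW₂, b, h5 hbG, hab, hb⟩, h5⟩
        rw [this, card_pair h3]
        exact even_two
      · have : (A.filter fun W' => G ⊆ W') = ∅ := by
          rw [filter_eq_empty_iff]
          intro W₃ h7 h8
          obtain ⟨h9, h10, h11, i, h12, h13, h14⟩ := mem_filter.1 h7
          apply hb
          rw [← h14]
          exact hconst W₃ h9 h10 h11 b (h8 hbG) i h12 hab h13
        rw [this, card_empty]
        exact Even.zero

end Pool.Agent.Kal5
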