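import Pool.Agent.Kal5.Stmts

/-!
Module K5_K1: parity argument around an uncut edge in exactly one uncut 2-face.
-/

set_option autoImplicit false
set_option linter.unusedSectionVars false

namespace Pool.Agent.Kal5

open Finset Submodule Pool.Agent.Lib_helper40.Kal

namespace K1

variable {ι : Type} [DecidableEq ι] {V : Type} [AddCommGroup V] [Module ℝ V]

/-- the second 2-face of a 3-face `Y` at an edge -/
lemma second {p : ι → V} {s Y e G : Finset ι} (hY : Y ∈ facesR p s 4) (he : e ∈ facesR p s 2)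
    (hG : G ∈ facesR p s 3) (heG : e ⊆ G) (hGY : G ⊆ Y) :
    ∃ F ∈ facesR p s 3, e ⊆ F ∧ F ⊆ Y ∧ F ≠ G ∧
      ∀ H ∈ facesR p s 3, e ⊆ H → H ⊆ Y → H = G ∨ H = F := by
  rw [mem_facesR] at hY
  have he' : e ∈ facesR p Y 2 := (facesR_restrict hY.1).2 ⟨he, heG.trans hGY⟩
  have hG' : G ∈ facesR p Y 3 := (facesR_restrict hY.1).2 ⟨hG, hGY⟩
  obtain ⟨T, T', hT, hT', hne, heT, heT', -, hall⟩ := exists_two_facets he' hY.2
  have hT1 := (facesR_restrict hY.1).1 hT
  have hT2 := (facesR_restrict hY.1).1 hT'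
  have hall' : ∀ H ∈ facesR p s 3, e ⊆ H → H ⊆ Y → H = T ∨ H = T' := fun H hH heH hHY =>
    hall H ((facesR_restrict hY.1).2 ⟨hH, hHY⟩) heH
  rcases hall G hG' heG with h | h
  · subst h
    exact ⟨T', hT2.1, heT', hT2.2, hne.symm, hall'⟩
  · subst h
    exact ⟨T, hT1.1, heT, hT1.2, hne, fun H hH heH hHY => (hall' H hH heH hHY).symm⟩

/-- exactly two 2-faces of a 3-face contain an edge -/
lemma two_of {p : ι → V} {s Y e : Finset ι} (hY : Y ∈ facesR p s 4) (he : e ∈ facesR p s 2)
    (heY : e ⊆ Y) : ((facesR p s 3).filter fun H => e ⊆ H ∧ H ⊆ Y).card = 2 := by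
  rw [mem_facesR] at hY
  have he' : e ∈ facesR p Y 2 := (facesR_restrict hY.1).2 ⟨he, heY⟩
  obtain ⟨T, T', hT, hT', hne, heT, heT', -, hall⟩ := exists_two_facets he' hY.2
  have hT1 := (facesR_restrict hY.1).1 hT
  have hT2 := (facesR_restrict hY.1).1 hT'
  have : (facesR p s 3).filter (fun H => e ⊆ H ∧ H ⊆ Y) = {T, T'} := by
    ext H
    simp only [mem_filter, mem_insert, mem_singleton]
    constructor
    · rintro ⟨h1, h2, h3⟩
      exact hall H ((facesR_restrict hY.1).2 ⟨h1, h3⟩) h2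
    · rintro (rfl | rfl)
      · exact ⟨hT1.1, heT, hT1.2⟩
      · exact ⟨hT2.1, heT', hT2.2⟩
  rw [this, card_pair hne]

end K1

open K1 in
theorem k1 (hC : S_CON) : S_K1 := by
  intro ι _ V _ _ p s h hcut e he G hG heG htt
  classical
  -- basic facts
  have he2 : e ∈ facesR p s 2 := (mem_filter.1 he).1
  have heU : Unc p h e := (mem_filter.1 he).2
  have hG3 : G ∈ facesR p s 3 := (mem_filter.1 hG).1
  have hGU : Unc p h G := (mem_filter.1 hG).2
  have hrk : rk p s = 5 := hcut.rank
  obtain ⟨a, ha⟩ : e.Nonempty := rk_pos_nonempty (p := p) (by rw [(mem_facesR.1 he2).2]; norm_num)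
  -- a 2-face containing `e`, other than `G`, has an opposite vertex
  have hopp : ∀ H ∈ facesR p s 3, e ⊆ H → H ≠ G → ∃ x ∈ H, ¬ SS p h a x := by
    intro H hH heH hne
    by_contra hcon
    push Not at hcon
    have hHU : Unc p h H := fun i hi j hj => (hcon i hi).symm.trans (hcon j hj)
    unfold tt at htt
    obtain ⟨K, hK⟩ := card_eq_one.1 htt
    have h1 : H ∈ (uf p s h 3).filter fun W => e ⊆ W :=
      mem_filter.2 ⟨mem_filter.2 ⟨hH, hHU⟩, heH⟩
    have h2 : G ∈ (uf p s h 3).filter fun W => e ⊆ W := mem_filter.2 ⟨hG, heG⟩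
    rw [hK, mem_singleton] at h1 h2
    exact hne (h1.trans h2.symm)
  obtain ⟨Y₁, Y₂, hY₁, hY₂, hY, hGY₁, hGY₂, hYY, hYall⟩ := exists_two_facets hG3 hrk
  obtain ⟨F₁, hF₁, heF₁, hF₁Y, hF₁G, hF₁all⟩ := second hY₁ he2 hG3 heG hGY₁
  obtain ⟨F₂, hF₂, heF₂, hF₂Y, hF₂G, hF₂all⟩ := second hY₂ he2 hG3 heG hGY₂
  by_contra hfalse
  push Not at hfalse
  -- faces contained in both `Y₁` and `Y₂`
  have hboth : ∀ H ∈ facesR p s 3, H ⊆ Y₁ → H ⊆ Y₂ → H = G := by
    intro H hH h1 h2
    have h3 : H ⊆ G := by rw [← hYY]; exact subset_inter h1 h2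
    exact (mem_facesR.1 hH).1.eq_of_rk_le (mem_facesR.1 hG3).1.subset h3
      (by rw [(mem_facesR.1 hG3).2, (mem_facesR.1 hH).2])
  have hF12 : F₁ ≠ F₂ := fun h12 => hF₁G (hboth F₁ hF₁ hF₁Y (h12 ▸ hF₂Y))
  -- the other facets meet `G` in `e`
  have hWG : ∀ W ∈ facesR p s 4, e ⊆ W → W ≠ Y₁ → W ≠ Y₂ → W ∩ G = e := by
    intro W hW heW hW1 hW2
    have hf : IsFace p s (W ∩ G) := (mem_facesR.1 hW).1.inter (mem_facesR.1 hG3).1
    have hsub : e ⊆ W ∩ G := subset_inter heW heG
    symm
    refine (mem_facesR.1 he2).1.eq_of_rk_le hf.subset hsub ?_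
    rw [(mem_facesR.1 he2).2]
    by_contra hlt
    rw [not_le] at hlt
    have : W ∩ G = G := hf.eq_of_rk_le (mem_facesR.1 hG3).1.subset inter_subset_right
      (by rw [(mem_facesR.1 hG3).2]; omega)
    rcases hYall W hW (by rw [← this]; exact inter_subset_left) with h1 | h1
    · exact hW1 h1
    · exact hW2 h1
  -- opposite vertices: all or none in `Y₁`
  have hall : ∀ W ∈ facesR p s 4, e ⊆ W → W ≠ Y₁ → W ≠ Y₂ → ∀ x ∈ W, ¬ SS p h a x → x ∈ Y₁ →
      ∀ y ∈ W, ¬ SS p h a y → y ∈ Y₁ := by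
    intro W hW heW hW1 hW2 x hx hxo hxY y hy hyo
    have hSS : ∀ i, ¬ SS p h a i → SS p h x i := by
      intro i hi
      unfold SS at hi hxo ⊢
      tauto
    have hSS' : ∀ i, SS p h x i → ¬ SS p h a i := by
      intro i hi
      unfold SS at hi hxo ⊢
      tauto
    have hmain := hC ι V p s h 5 hcut W (mem_facesR.1 hW).1
      (W.filter fun i => ¬ SS p h a i ∧ i ∈ Y₁) x (mem_filter.2 ⟨hx, hxo, hxY⟩)
      (fun i hi => ⟨(mem_filter.1 hi).1, hSS i (mem_filter.1 hi).2.1⟩) ?_ y hy (hSS y hyo)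
    · exact (mem_filter.1 hmain).2.2
    · intro i hi k hk hadj hik
      have hi' := mem_filter.1 hi
      have hko : ¬ SS p h a k := by
        have h1 := hi'.2.1
        unfold SS at h1 hik ⊢
        tauto
      refine mem_filter.2 ⟨hk, hko, ?_⟩
      by_contra hkY
      exact hkY (hfalse Y₁ hY₁ W hW hGY₁ (hWG W hW heW hW1 hW2) i k hadj hik hi'.1 hk hi'.2.2)
  -- the set `A`
  set A : Finset (Finset ι) := (facesR p s 4).filter fun W =>
    e ⊆ W ∧ W ≠ Y₁ ∧ W ≠ Y₂ ∧ ∃ x ∈ W, ¬ SS p h a x ∧ x ∈ Y₁ with hA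
  set S3 : Finset (Finset ι) := (facesR p s 3).filter fun H => e ⊆ H with hS3
  -- double counting
  have hdc : ∑ H ∈ S3, (A.filter fun W => H ⊆ W).card = 2 * A.card := by
    have h1 : ∑ H ∈ S3, (A.filter fun W => H ⊆ W).card =
        ∑ W ∈ A, (S3.filter fun H => H ⊆ W).card := by
      have h0 := sum_card_bipartiteAbove_eq_sum_card_bipartiteBelow
        (s := S3) (t := A) (fun (H W : Finset ι) => H ⊆ W)
      simpa only [bipartiteAbove, bipartiteBelow] using h0
    rw [h1]
    have h2 : ∀ W ∈ A, (S3.filter fun H => H ⊆ W).card = 2 := by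
      intro W hW
      rw [hA, mem_filter] at hW
      rw [hS3, filter_filter]
      exact two_of hW.1 he2 hW.2.1
    rw [sum_congr rfl h2, sum_const, smul_eq_mul, mul_comm]
  -- contribution of one 2-face
  have hcontr : ∀ H ∈ S3, ((A.filter fun W => H ⊆ W).card : ZMod 2) =
      if H = F₁ then 1 else 0 := by
    intro H hH
    rw [hS3, mem_filter] at hH
    obtain ⟨hH, heH⟩ := hH
    obtain ⟨T, T', hT, hT', hne, hHT, hHT', -, hTall⟩ := exists_two_facets hH hrk
    have hAH : ∀ W ∈ A.filter (fun W => H ⊆ W), W = T ∨ W = T' := by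
      intro W hW
      rw [mem_filter, hA, mem_filter] at hW
      exact hTall W hW.1.1 hW.2
    by_cases hHG : H = G
    · -- contribution 0
      have h0 : A.filter (fun W => H ⊆ W) = ∅ := by
        rw [filter_eq_empty_iff]
        intro W hW hHW
        rw [hA, mem_filter] at hW
        rcases hYall W hW.1 (hHG ▸ hHW) with h1 | h1
        · exact hW.2.2.1 h1
        · exact hW.2.2.2.1 h1
      rw [h0, if_neg (by rw [hHG]; exact hF₁G.symm)]
      simp
    · obtain ⟨x, hx, hxo⟩ := hopp H hH heH hHG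
      by_cases hH1 : H = F₁
      · -- contribution 1
        rw [if_pos hH1]
        have hcard : (A.filter fun W => H ⊆ W).card = 1 := by
          rw [card_eq_one]
          -- the other facet
          have hoth : ∃ T₀ ∈ facesR p s 4, H ⊆ T₀ ∧ T₀ ≠ Y₁ ∧
              ∀ W ∈ facesR p s 4, H ⊆ W → W = Y₁ ∨ W = T₀ := by
            rcases hTall Y₁ hY₁ (hH1 ▸ hF₁Y) with h1 | h1
            · exact ⟨T', hT', hHT', by rw [h1]; exact hne.symm, fun W hW hHW => by
                rw [h1]; exact hTall W hW hHW⟩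
            · exact ⟨T, hT, hHT, by rw [h1]; exact hne, fun W hW hHW => by
                rw [h1]; exact (hTall W hW hHW).symm⟩
          obtain ⟨T₀, hT₀, hHT₀, hT₀Y, hT₀all⟩ := hoth
          refine ⟨T₀, ?_⟩
          ext W
          simp only [mem_filter, mem_singleton, hA]
          constructor
          · rintro ⟨⟨h1, -, h3, -⟩, h5⟩
            rcases hT₀all W h1 h5 with h6 | h6
            · exact absurd h6 h3
            · exact h6
          · intro hW
            subst hW
            refine ⟨⟨hT₀, heH.trans hHT₀, hT₀Y, ?_, x, hHT₀ hx, hxo, ?_⟩, hHT₀⟩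
            · intro h2
              exact hHG (hboth H hH (hH1 ▸ hF₁Y) (h2 ▸ hHT₀))
            · exact (hH1 ▸ hF₁Y : H ⊆ Y₁) hx
        rw [hcard]; simp
      · rw [if_neg hH1]
        by_cases hH2 : H = F₂
        · -- contribution 0
          have h0 : A.filter (fun W => H ⊆ W) = ∅ := by
            rw [filter_eq_empty_iff]
            intro W hW hHW
            rw [hA, mem_filter] at hW
            obtain ⟨hW4, heW, hW1, hW2, x', hx', hx'o, hx'Y⟩ := hW
            have hxY : x ∈ Y₁ := hall W hW4 heW hW1 hW2 x' hx' hx'o hx'Y x (hHW hx) hxo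
            have hxG : x ∈ G := by
              rw [← hYY]
              exact mem_inter.2 ⟨hxY, (hH2 ▸ hF₂Y : H ⊆ Y₂) hx⟩
            exact hxo (hGU a (heG ha) x hxG)
          rw [h0]; simp
        · -- contribution 0 or 2
          have hnY : ∀ W, W ∈ facesR p s 4 → H ⊆ W → W ≠ Y₁ ∧ W ≠ Y₂ := by
            intro W _ hHW
            constructor
            · intro h1
              rcases hF₁all H hH heH (h1 ▸ hHW) with h2 | h2
              · exact hHG h2
              · exact hH1 h2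
            · intro h1
              rcases hF₂all H hH heH (h1 ▸ hHW) with h2 | h2
              · exact hHG h2
              · exact hH2 h2
          by_cases hxY : x ∈ Y₁
          · have h2 : A.filter (fun W => H ⊆ W) = {T, T'} := by
              ext W
              simp only [mem_filter, mem_insert, mem_singleton, hA]
              constructor
              · rintro ⟨⟨h1, -⟩, h5⟩
                exact hTall W h1 h5
              · rintro (rfl | rfl)
                · exact ⟨⟨hT, heH.trans hHT, (hnY _ hT hHT).1, (hnY _ hT hHT).2, x, hHT hx,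
                    hxo, hxY⟩, hHT⟩
                · exact ⟨⟨hT', heH.trans hHT', (hnY _ hT' hHT').1, (hnY _ hT' hHT').2, x,
                    hHT' hx, hxo, hxY⟩, hHT'⟩
            rw [h2, card_pair hne]
            decide
          · have h0 : A.filter (fun W => H ⊆ W) = ∅ := by
              rw [filter_eq_empty_iff]
              intro W hW hHW
              rw [hA, mem_filter] at hW
              obtain ⟨hW4, heW, hW1, hW2, x', hx', hx'o, hx'Y⟩ := hW
              exact hxY (hall W hW4 heW hW1 hW2 x' hx' hx'o hx'Y x (hHW hx) hxo)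
            rw [h0]; simp
  -- parity
  have hpar : ((∑ H ∈ S3, (A.filter fun W => H ⊆ W).card : ℕ) : ZMod 2) = 1 := by
    rw [Nat.cast_sum, sum_congr rfl hcontr, sum_ite_eq' S3 F₁ (fun _ => (1 : ZMod 2))]
    rw [if_pos]
    rw [hS3, mem_filter]
    exact ⟨hF₁, heF₁⟩
  rw [hdc] at hpar
  have h20 : ((2 * A.card : ℕ) : ZMod 2) = 0 := by
    rw [Nat.cast_mul]
    have : ((2 : ℕ) : ZMod 2) = 0 := by decide
    rw [this, zero_mul]
  rw [h20] at hpar
  exact absurd hpar (by decide)

end Pool.Agent.Kal5
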