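import Pool.Agent.Kal5.Stmts
import Pool.Agent.Lib_helper40.Kal.Bounded

/-!
Module K5_L: incidences of vertices and 2-faces of a 3-polytope (`S_L4`), and the same at a
vertex of a 4-polytope (`S_L5`).
-/

set_option autoImplicit false
set_option linter.unusedSectionVars false

namespace Pool.Agent.Kal5

open Finset Submodule Pool.Agent.Lib_helper40.Kal

section

variable {ι : Type} [DecidableEq ι] {V : Type} [AddCommGroup V] [Module ℝ V]

/-- a pointed reduced family with at least two elements has rank at least two -/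
lemma l4_two_le_rk {p : ι → V} {t : Finset ι} (h0 : IsFace p t ∅) (hr : Red p t)
    (h : 2 ≤ t.card) : 2 ≤ rk p t := by
  have hc := hr.card_facesR_one h0
  by_contra hlt
  have h01 : rk p t = 0 ∨ rk p t = 1 := by omega
  rcases h01 with h1 | h1
  · have e1 : facesR p t 0 = {t} := by
      have := facesR_top (p := p) (s := t)
      rwa [h1] at this
    rw [facesR_zero h0] at e1
    have e2 : (∅ : Finset ι) = t := singleton_injective e1
    rw [← e2] at h
    simp at h
  · have e1 : facesR p t 1 = {t} := by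
      have := facesR_top (p := p) (s := t)
      rwa [h1] at this
    rw [e1, card_singleton] at hc
    omega

/-- a pointed reduced family with at least three elements has rank at least three -/
lemma l4_three_le_rk {p : ι → V} {t : Finset ι} (h0 : IsFace p t ∅) (hr : Red p t)
    (h : 3 ≤ t.card) : 3 ≤ rk p t := by
  have hc := hr.card_facesR_one h0
  have h2 := l4_two_le_rk h0 hr (by omega)
  by_contra hlt
  have h3 : rk p t = 2 := by omega
  have := card_rank_two h0 h3
  omega

/-- in rank four every edge is in exactly two facets -/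
lemma l4_card_two {p : ι → V} {X E : Finset ι} (hrk : rk p X = 4) (hE : E ∈ facesR p X 2) :
    ((facesR p X 3).filter fun T => E ⊆ T).card = 2 := by
  obtain ⟨T, T', hT, hT', hne, h1, h2, -, h4⟩ := exists_two_facets hE (by omega)
  have : (facesR p X 3).filter (fun T => E ⊆ T) = {T, T'} := by
    ext W
    simp only [mem_filter, mem_insert, mem_singleton]
    constructor
    · rintro ⟨hW, hEW⟩
      exact h4 W hW hEW
    · rintro (rfl | rfl)
      · exact ⟨hT, h1⟩
      · exact ⟨hT', h2⟩
  rw [this, card_pair hne]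

/-- the number of edges and the facets, rank four -/
lemma l4_sum_facets {p : ι → V} {X : Finset ι} (h0 : IsFace p X ∅) (hr : Red p X)
    (hrk : rk p X = 4) : ∑ J ∈ facesR p X 3, J.card = 2 * (facesR p X 2).card := by
  have h1 := sum_card_comm (p := p) (s := X) 2 3
  have h2 : ∑ F ∈ facesR p X 2, ((facesR p X 3).filter (fun G => F ⊆ G)).card
      = 2 * (facesR p X 2).card := by
    rw [sum_congr rfl (fun F hF => l4_card_two hrk hF), sum_const, smul_eq_mul, mul_comm]
  rw [← h2, h1]
  refine sum_congr rfl fun J hJ => ?_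
  obtain ⟨hJ1, hJ2⟩ := mem_facesR.1 hJ
  have hJ0 : IsFace p J ∅ := (isFace_restrict hJ1).2 ⟨h0, empty_subset _⟩
  rw [card_rank_three hJ0 hJ2, (hr.restrict hJ1).card_facesR_one hJ0]

/-- a reduced pointed family of rank at most four has at most `3 n` edges -/
lemma l4_edges {p : ι → V} {X : Finset ι} (h0 : IsFace p X ∅) (hr : Red p X)
    (hrk : rk p X ≤ 4) : (facesR p X 2).card ≤ 3 * X.card := by
  rcases X.eq_empty_or_nonempty with rfl | hne
  · rw [facesR_gt (by rw [rk_empty]; omega)]
    simp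
  have hpos : 0 < X.card := hne.card_pos
  by_cases h4 : rk p X = 4
  · have he := euler h0 hne
    have ht : facesR p X 4 = {X} := by rw [← h4]; exact facesR_top
    rw [h4] at he
    simp only [sum_range_succ, sum_range_zero, facesR_zero h0, ht, card_singleton,
      hr.card_facesR_one h0] at he
    have hs := l4_sum_facets h0 hr h4
    have h3 : 3 * (facesR p X 3).card ≤ ∑ J ∈ facesR p X 3, J.card := by
      rw [mul_comm, ← smul_eq_mul]
      refine card_nsmul_le_sum _ _ _ fun J hJ => ?_
      obtain ⟨hJ1, hJ2⟩ := mem_facesR.1 hJ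
      have hJ0 : IsFace p J ∅ := (isFace_restrict hJ1).2 ⟨h0, empty_subset _⟩
      have := rk_le_card_rays hJ0
      rw [(hr.restrict hJ1).card_facesR_one hJ0] at this
      omega
    have he2 : (X.card : ℤ) + (facesR p X 3).card = 2 + (facesR p X 2).card := by
      norm_num at he
      linarith
    have he3 : X.card + (facesR p X 3).card = 2 + (facesR p X 2).card := by exact_mod_cast he2
    omega
  by_cases h3 : rk p X = 3
  · rw [card_rank_three h0 h3, hr.card_facesR_one h0]
    omega
  by_cases h2 : rk p X = 2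
  · have : facesR p X 2 = {X} := by
      have := facesR_top (p := p) (s := X)
      rwa [h2] at this
    rw [this, card_singleton]
    omega
  · rw [facesR_gt (by omega)]
    simp

/-- the facets of a family of rank at most four -/
lemma l4_facets {p : ι → V} {X : Finset ι} (h0 : IsFace p X ∅) (hr : Red p X)
    (hrk : rk p X ≤ 4) : ∑ J ∈ facesR p X 3, J.card ≤ 6 * X.card := by
  by_cases h4 : rk p X = 4
  · rw [l4_sum_facets h0 hr h4]
    have := l4_edges h0 hr hrk
    omega
  by_cases h3 : rk p X = 3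
  · have : facesR p X 3 = {X} := by
      have := facesR_top (p := p) (s := X)
      rwa [h3] at this
    rw [this, sum_singleton]
    omega
  · rw [facesR_gt (by omega)]
    simp

/-- at most two facets meet `X` in a given pair -/
lemma l4_fiber {p : ι → V} {s X : Finset ι} (h0 : IsFace p s ∅) (hr : Red p s)
    (hrk : rk p s = 4) {J : Finset ι} (hJ : rk p J = 2) (hJc : J.card = 2) :
    ((facesR p s 3).filter fun F => F ∩ X = J).card ≤ 2 := by
  by_contra hlt
  obtain ⟨F, hF, F', hF', hne⟩ := one_lt_card.1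
    (by omega : 1 < ((facesR p s 3).filter fun F => F ∩ X = J).card)
  obtain ⟨hF, hFJ⟩ := mem_filter.1 hF
  obtain ⟨hF', hFJ'⟩ := mem_filter.1 hF'
  obtain ⟨hF1, hF2⟩ := mem_facesR.1 hF
  obtain ⟨hF1', hF2'⟩ := mem_facesR.1 hF'
  have hin := hF1.inter hF1'
  have hsub : J ⊆ F ∩ F' := by
    refine subset_inter ?_ ?_
    · rw [← hFJ]; exact inter_subset_left
    · rw [← hFJ']; exact inter_subset_left
  have hlt2 : rk p (F ∩ F') < 3 := by
    by_contra h3
    have e1 : F ∩ F' = F := hin.eq_of_rk_le hF1.1 inter_subset_left (by omega)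
    have e2 : F ∩ F' = F' := hin.eq_of_rk_le hF1'.1 inter_subset_right (by omega)
    exact hne (by rw [← e1]; exact e2)
  have hge : 2 ≤ rk p (F ∩ F') := by
    rw [← hJ]; exact rk_mono hsub
  have hE : F ∩ F' ∈ facesR p s 2 := mem_facesR.2 ⟨hin, by omega⟩
  have hEc := hr.edge_card h0 hE
  have hJE : J = F ∩ F' := eq_of_subset_of_card_le hsub (by omega)
  have h2 := l4_card_two hrk hE
  have hle : ((facesR p s 3).filter fun G => G ∩ X = J).card
      ≤ ((facesR p s 3).filter fun T => F ∩ F' ⊆ T).card := by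
    refine card_le_card fun G hG => ?_
    obtain ⟨hG, hGJ⟩ := mem_filter.1 hG
    refine mem_filter.2 ⟨hG, ?_⟩
    rw [← hJE, ← hGJ]
    exact inter_subset_left
  omega

end

/-- INCIDENCES in 3-polytopes. -/
theorem l4 : S_L4 := by
  intro ι _ V _ _ p s X hs hX
  obtain ⟨h0, hr, hrk⟩ := hs
  have hX0 : IsFace p X ∅ := by
    have := h0.sub hX
    rwa [empty_inter] at this
  have hXr : Red p X := by
    intro i hi
    have := (hr i (hX hi)).sub hX
    rwa [singleton_inter_of_mem hi] at this
  have hXk : rk p X ≤ 4 := by rw [← hrk]; exact rk_mono hX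
  -- data of `F ∩ X`
  have key : ∀ F ∈ facesR p s 3, IsFace p X (F ∩ X) ∧ IsFace p (F ∩ X) ∅ ∧ Red p (F ∩ X) ∧
      rk p (F ∩ X) ≤ 3 := by
    intro F hF
    obtain ⟨hF1, hF2⟩ := mem_facesR.1 hF
    have h1 := hF1.sub hX
    refine ⟨h1, (isFace_restrict h1).2 ⟨hX0, empty_subset _⟩, hXr.restrict h1, ?_⟩
    rw [← hF2]
    exact rk_mono inter_subset_left
  have hsplit : (facesR p s 3).filter (fun F => 2 ≤ (F ∩ X).card) =
      (facesR p s 3).filter (fun F => 3 ≤ (F ∩ X).card) ∪
      (facesR p s 3).filter (fun F => (F ∩ X).card = 2) := by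
    ext F
    simp only [mem_filter, mem_union]
    constructor
    · rintro ⟨h1, h2⟩
      by_cases h3 : (F ∩ X).card = 2
      · exact Or.inr ⟨h1, h3⟩
      · exact Or.inl ⟨h1, by omega⟩
    · rintro (⟨h1, h2⟩ | ⟨h1, h2⟩)
      · exact ⟨h1, by omega⟩
      · exact ⟨h1, by omega⟩
  have hdisj : Disjoint ((facesR p s 3).filter (fun F => 3 ≤ (F ∩ X).card))
      ((facesR p s 3).filter (fun F => (F ∩ X).card = 2)) := by
    rw [disjoint_filter]
    intro F _ h1 h2
    omega
  rw [hsplit, sum_union hdisj]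
  -- (i)
  have hi : ∑ F ∈ (facesR p s 3).filter (fun F => 3 ≤ (F ∩ X).card), (F ∩ X).card
      ≤ 6 * X.card := by
    refine le_trans ?_ (l4_facets hX0 hXr hXk)
    have hinj : Set.InjOn (fun F => F ∩ X)
        (((facesR p s 3).filter (fun F => 3 ≤ (F ∩ X).card) : Finset (Finset ι)) :
          Set (Finset ι)) := by
      intro F hF F' hF' he
      obtain ⟨hF, hc⟩ := mem_filter.1 (mem_coe.1 hF)
      obtain ⟨hF', hc'⟩ := mem_filter.1 (mem_coe.1 hF')
      have he : F ∩ X = F' ∩ X := he
      obtain ⟨k1, k2, k3, k4⟩ := key F hF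
      have h3 := l4_three_le_rk k2 k3 hc
      obtain ⟨hF1, hF2⟩ := mem_facesR.1 hF
      obtain ⟨hF1', hF2'⟩ := mem_facesR.1 hF'
      have hin := hF1.inter hF1'
      have hsub : F ∩ X ⊆ F ∩ F' := by
        refine subset_inter inter_subset_left ?_
        rw [he]
        exact inter_subset_left
      have h5 : 3 ≤ rk p (F ∩ F') := h3.trans (rk_mono hsub)
      have e1 : F ∩ F' = F := hin.eq_of_rk_le hF1.1 inter_subset_left (by omega)
      have e2 : F ∩ F' = F' := hin.eq_of_rk_le hF1'.1 inter_subset_right (by omega)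
      rw [← e1]
      exact e2
    have e : ∑ F ∈ (facesR p s 3).filter (fun F => 3 ≤ (F ∩ X).card), (F ∩ X).card
        = ∑ J ∈ ((facesR p s 3).filter (fun F => 3 ≤ (F ∩ X).card)).image (fun F => F ∩ X),
          J.card := (sum_image hinj).symm
    rw [e]
    refine sum_le_sum_of_subset fun J hJ => ?_
    obtain ⟨F, hF, rfl⟩ := mem_image.1 hJ
    obtain ⟨hF, hc⟩ := mem_filter.1 hF
    obtain ⟨k1, k2, k3, k4⟩ := key F hF
    have h3 := l4_three_le_rk k2 k3 hc
    exact mem_facesR.2 ⟨k1, by omega⟩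
  -- (ii)
  have hii : ∑ F ∈ (facesR p s 3).filter (fun F => (F ∩ X).card = 2), (F ∩ X).card
      ≤ 12 * X.card := by
    have e : ∑ F ∈ (facesR p s 3).filter (fun F => (F ∩ X).card = 2), (F ∩ X).card
        = 2 * ((facesR p s 3).filter (fun F => (F ∩ X).card = 2)).card := by
      rw [sum_congr rfl (fun F hF => (mem_filter.1 hF).2), sum_const, smul_eq_mul, mul_comm]
    rw [e]
    have hmaps : ∀ F ∈ (facesR p s 3).filter (fun F => (F ∩ X).card = 2),
        F ∩ X ∈ (facesR p X 2).filter (fun J => J.card = 2) := by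
      intro F hF
      obtain ⟨hF, hc⟩ := mem_filter.1 hF
      obtain ⟨k1, k2, k3, k4⟩ := key F hF
      have h2 := l4_two_le_rk k2 k3 (by omega)
      have h3 := rk_le_card_rays k2
      rw [k3.card_facesR_one k2] at h3
      exact mem_filter.2 ⟨mem_facesR.2 ⟨k1, by omega⟩, hc⟩
    have hcard := card_le_mul_card_image_of_maps_to hmaps 2 (by
      intro J hJ
      obtain ⟨hJ, hJc⟩ := mem_filter.1 hJ
      refine le_trans (card_le_card ?_) (l4_fiber (X := X) h0 hr hrk (mem_facesR.1 hJ).2 hJc)
      intro F hF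
      obtain ⟨hF, hFJ⟩ := mem_filter.1 hF
      exact mem_filter.2 ⟨(mem_filter.1 hF).1, hFJ⟩)
    have h5 : ((facesR p X 2).filter (fun J => J.card = 2)).card ≤ (facesR p X 2).card :=
      card_le_card (filter_subset _ _)
    have h6 := l4_edges hX0 hXr hXk
    omega
  omega

/-- INCIDENCES at a vertex of a 4-polytope. -/
theorem l5 (hVF : S_VF) : S_L5 := by
  intro ι _ V _ _ p s Y x hs hx hY
  obtain ⟨h1, h2, -, h4, -, -⟩ := hVF ι V p s 4 x hs hx
  have hL := l4 ι _ (qf p {x}) (nb p s x) Y h1 hY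
  refine le_trans ?_ hL
  have hWY : ∀ W : Finset ι, (W ∩ nb p s x) ∩ Y = W ∩ Y := by
    intro W
    rw [inter_assoc, inter_eq_right.2 hY]
  have hinj : Set.InjOn (fun W => W ∩ nb p s x)
      (((facesR p s 4).filter (fun W => x ∈ W ∧ 2 ≤ (W ∩ Y).card) : Finset (Finset ι)) :
        Set (Finset ι)) := by
    intro W hW W' hW' he
    obtain ⟨hW, hxW, -⟩ := mem_filter.1 (mem_coe.1 hW)
    obtain ⟨hW', hxW', -⟩ := mem_filter.1 (mem_coe.1 hW')
    have he : W ∩ nb p s x = W' ∩ nb p s x := he
    have f1 := (mem_facesR.1 hW).1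
    have f2 := (mem_facesR.1 hW').1
    refine Subset.antisymm (h4 W W' f1 hxW f2 hxW' ?_) (h4 W' W f2 hxW' f1 hxW ?_)
    · rw [he]; exact inter_subset_left
    · rw [← he]; exact inter_subset_left
  have e : ∑ W ∈ (facesR p s 4).filter (fun W => x ∈ W ∧ 2 ≤ (W ∩ Y).card), (W ∩ Y).card
      = ∑ J ∈ ((facesR p s 4).filter (fun W => x ∈ W ∧ 2 ≤ (W ∩ Y).card)).image
          (fun W => W ∩ nb p s x), (J ∩ Y).card := by
    rw [sum_image hinj]
    exact sum_congr rfl fun W _ => by rw [hWY]
  rw [e]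
  refine sum_le_sum_of_subset fun J hJ => ?_
  obtain ⟨W, hW, rfl⟩ := mem_image.1 hJ
  obtain ⟨hW, hxW, hc⟩ := mem_filter.1 hW
  obtain ⟨f1, f2⟩ := mem_facesR.1 hW
  obtain ⟨g1, g2⟩ := h2 W f1 hxW
  refine mem_filter.2 ⟨mem_facesR.2 ⟨g1, by omega⟩, ?_⟩
  rw [hWY]
  exact hc

end Pool.Agent.Kal5
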