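import Pool.Agent.Kal5.Stmts

/-!
Leaves of the graph of a side of a face; branching vertices (modules `K5_LEAF`).
-/

set_option autoImplicit false
set_option linter.unusedSectionVars false

namespace Pool.Agent.Kal5

open Finset Submodule Pool.Agent.Lib_helper40.Kal

section

variable {ι : Type} [DecidableEq ι] {V : Type} [AddCommGroup V] [Module ℝ V]

lemma mem_un_iff {p : ι → V} {s : Finset ι} {h : V →ₗ[ℝ] ℝ} {x y : ι} :
    y ∈ un p s h x ↔ Adj p s x y ∧ SS p h x y := by
  classical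
  unfold un
  rw [mem_filter, mem_nb]

/-- one side of the hyperplane: a connected graph on `a` vertices has at least `a - 1` edges -/
lemma side_sum (hC : S_CON) {p : ι → V} {s : Finset ι} {h : V →ₗ[ℝ] ℝ} {n : ℕ}
    (hc : Cut p s h n) {W : Finset ι} (hW : IsFace p s W) (A : Finset ι) (hA : ∀ i ∈ A, i ∈ W)
    (hA1 : ∀ i ∈ A, ∀ j ∈ A, SS p h i j) (hA2 : ∀ i ∈ A, ∀ j ∈ W, SS p h i j → j ∈ A) :
    2 * A.card ≤ (∑ x ∈ A, dg p s h W x) + 2 := by
  classical
  rcases A.eq_empty_or_nonempty with rfl | ⟨x0, hx0⟩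
  · simp
  let G : SimpleGraph A :=
    { Adj := fun i j => Adj p s i.1 j.1
      symm := ⟨fun i j h => Adj.symm h⟩
      loopless := ⟨fun i h => h.1 rfl⟩ }
  have hG : ∀ i j : A, G.Adj i j ↔ Adj p s i.1 j.1 := fun i j => Iff.rfl
  have hconn : G.Connected := by
    have : Nonempty A := ⟨⟨x0, hx0⟩⟩
    refine ⟨fun x w => ?_⟩
    set Z : Finset ι := (univ.filter fun y : A => G.Reachable x y).image Subtype.val with hZ
    have hmem : ∀ y : ι, y ∈ Z ↔ ∃ hy : y ∈ A, G.Reachable x ⟨y, hy⟩ := by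
      intro y
      simp only [hZ, mem_image, mem_filter, mem_univ, true_and]
      constructor
      · rintro ⟨z, hz, rfl⟩
        exact ⟨z.2, hz⟩
      · rintro ⟨hy, hz⟩
        exact ⟨⟨y, hy⟩, hz, rfl⟩
    have key := hC ι V p s h n hc W hW Z x.1 ((hmem _).2 ⟨x.2, SimpleGraph.Reachable.refl _⟩)
      (fun i hi => by
        obtain ⟨hiA, -⟩ := (hmem i).1 hi
        exact ⟨hA i hiA, hA1 _ x.2 _ hiA⟩)
      (fun i hi k hk hik hss => by
        obtain ⟨hiA, hr⟩ := (hmem i).1 hi
        have hkA := hA2 i hiA k hk hss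
        refine (hmem k).2 ⟨hkA, hr.trans ?_⟩
        exact SimpleGraph.Adj.reachable ((hG ⟨i, hiA⟩ ⟨k, hkA⟩).2 hik))
      w.1 (hA _ w.2) (hA1 _ x.2 _ w.2)
    obtain ⟨_, hr⟩ := (hmem _).1 key
    exact hr
  have h1 := hconn.card_vert_le_card_edgeSet_add_one
  have h2 := G.sum_degrees_eq_twice_card_edges
  have hdeg : ∀ v : A, G.degree v = dg p s h W v.1 := by
    intro v
    unfold dg
    rw [← SimpleGraph.card_neighborFinset_eq_degree]
    refine Finset.card_bij (fun y _ => y.1) ?_ ?_ ?_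
    · intro y hy
      rw [SimpleGraph.mem_neighborFinset, hG] at hy
      rw [mem_inter, mem_un_iff]
      exact ⟨⟨hy, hA1 _ v.2 _ y.2⟩, hA _ y.2⟩
    · intro y _ z _ hyz
      exact Subtype.ext hyz
    · intro y hy
      rw [mem_inter, mem_un_iff] at hy
      refine ⟨⟨y, hA2 _ v.2 y hy.2 hy.1.2⟩, ?_, rfl⟩
      rw [SimpleGraph.mem_neighborFinset, hG]
      exact hy.1.1
  have h3 : ∑ x ∈ A, dg p s h W x = ∑ v : A, G.degree v := by
    rw [← Finset.sum_coe_sort A]
    exact Finset.sum_congr rfl fun v _ => (hdeg v).symm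
  rw [h3, h2]
  have h4 : Nat.card A = A.card := by simp
  have h5 : Nat.card G.edgeSet = G.edgeFinset.card := by
    rw [Nat.card_eq_fintype_card, SimpleGraph.edgeFinset_card]
  omega

lemma side_leaf (hC : S_CON) {p : ι → V} {s : Finset ι} {h : V →ₗ[ℝ] ℝ} {n : ℕ}
    (hc : Cut p s h n) {W : Finset ι} (hW : IsFace p s W) (A : Finset ι) (hA : ∀ i ∈ A, i ∈ W)
    (hA1 : ∀ i ∈ A, ∀ j ∈ A, SS p h i j) (hA2 : ∀ i ∈ A, ∀ j ∈ W, SS p h i j → j ∈ A) :
    (A.filter fun x => dg p s h W x = 1).card ≤ 2 + ∑ x ∈ A, (dg p s h W x - 2) := by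
  have h1 := side_sum hC hc hW A hA hA1 hA2
  have h2 : (A.filter fun x => dg p s h W x = 1).card + ∑ x ∈ A, dg p s h W x ≤
      2 * A.card + ∑ x ∈ A, (dg p s h W x - 2) := by
    rw [card_filter, card_eq_sum_ones, mul_sum, ← sum_add_distrib, ← sum_add_distrib]
    refine sum_le_sum fun x _ => ?_
    split_ifs <;> omega
  omega

end

theorem leaf (hC : S_CON) : S_LEAF := by
  intro ι _ V _ _ p s h n hc W hW
  classical
  have h1 := side_leaf hC hc hW (W.filter fun i => 0 < h (p i)) (fun i hi => (mem_filter.1 hi).1)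
    (fun i hi j hj => ⟨fun _ => (mem_filter.1 hj).2, fun _ => (mem_filter.1 hi).2⟩)
    (fun i hi j hj hij => mem_filter.2 ⟨hj, hij.1 (mem_filter.1 hi).2⟩)
  have h2 := side_leaf hC hc hW (W.filter fun i => ¬ 0 < h (p i)) (fun i hi => (mem_filter.1 hi).1)
    (fun i hi j hj => ⟨fun h3 => absurd h3 (mem_filter.1 hi).2,
      fun h3 => absurd h3 (mem_filter.1 hj).2⟩)
    (fun i hi j hj hij => mem_filter.2 ⟨hj, fun h3 => (mem_filter.1 hi).2 (hij.2 h3)⟩)
  have h3 : (W.filter fun x => dg p s h W x = 1).card =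
      ((W.filter fun i => 0 < h (p i)).filter fun x => dg p s h W x = 1).card +
      ((W.filter fun i => ¬ 0 < h (p i)).filter fun x => dg p s h W x = 1).card := by
    simp only [card_filter]
    exact (sum_filter_add_sum_filter_not W (fun i => 0 < h (p i)) _).symm
  have h4 := sum_filter_add_sum_filter_not W (fun i => 0 < h (p i))
    (fun x => dg p s h W x - 2)
  rw [h3, ← h4]
  omega

theorem br (hL : S_L5) (hDEL : S_DEL) : S_BR := by
  intro ι _ V _ _ p s h hc
  classical
  have hsub : ∀ W ∈ facesR p s 4, W ⊆ s := fun W hW => (mem_facesR.1 hW).1.1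
  have h1 : ∑ W ∈ facesR p s 4, ∑ x ∈ W, (dg p s h W x - 2) =
      ∑ x ∈ s, ∑ W ∈ (facesR p s 4).filter (fun W => x ∈ W), (dg p s h W x - 2) := by
    have e1 : ∀ W ∈ facesR p s 4, ∑ x ∈ W, (dg p s h W x - 2) =
        ∑ x ∈ s, if x ∈ W then dg p s h W x - 2 else 0 := by
      intro W hW
      rw [← sum_filter]
      refine sum_congr ?_ fun _ _ => rfl
      ext x
      rw [mem_filter]
      exact ⟨fun hx => ⟨hsub W hW hx, hx⟩, fun hx => hx.2⟩
    rw [sum_congr rfl e1, sum_comm]
    refine sum_congr rfl fun x _ => ?_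
    rw [sum_filter]
  have h2 : ∀ x ∈ s, ∑ W ∈ (facesR p s 4).filter (fun W => x ∈ W), (dg p s h W x - 2) ≤
      18 * (un p s h x).card := by
    intro x hx
    refine le_trans ?_ (hL ι V p s (un p s h x) x hc.toPR hx (filter_subset _ _))
    rw [sum_filter, sum_filter]
    refine sum_le_sum fun W _ => ?_
    have e : (W ∩ un p s h x).card = dg p s h W x := by
      unfold dg; rw [inter_comm]
    by_cases h3 : x ∈ W
    · by_cases h4 : 2 ≤ dg p s h W x
      · rw [if_pos h3, if_pos ⟨h3, by rw [e]; exact h4⟩, e]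
        omega
      · rw [if_pos h3]
        have : dg p s h W x - 2 = 0 := by omega
        rw [this]
        exact Nat.zero_le _
    · rw [if_neg h3]
      exact Nat.zero_le _
  have h3 : ∀ x ∈ s, Good p s h x →
      ∑ W ∈ (facesR p s 4).filter (fun W => x ∈ W), (dg p s h W x - 2) = 0 := by
    intro x _ hg
    refine sum_eq_zero fun W _ => ?_
    have e : dg p s h W x ≤ (un p s h x).card := card_le_card inter_subset_left
    rw [hg.1] at e
    omega
  rw [h1, ← sum_filter_add_sum_filter_not s (fun x => Good p s h x)]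
  rw [sum_eq_zero (s := s.filter fun x => Good p s h x) fun x hx =>
    h3 x (mem_filter.1 hx).1 (mem_filter.1 hx).2, zero_add]
  calc ∑ x ∈ s.filter (fun x => ¬ Good p s h x),
        ∑ W ∈ (facesR p s 4).filter (fun W => x ∈ W), (dg p s h W x - 2)
      ≤ ∑ x ∈ s.filter (fun x => ¬ Good p s h x), 18 * (un p s h x).card :=
        sum_le_sum fun x hx => h2 x (mem_filter.1 hx).1
    _ = 18 * ∑ x ∈ s.filter (fun x => ¬ Good p s h x), (un p s h x).card := by rw [mul_sum]
    _ ≤ 18 * (22 * UU p s h) := by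
        refine Nat.mul_le_mul_left _ ?_
        have := hDEL ι V p s h hc
        convert this
    _ = 396 * UU p s h := by ring

end Pool.Agent.Kal5
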