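import Pool.Agent.Kal5.Stmts

/-!
Module K5_MAIN (helper27): sum over the vertices of a 5-polytope.
-/

set_option autoImplicit false
set_option linter.unusedSectionVars false

namespace Pool.Agent.Kal5

open Finset Submodule Pool.Agent.Lib_helper40.Kal

namespace MainAux

/-- `v` is the lowest or the highest element of `F`. -/
def Ex {ι : Type} (ht : ι → ℝ) (v : ι) (F : Finset ι) : Prop :=
  (∀ i ∈ F, i ≠ v → ht v < ht i) ∨ (∀ i ∈ F, i ≠ v → ht i < ht v)

section
variable {ι : Type} [DecidableEq ι]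

open scoped Classical in
lemma card_ex {ht : ι → ℝ} {F : Finset ι} (hinj : ∀ i ∈ F, ∀ j ∈ F, ht i = ht j → i = j)
    (h2 : 2 ≤ F.card) : (F.filter (fun v => Ex ht v F)).card = 2 := by
  have hne : F.Nonempty := card_pos.1 (by omega)
  obtain ⟨a, ha, hamin⟩ := exists_min_image F ht hne
  obtain ⟨b, hb, hbmax⟩ := exists_max_image F ht hne
  have hab : a ≠ b := by
    rintro rfl
    have : F ⊆ {a} := fun i hi => by
      rw [mem_singleton]
      exact hinj i hi a ha (le_antisymm (hbmax i hi) (hamin i hi))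
    have := card_le_card this
    rw [card_singleton] at this
    omega
  have : F.filter (fun v => Ex ht v F) = {a, b} := by
    ext v
    rw [mem_filter, mem_insert, mem_singleton]
    constructor
    · rintro ⟨hv, h | h⟩
      · left
        by_contra hva
        exact absurd (h a ha (Ne.symm hva)) (not_lt.2 (hamin v hv))
      · right
        by_contra hvb
        exact absurd (h b hb (Ne.symm hvb)) (not_lt.2 (hbmax v hv))
    · rintro (rfl | rfl)
      · exact ⟨ha, Or.inl fun i hi hia => lt_of_le_of_ne (hamin i hi) fun he =>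
          hia (hinj i hi _ ha he.symm)⟩
      · exact ⟨hb, Or.inr fun i hi hib => lt_of_le_of_ne (hbmax i hi) fun he =>
          hib (hinj i hi _ hb he)⟩
  rw [this, card_pair hab]

open scoped Classical in
lemma sum_ex {ht : ι → ℝ} {s : Finset ι} {A : Finset (Finset ι)} (w : Finset ι → ℕ)
    (hA : ∀ F ∈ A, F ⊆ s ∧ 2 ≤ F.card) (hinj : ∀ i ∈ s, ∀ j ∈ s, ht i = ht j → i = j) :
    ∑ v ∈ s, ∑ F ∈ A, (if v ∈ F ∧ Ex ht v F then w F else 0) = 2 * ∑ F ∈ A, w F := by
  rw [sum_comm, mul_sum]
  refine sum_congr rfl fun F hF => ?_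
  obtain ⟨h1, h2⟩ := hA F hF
  rw [← sum_filter, sum_const, smul_eq_mul]
  congr 1
  rw [← card_ex (ht := ht) (F := F) (fun i hi j hj => hinj i (h1 hi) j (h1 hj)) h2]
  congr 1
  ext v
  simp only [mem_filter]
  exact ⟨fun h => h.2, fun h => ⟨h1 h.1, h⟩⟩

open scoped Classical in
lemma sum_nex {ht : ι → ℝ} {s : Finset ι} {A : Finset (Finset ι)} (w : Finset ι → ℕ)
    (hA : ∀ F ∈ A, F ⊆ s ∧ 3 ≤ F.card) (hinj : ∀ i ∈ s, ∀ j ∈ s, ht i = ht j → i = j) :
    ∑ F ∈ A, w F ≤ ∑ v ∈ s, ∑ F ∈ A, (if v ∈ F ∧ ¬ Ex ht v F then w F else 0) := by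
  rw [sum_comm]
  refine sum_le_sum fun F hF => ?_
  obtain ⟨h1, h2⟩ := hA F hF
  rw [← sum_filter, sum_const, smul_eq_mul]
  have h3 := card_ex (ht := ht) (F := F) (fun i hi j hj => hinj i (h1 hi) j (h1 hj)) (by omega)
  have h4 := card_filter_add_card_filter_not (s := F) (fun v => Ex ht v F)
  have h5 : s.filter (fun v => v ∈ F ∧ ¬ Ex ht v F) = F.filter (fun v => ¬ Ex ht v F) := by
    ext v
    simp only [mem_filter]
    exact ⟨fun h => h.2, fun h => ⟨h1 h.1, h⟩⟩
  rw [h5]
  have h6 : 1 ≤ (F.filter (fun v => ¬ Ex ht v F)).card := by omega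
  exact Nat.le_mul_of_pos_left _ h6

end

section
variable {ι : Type} [DecidableEq ι] {V : Type} [AddCommGroup V] [Module ℝ V]

lemma rk_le_card (p : ι → V) (F : Finset ι) : rk p F ≤ F.card := by
  classical
  unfold rk
  have h1 : p '' (F : Set ι) = ((F.image p : Finset V) : Set V) := by rw [coe_image]
  rw [h1]
  exact (finrank_span_finset_le_card (R := ℝ) (F.image p)).trans card_image_le

open scoped Classical in
/-- sums over the faces of the vertex figure -/
lemma sum_vf {W : Type} [AddCommGroup W] [Module ℝ W] {p : ι → V} {q : ι → W} {s N : Finset ι}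
    {v : ι}
    (hB : ∀ F, IsFace p s F → v ∈ F → IsFace q N (F ∩ N) ∧ rk q (F ∩ N) + 1 = rk p F)
    (hC : ∀ J, IsFace q N J → ∃ F, IsFace p s F ∧ v ∈ F ∧ F ∩ N = J)
    (hD : ∀ F F', IsFace p s F → v ∈ F → IsFace p s F' → v ∈ F' → F ∩ N ⊆ F' → F ⊆ F')
    (r : ℕ) (φ : Finset ι → ℕ) :
    ∑ J ∈ facesR q N r, φ J = ∑ F ∈ facesR p s (r + 1), if v ∈ F then φ (F ∩ N) else 0 := by
  rw [← sum_filter]
  symm
  refine sum_bij (fun F _ => F ∩ N) ?_ ?_ ?_ ?_
  · intro F hF
    rw [mem_filter, mem_facesR] at hF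
    obtain ⟨h1, h2⟩ := hB F hF.1.1 hF.2
    rw [mem_facesR]
    exact ⟨h1, by omega⟩
  · intro F hF F' hF' he
    rw [mem_filter, mem_facesR] at hF hF'
    apply Subset.antisymm
    · exact hD F F' hF.1.1 hF.2 hF'.1.1 hF'.2 (he ▸ inter_subset_left)
    · exact hD F' F hF'.1.1 hF'.2 hF.1.1 hF.2 (he.symm ▸ inter_subset_left)
  · intro J hJ
    rw [mem_facesR] at hJ
    obtain ⟨F, hF, hv, rfl⟩ := hC J hJ.1
    refine ⟨F, ?_, rfl⟩
    rw [mem_filter, mem_facesR]
    refine ⟨⟨hF, ?_⟩, hv⟩
    have := (hB F hF hv).2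
    omega
  · intro F hF
    rfl

end

end MainAux

open MainAux

theorem main (hVF : S_VF) (hCE : S_CE) (hUN : S_UN) : S_MAIN := by
  classical
  intro ι _ V _ _ p s hP
  obtain ⟨h0, hr, hrk⟩ := hP
  obtain ⟨_, lam, _, lpos⟩ := id h0
  have lpos : ∀ i ∈ s, 0 < lam (p i) := fun i hi => lpos i hi (by simp)
  obtain ⟨psi, hpsi⟩ := exists_generic p s lam
  set ht : ι → ℝ := fun i => psi (p i) / lam (p i) with hht
  -- genericity
  have hgen : ∀ i ∈ s, ∀ j ∈ s, i ≠ j → lam (p i) * psi (p j) - psi (p i) * lam (p j) ≠ 0 := by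
    intro i hi j hj hij
    have hv : lam (p i) • p j - lam (p j) • p i ≠ 0 := by
      intro he
      apply hij
      have h1 : p j = (lam (p j) / lam (p i)) • p i := by
        rw [sub_eq_zero] at he
        rw [div_eq_inv_mul, mul_smul, ← he, smul_smul, inv_mul_cancel₀ (lpos i hi).ne', one_smul]
      have h2 : j ∈ ({i} : Finset ι) := by
        refine (hr i hi).mem_of_span hj ?_
        rw [h1]
        exact smul_mem _ _ (subset_span (Set.mem_image_of_mem p (by simp)))
      rw [mem_singleton] at h2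
      exact h2.symm
    have := hpsi i hi j hj hv
    rw [map_sub, map_smul, map_smul, smul_eq_mul, smul_eq_mul] at this
    intro h3
    apply this
    linarith
  have hinj : ∀ i ∈ s, ∀ j ∈ s, ht i = ht j → i = j := by
    intro i hi j hj he
    by_contra hij
    apply hgen i hi j hj hij
    simp only [hht] at he
    rw [div_eq_div_iff (lpos i hi).ne' (lpos j hj).ne'] at he
    linarith
  -- sizes of faces
  have hsize : ∀ r, ∀ F ∈ facesR p s r, F ⊆ s ∧ r ≤ F.card := by
    intro r F hF
    rw [mem_facesR] at hF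
    exact ⟨hF.1.1, hF.2 ▸ rk_le_card p F⟩
  -- the data at a vertex
  have key : ∀ v ∈ s,
      (∑ F ∈ facesR p s 3, (if v ∈ F ∧ ¬ Ex ht v F then
          (if 73 ≤ up p s 5 F then up p s 5 F else 0) else 0) ≤
        398 * ∑ F ∈ facesR p s 4, (if v ∈ F ∧ Ex ht v F then 1 else 0)) ∧
      (∑ F ∈ facesR p s 3, (if v ∈ F ∧ Ex ht v F then 1 else 0) ≤
        1160 * ∑ F ∈ facesR p s 3, (if v ∈ F ∧ Ex ht v F then
          (if 73 ≤ up p s 5 F then up p s 5 F else 0) else 0) +
        35574851 * ∑ F ∈ facesR p s 4, (if v ∈ F ∧ Ex ht v F then 1 else 0)) := by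
    intro v hv
    obtain ⟨hA, hB, hC, hD, hE, hG⟩ := hVF ι V p s 5 v ⟨h0, hr, hrk⟩ hv
    set h : V →ₗ[ℝ] ℝ := lam (p v) • psi - psi (p v) • lam with hh
    have hval : ∀ x, h x = lam (p v) * psi x - psi (p v) * lam x := by
      intro x; simp [hh]
    have hv0 : h (p v) = 0 := by rw [hval]; ring
    have hhne : ∀ i ∈ s, i ≠ v → h (p i) ≠ 0 := by
      intro i hi hiv
      rw [hval]
      exact hgen v hv i hi (Ne.symm hiv)
    have hpos : ∀ i ∈ s, (0 < h (p i) ↔ ht v < ht i) := by
      intro i hi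
      rw [hval]
      simp only [hht]
      rw [div_lt_div_iff₀ (lpos v hv) (lpos i hi)]
      constructor <;> intro h <;> linarith
    have hneg : ∀ i ∈ s, (h (p i) < 0 ↔ ht i < ht v) := by
      intro i hi
      rw [hval]
      simp only [hht]
      rw [div_lt_div_iff₀ (lpos i hi) (lpos v hv)]
      constructor <;> intro h <;> linarith
    obtain ⟨hb, hbv⟩ := hE h hv0
    set q := qf p {v} with hq
    set N := nb p s v with hN
    have hNs : ∀ i ∈ N, i ∈ s ∧ i ≠ v := by
      intro i hi
      rw [hN, mem_nb] at hi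
      exact ⟨hi.right, hi.1.symm⟩
    have hcut : Cut q N hb 5 := ⟨hA, fun i hi => by
      rw [hbv]
      exact hhne i (hNs i hi).1 (hNs i hi).2⟩
    -- uncut faces
    have hunc : ∀ F, IsFace p s F → v ∈ F → (Unc q hb (F ∩ N) ↔ Ex ht v F) := by
      intro F hF hvF
      constructor
      · intro hU
        by_cases hc : ∀ i ∈ F ∩ N, 0 < h (p i)
        · left
          intro i hi hiv
          rw [← hpos i (hF.1 hi)]
          exact hG h hv0 F hF hvF hc i hi hiv
        · right
          push Not at hc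
          obtain ⟨j, hj, hj0⟩ := hc
          have hall : ∀ i ∈ F ∩ N, 0 < (-h) (p i) := by
            intro i hi
            have h1 := hU i hi j hj
            unfold SS at h1
            rw [hbv, hbv] at h1
            have h2 : ¬ 0 < h (p i) := fun h3 => absurd (h1.1 h3) (not_lt.2 hj0)
            have h3 := hhne i (hNs i (mem_inter.1 hi).2).1 (hNs i (mem_inter.1 hi).2).2
            rw [LinearMap.neg_apply]
            have : h (p i) < 0 := lt_of_le_of_ne (not_lt.1 h2) h3
            linarith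
          intro i hi hiv
          rw [← hneg i (hF.1 hi)]
          have := hG (-h) (by rw [LinearMap.neg_apply, hv0, neg_zero]) F hF hvF hall i hi hiv
          rw [LinearMap.neg_apply] at this
          linarith
      · rintro (hU | hU)
        · intro i hi j hj
          unfold SS
          rw [hbv, hbv]
          have hi' := hNs i (mem_inter.1 hi).2
          have hj' := hNs j (mem_inter.1 hj).2
          have h1 := (hpos i hi'.1).2 (hU i (mem_inter.1 hi).1 hi'.2)
          have h2 := (hpos j hj'.1).2 (hU j (mem_inter.1 hj).1 hj'.2)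
          exact ⟨fun _ => h2, fun _ => h1⟩
        · intro i hi j hj
          unfold SS
          rw [hbv, hbv]
          have hi' := hNs i (mem_inter.1 hi).2
          have hj' := hNs j (mem_inter.1 hj).2
          have h1 := (hneg i hi'.1).2 (hU i (mem_inter.1 hi).1 hi'.2)
          have h2 := (hneg j hj'.1).2 (hU j (mem_inter.1 hj).1 hj'.2)
          exact ⟨fun h3 => absurd h3 (not_lt.2 h1.le), fun h3 => absurd h3 (not_lt.2 h2.le)⟩
    -- degrees
    have hup : ∀ F, IsFace p s F → v ∈ F → up q N 4 (F ∩ N) = up p s 5 F := by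
      intro F hF hvF
      unfold up
      rw [card_filter, card_filter, sum_vf hB hC hD 4]
      refine sum_congr rfl fun K hK => ?_
      rw [mem_facesR] at hK
      by_cases hvK : v ∈ K
      · rw [if_pos hvK]
        by_cases hFK : F ⊆ K
        · rw [if_pos hFK, if_pos (inter_subset_inter hFK (Subset.refl _))]
        · rw [if_neg hFK, if_neg]
          intro h3
          exact hFK (hD F K hF hvF hK.1 hvK (h3.trans inter_subset_left))
      · rw [if_neg hvK, if_neg]
        exact fun h3 => hvK (h3 hvF)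
    -- the four sums
    have s1 : UU q N hb = ∑ F ∈ facesR p s 4, (if v ∈ F ∧ Ex ht v F then 1 else 0) := by
      unfold UU uf
      rw [card_filter, sum_vf hB hC hD 3]
      refine sum_congr rfl fun F hF => ?_
      rw [mem_facesR] at hF
      by_cases hvF : v ∈ F
      · simp only [hvF, if_true, true_and, hunc F hF.1 hvF]
      · simp only [hvF, if_false, false_and]
    have s2 : (uf q N hb 2).card = ∑ F ∈ facesR p s 3, (if v ∈ F ∧ Ex ht v F then 1 else 0) := by
      unfold uf
      rw [card_filter, sum_vf hB hC hD 2]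
      refine sum_congr rfl fun F hF => ?_
      rw [mem_facesR] at hF
      by_cases hvF : v ∈ F
      · simp only [hvF, if_true, true_and, hunc F hF.1 hvF]
      · simp only [hvF, if_false, false_and]
    have s3 : RR q N hb = ∑ F ∈ facesR p s 3, (if v ∈ F ∧ Ex ht v F then
          (if 73 ≤ up p s 5 F then up p s 5 F else 0) else 0) := by
      unfold RR uf
      rw [sum_filter, sum_filter, sum_vf hB hC hD 2]
      refine sum_congr rfl fun F hF => ?_
      rw [mem_facesR] at hF
      by_cases hvF : v ∈ F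
      · simp only [hvF, if_true, true_and, hunc F hF.1 hvF, hup F hF.1 hvF]
      · simp only [hvF, if_false, false_and]
    have s4 : ∑ g ∈ (cf q N hb 2).filter (fun g => 73 ≤ up q N 4 g), up q N 4 g =
        ∑ F ∈ facesR p s 3, (if v ∈ F ∧ ¬ Ex ht v F then
          (if 73 ≤ up p s 5 F then up p s 5 F else 0) else 0) := by
      unfold cf
      rw [sum_filter, sum_filter, sum_vf hB hC hD 2]
      refine sum_congr rfl fun F hF => ?_
      rw [mem_facesR] at hF
      by_cases hvF : v ∈ F
      · simp only [hvF, if_true, true_and, hunc F hF.1 hvF, hup F hF.1 hvF]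
      · simp only [hvF, if_false, false_and]
    refine ⟨?_, ?_⟩
    · rw [← s4, ← s1]
      exact hCE ι _ q N hb hcut
    · rw [← s2, ← s3, ← s1]
      exact hUN ι _ q N hb hcut
  -- sum over the vertices
  set f3 := (facesR p s 4).card with hf3
  set f2 := (facesR p s 3).card with hf2
  set R := ∑ F ∈ facesR p s 3, (if 73 ≤ up p s 5 F then up p s 5 F else 0) with hR
  have t1 : ∑ v ∈ s, ∑ F ∈ facesR p s 4, (if v ∈ F ∧ Ex ht v F then 1 else 0) = 2 * f3 := by
    rw [sum_ex (fun _ => 1) (fun F hF => ⟨(hsize 4 F hF).1, by have := (hsize 4 F hF).2; omega⟩)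
      hinj, hf3, card_eq_sum_ones]
  have t2 : ∑ v ∈ s, ∑ F ∈ facesR p s 3, (if v ∈ F ∧ Ex ht v F then 1 else 0) = 2 * f2 := by
    rw [sum_ex (fun _ => 1) (fun F hF => ⟨(hsize 3 F hF).1, by have := (hsize 3 F hF).2; omega⟩)
      hinj, hf2, card_eq_sum_ones]
  have t3 : ∑ v ∈ s, ∑ F ∈ facesR p s 3, (if v ∈ F ∧ Ex ht v F then
      (if 73 ≤ up p s 5 F then up p s 5 F else 0) else 0) = 2 * R := by
    rw [sum_ex (fun F => if 73 ≤ up p s 5 F then up p s 5 F else 0)
      (fun F hF => ⟨(hsize 3 F hF).1, by have := (hsize 3 F hF).2; omega⟩) hinj]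
  have t4 : R ≤ ∑ v ∈ s, ∑ F ∈ facesR p s 3, (if v ∈ F ∧ ¬ Ex ht v F then
      (if 73 ≤ up p s 5 F then up p s 5 F else 0) else 0) :=
    sum_nex (fun F => if 73 ≤ up p s 5 F then up p s 5 F else 0)
      (fun F hF => hsize 3 F hF) hinj
  have u1 : R ≤ 796 * f3 := by
    refine t4.trans ((sum_le_sum fun v hv => (key v hv).1).trans ?_)
    rw [← mul_sum, t1]
    omega
  have u2 : 2 * f2 ≤ 1160 * (2 * R) + 35574851 * (2 * f3) := by
    rw [← t2, ← t3, ← t1, mul_sum, mul_sum, ← sum_add_distrib]
    exact sum_le_sum fun v hv => (key v hv).2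
  -- the total
  have u3 : ∑ K ∈ facesR p s 4, (facesR p K 3).card = ∑ F ∈ facesR p s 3, up p s 4 F := by
    have h1 : ∀ K ∈ facesR p s 4, (facesR p K 3).card =
        ∑ F ∈ facesR p s 3, (if F ⊆ K then 1 else 0) := by
      intro K hK
      rw [mem_facesR] at hK
      rw [← card_filter]
      congr 1
      ext F
      rw [mem_filter, mem_facesR, mem_facesR, isFace_restrict hK.1]
      tauto
    rw [sum_congr rfl h1, sum_comm]
    refine sum_congr rfl fun F hF => ?_
    unfold up
    rw [card_filter]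
  have u4 : ∀ F ∈ facesR p s 3, up p s 4 F = up p s 5 F := by
    intro F hF
    rw [mem_facesR] at hF
    have h1 : ∀ r, up p s r F = (mid p s F s r).card := by
      intro r
      unfold up mid
      congr 1
      ext K
      simp only [mem_filter, mem_facesR]
      constructor
      · rintro ⟨a, b⟩; exact ⟨a, b, a.1.1⟩
      · rintro ⟨a, b, _⟩; exact ⟨a, b⟩
    have h2 := card_mid hF.1 (isFace_self p s) hF.1.1 1
    have h3 := card_mid hF.1 (isFace_self p s) hF.1.1 2
    rw [hF.2] at h2 h3
    rw [h1, h1, h2, h3]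
    symm
    apply card_rank_three (pointed_interval hF.1 (isFace_self p s) hF.1.1)
    have := rk_interval (p := p) hF.1.1
    omega
  have u5 : ∑ F ∈ facesR p s 3, up p s 4 F ≤ R + 72 * f2 := by
    rw [sum_congr rfl u4, hR, hf2, card_eq_sum_ones, mul_sum, ← sum_add_distrib]
    refine sum_le_sum fun F hF => ?_
    split_ifs <;> omega
  rw [u3]
  refine u5.trans ?_
  omega

end Pool.Agent.Kal5
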