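import Pool.Agent.Kal5.Stmts

/-!
Cycle rank and cut sets (MP_716236_co), from the cohomology statement `S_H1`.
-/

set_option autoImplicit false
set_option linter.unusedSectionVars false

namespace Pool.Agent.Kal5

open Finset Submodule Pool.Agent.Lib_helper40.Kal

namespace RkAux

variable {ι : Type} [DecidableEq ι] {V : Type} [AddCommGroup V] [Module ℝ V]

lemma mem_uf {p : ι → V} {s : Finset ι} {h : V →ₗ[ℝ] ℝ} {r : ℕ} {F : Finset ι} :
    F ∈ uf p s h r ↔ F ∈ facesR p s r ∧ Unc p h F := by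
  classical
  unfold uf
  rw [mem_filter]

lemma unc_sub {p : ι → V} {h : V →ₗ[ℝ] ℝ} {E F : Finset ι} (hF : Unc p h F) (hE : E ⊆ F) :
    Unc p h E := fun i hi j hj => hF i (hE hi) j (hE hj)

/-- both sides at once -/
lemma both (hH : S_H1) {p : ι → V} {s : Finset ι} {h : V →ₗ[ℝ] ℝ} {n : ℕ} (hc : Cut p s h n)
    (φ : Finset ι → ZMod 2)
    (hφ : ∀ F ∈ uf p s h 3, ∑ E ∈ facesR p F 2, φ E = 0) :
    ∃ ψ : ι → ZMod 2, ∀ i j, Adj p s i j → SS p h i j → φ {i, j} = ψ i + ψ j := by
  classical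
  obtain ⟨ψ, hψ⟩ := hH ι V p s n hc.toPR h φ (by
    intro F hF hpos
    refine hφ F (mem_uf.2 ⟨hF, ?_⟩)
    intro i hi j hj
    unfold SS
    simp [hpos i hi, hpos j hj])
  obtain ⟨ψ', hψ'⟩ := hH ι V p s n hc.toPR (-h) φ (by
    intro F hF hpos
    refine hφ F (mem_uf.2 ⟨hF, ?_⟩)
    intro i hi j hj
    unfold SS
    have h1 := hpos i hi
    have h2 := hpos j hj
    rw [LinearMap.neg_apply] at h1 h2
    constructor <;> intro h3 <;> linarith)
  refine ⟨fun i => if 0 < h (p i) then ψ i else ψ' i, ?_⟩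
  intro i j hij hs
  change φ {i, j} = (if 0 < h (p i) then ψ i else ψ' i) + (if 0 < h (p j) then ψ j else ψ' j)
  by_cases hi : 0 < h (p i)
  · have hj : 0 < h (p j) := hs.1 hi
    rw [if_pos hi, if_pos hj]
    exact hψ i j hij hi hj
  · have hj : ¬ 0 < h (p j) := fun hj => hi (hs.2 hj)
    rw [if_neg hi, if_neg hj]
    refine hψ' i j hij ?_ ?_
    · rw [LinearMap.neg_apply]
      have := hc.ne i hij.left
      have := lt_of_le_of_ne (not_lt.1 hi) this
      linarith
    · rw [LinearMap.neg_apply]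
      have := hc.ne j hij.right
      have := lt_of_le_of_ne (not_lt.1 hj) this
      linarith

end RkAux

open RkAux

theorem cutset (hH : S_H1) : S_CUTSET := by
  intro ι _ V _ _ p s h n hc S hS
  classical
  obtain ⟨ψ, hψ⟩ := both hH hc (fun E => if E ∈ S ∧ E ∈ uf p s h 2 then 1 else 0) (by
    intro F hF
    apply sum_eq_zero
    intro E hE
    rw [if_neg]
    rintro ⟨h1, h2⟩
    have h3 := hS E h1 h2
    unfold tt at h3
    rw [card_eq_zero] at h3
    have hE' := (facesR_restrict (mem_facesR.1 (mem_uf.1 hF).1).1).1 hE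
    have : F ∈ (uf p s h 3).filter fun W => E ⊆ W := mem_filter.2 ⟨hF, hE'.2⟩
    rw [h3] at this
    exact absurd this (notMem_empty _))
  refine ⟨ψ, ?_⟩
  intro i j hij hs
  have h1 := hψ i j hij hs
  have hu : ({i, j} : Finset ι) ∈ uf p s h 2 := by
    refine mem_uf.2 ⟨mem_facesR.2 ⟨hij.2, hij.rk_eq hc.pointed hc.red⟩, ?_⟩
    intro a ha b hb
    rw [mem_insert, mem_singleton] at ha hb
    rcases ha with rfl | rfl <;> rcases hb with rfl | rfl
    · exact Iff.rfl
    · exact hs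
    · exact hs.symm
    · exact Iff.rfl
  have h2 : ∀ a b : ZMod 2, a + b = 0 ↔ a = b := by decide
  by_cases hm : ({i, j} : Finset ι) ∈ S
  · rw [if_pos ⟨hm, hu⟩] at h1
    constructor
    · intro _; exact hm
    · intro _ h3
      rw [(h2 _ _).2 h3] at h1
      exact one_ne_zero h1
  · rw [if_neg (fun h3 => hm h3.1)] at h1
    constructor
    · intro h3; exact absurd ((h2 _ _).1 h1.symm) h3
    · intro h3; exact absurd h3 hm

theorem rk (hH : S_H1) : S_RK := by
  intro ι _ V _ _ p s h n hc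
  classical
  have : Fact (Nat.Prime 2) := ⟨Nat.prime_two⟩
  let A := {i // i ∈ s}
  let B := {E // E ∈ uf p s h 2}
  let C := {F // F ∈ uf p s h 3}
  let Φ : (A → ZMod 2) →ₗ[ZMod 2] (B → ZMod 2) := LinearMap.pi fun E =>
    ∑ i ∈ (univ : Finset A).filter (fun i => i.1 ∈ E.1), LinearMap.proj i
  let Θ : (B → ZMod 2) →ₗ[ZMod 2] (C → ZMod 2) := LinearMap.pi fun F =>
    ∑ E ∈ (univ : Finset B).filter (fun E => E.1 ⊆ F.1), LinearMap.proj E
  have hΦ : ∀ (ψ : A → ZMod 2) (E : B), Φ ψ E =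
      ∑ i ∈ (univ : Finset A).filter (fun i => i.1 ∈ E.1), ψ i := by
    intro ψ E
    simp [Φ, LinearMap.pi_apply, LinearMap.sum_apply]
  have hΘ : ∀ (φ : B → ZMod 2) (F : C), Θ φ F =
      ∑ E ∈ (univ : Finset B).filter (fun E => E.1 ⊆ F.1), φ E := by
    intro φ F
    simp [Θ, LinearMap.pi_apply, LinearMap.sum_apply]
  have hker : LinearMap.ker Θ ≤ LinearMap.range Φ := by
    intro φ hφ
    rw [LinearMap.mem_ker] at hφ
    obtain ⟨ψ, hψ⟩ := both hH hc (fun E => if hE : E ∈ uf p s h 2 then φ ⟨E, hE⟩ else 0) (by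
      intro F hF
      have h1 := congrFun hφ ⟨F, hF⟩
      rw [hΘ] at h1
      rw [Pi.zero_apply] at h1
      rw [← h1]
      symm
      refine sum_bij (fun E _ => E.1) ?_ ?_ ?_ ?_
      · intro E hE
        rw [mem_filter] at hE
        exact (facesR_restrict (mem_facesR.1 (mem_uf.1 hF).1).1).2 ⟨(mem_uf.1 E.2).1, hE.2⟩
      · intro a _ b _ hab
        exact Subtype.ext hab
      · intro E hE
        have hE' := (facesR_restrict (mem_facesR.1 (mem_uf.1 hF).1).1).1 hE
        exact ⟨⟨E, mem_uf.2 ⟨hE'.1, unc_sub (mem_uf.1 hF).2 hE'.2⟩⟩,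
          mem_filter.2 ⟨mem_univ _, hE'.2⟩, rfl⟩
      · intro E _
        rw [dif_pos E.2])
    refine ⟨fun i => ψ i.1, ?_⟩
    ext E
    obtain ⟨E, hE⟩ := E
    rw [hΦ]
    have hEf := (mem_uf.1 hE).1
    obtain ⟨i, hi⟩ := card_pos.1 (by rw [hc.red.edge_card hc.pointed hEf]; norm_num)
    obtain ⟨k, rfl, hik⟩ := hc.red.edge_eq hc.pointed hEf hi
    have h2 := hψ i k hik ((mem_uf.1 hE).2 i (by simp) k (by simp))
    rw [dif_pos hE] at h2
    rw [h2]
    have h3 : (univ : Finset A).filter (fun j => j.1 ∈ ({i, k} : Finset ι)) =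
        {⟨i, hik.left⟩, ⟨k, hik.right⟩} := by
      ext j
      simp only [mem_filter, mem_univ, true_and, mem_insert, mem_singleton]
      constructor
      · rintro (h4 | h4)
        · exact Or.inl (Subtype.ext h4)
        · exact Or.inr (Subtype.ext h4)
      · rintro (h4 | h4)
        · exact Or.inl (by rw [h4])
        · exact Or.inr (by rw [h4])
    have h5 : (⟨i, hik.left⟩ : A) ≠ ⟨k, hik.right⟩ := fun h6 => hik.1 (congrArg Subtype.val h6)
    change ∑ j ∈ (univ : Finset A).filter (fun j => j.1 ∈ ({i, k} : Finset ι)), ψ j.1 = _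
    rw [h3, sum_pair h5]
  have h1 := LinearMap.finrank_range_add_finrank_ker Θ
  have h2 : Module.finrank (ZMod 2) (LinearMap.range Θ) ≤ Module.finrank (ZMod 2) (C → ZMod 2) :=
    Submodule.finrank_le _
  have h3 : Module.finrank (ZMod 2) (LinearMap.ker Θ) ≤
      Module.finrank (ZMod 2) (LinearMap.range Φ) := Submodule.finrank_mono hker
  have h4 : Module.finrank (ZMod 2) (LinearMap.range Φ) ≤
      Module.finrank (ZMod 2) (A → ZMod 2) := LinearMap.finrank_range_le Φ
  rw [Module.finrank_fintype_fun_eq_card] at h1 h2 h4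
  have hA : Fintype.card A = s.card := Fintype.card_coe s
  have hB : Fintype.card B = (uf p s h 2).card := Fintype.card_coe _
  have hC : Fintype.card C = (uf p s h 3).card := Fintype.card_coe _
  unfold UU
  omega

end Pool.Agent.Kal5
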