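import Pool.Agent.Kal5.Stmts

/-!
Module K5_UN: counting of the uncut edges.
-/

set_option autoImplicit false
set_option linter.unusedSectionVars false

namespace Pool.Agent.Kal5

open Finset Submodule Pool.Agent.Lib_helper40.Kal

namespace UnProof

lemma card_le_sum_of_cover {α β γ : Type*} [DecidableEq γ] (N : Finset γ) (A : Finset α)
    (L : α → Finset β) (g : α → β → γ)
    (hN : ∀ e ∈ N, ∃ a ∈ A, ∃ b ∈ L a, g a b = e) : N.card ≤ ∑ a ∈ A, (L a).card := by
  classical
  have hsub : N ⊆ A.biUnion fun a => (L a).image (g a) := by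
    intro e he
    obtain ⟨a, ha, b, hb, rfl⟩ := hN e he
    exact mem_biUnion.2 ⟨a, ha, mem_image_of_mem _ hb⟩
  calc N.card ≤ (A.biUnion fun a => (L a).image (g a)).card := card_le_card hsub
    _ ≤ ∑ a ∈ A, ((L a).image (g a)).card := card_biUnion_le
    _ ≤ ∑ a ∈ A, (L a).card := Finset.sum_le_sum fun a _ => card_image_le

variable {ι : Type} [DecidableEq ι] {V : Type} [AddCommGroup V] [Module ℝ V]
  {p : ι → V} {s : Finset ι} {h : V →ₗ[ℝ] ℝ} {n : ℕ}

lemma mem_un {x y : ι} : y ∈ un p s h x ↔ Adj p s x y ∧ SS p h x y := by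
  classical
  unfold un
  rw [mem_filter, mem_nb]

lemma mem_uf {r : ℕ} {F : Finset ι} :
    F ∈ uf p s h r ↔ (IsFace p s F ∧ rk p F = r) ∧ Unc p h F := by
  classical
  unfold uf
  rw [mem_filter, mem_facesR]

lemma edge_other (hC : Cut p s h n) {e : Finset ι} (he : e ∈ uf p s h 2) {x : ι} (hx : x ∈ e) :
    ∃ k, e = {x, k} ∧ k ∈ un p s h x := by
  obtain ⟨he1, he2⟩ := mem_uf.1 he
  obtain ⟨k, hk, hadj⟩ := hC.red.edge_eq hC.pointed (mem_facesR.2 he1) hx
  exact ⟨k, hk, mem_un.2 ⟨hadj, he2 x hx k (by rw [hk]; simp)⟩⟩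

lemma pair_mem_uf (hC : Cut p s h n) {x k : ι} (hk : k ∈ un p s h x) :
    ({x, k} : Finset ι) ∈ uf p s h 2 := by
  obtain ⟨h1, h2⟩ := mem_un.1 hk
  refine mem_uf.2 ⟨⟨h1.2, h1.rk_eq hC.pointed hC.red⟩, ?_⟩
  intro i hi j hj
  simp only [mem_insert, mem_singleton] at hi hj
  rcases hi with rfl | rfl <;> rcases hj with rfl | rfl
  · exact Iff.rfl
  · exact h2
  · exact Iff.symm h2
  · exact Iff.rfl

lemma edge_card (hC : Cut p s h n) {e : Finset ι} (he : e ∈ uf p s h 2) : e.card = 2 :=
  hC.red.edge_card hC.pointed (mem_facesR.2 (mem_uf.1 he).1)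

lemma good_pair {x x' : ι} (hg : Good p s h x) (hx' : x' ∈ un p s h x) :
    ∃ x'', x'' ≠ x' ∧ un p s h x = {x', x''} := by
  obtain ⟨a, b, hab, he⟩ := card_eq_two.1 hg.1
  rw [he, mem_insert, mem_singleton] at hx'
  rcases hx' with rfl | rfl
  · exact ⟨b, hab.symm, he⟩
  · exact ⟨a, hab, by rw [he, pair_comm]⟩

lemma good_meets {x : ι} (hg : Good p s h x) {W : Finset ι} (hW : W ∈ facesR p s 4)
    (hx : x ∈ W) : (un p s h x ∩ W).Nonempty := by
  by_contra hn
  rw [not_nonempty_iff_eq_empty] at hn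
  have h1 := hg.2
  unfold bd at h1
  rw [card_eq_zero] at h1
  have h2 : W ∈ (facesR p s 4).filter fun W => x ∈ W ∧ un p s h x ∩ W = ∅ :=
    mem_filter.2 ⟨hW, hx, hn⟩
  rw [h1] at h2
  simp at h2

lemma inter_one {x a b : ι} (he : un p s h x = {a, b}) {W : Finset ι} (ha : a ∈ W)
    (hb : b ∉ W) : un p s h x ∩ W = {a} := by
  rw [he]
  ext k
  simp only [mem_inter, mem_insert, mem_singleton]
  constructor
  · rintro ⟨rfl | rfl, h2⟩
    · rfl
    · exact absurd h2 hb
  · rintro rfl
    exact ⟨Or.inl rfl, ha⟩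

/-- an uncut 2-face at a good vertex contains both uncut neighbours -/
lemma face_third (hC : Cut p s h n) {x x' x'' : ι} (he : un p s h x = {x', x''})
    {G : Finset ι} (hG : G ∈ uf p s h 3) (hx : x ∈ G) (hx' : x' ∈ G) : x'' ∈ G := by
  obtain ⟨hG1, hG2⟩ := mem_uf.1 hG
  have h1 : x' ∈ un p s h x := by rw [he]; simp
  obtain ⟨l, hl1, hl2, hl3, -⟩ :=
    exists_other hC.pointed hC.red (mem_facesR.2 hG1) (mem_un.1 h1).1 hx hx'
  have h2 : l ∈ un p s h x := mem_un.2 ⟨hl2, hG2 x hx l hl3⟩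
  rw [he, mem_insert, mem_singleton] at h2
  rcases h2 with h2 | h2
  · exact absurd h2 hl1
  · rwa [h2] at hl3

lemma inter_faces {G G' e : Finset ι} {r : ℕ} (hG : G ∈ facesR p s (r + 1))
    (hG' : G' ∈ facesR p s (r + 1)) (hne : G ≠ G') (he : e ∈ facesR p s r) (h1 : e ⊆ G)
    (h2 : e ⊆ G') : G ∩ G' = e := by
  rw [mem_facesR] at hG hG' he
  have hin := hG.1.inter hG'.1
  have hsub : e ⊆ G ∩ G' := subset_inter h1 h2
  symm
  apply he.1.eq_of_rk_le hin.1 hsub
  have hlt : rk p (G ∩ G') < rk p G := by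
    apply hin.rk_lt hG.1.1
    refine ⟨inter_subset_left, fun h3 => hne ?_⟩
    have h4 : G ⊆ G' := h3.trans inter_subset_right
    exact hG.1.eq_of_rk_le hG'.1.1 h4 (by omega)
  omega

/-- an uncut edge with a good end is in at most one uncut 2-face -/
lemma tt_le_one (hC : Cut p s h n) {e : Finset ι} (he : e ∈ uf p s h 2) {x : ι} (hx : x ∈ e)
    (hg : Good p s h x) : tt p s h e ≤ 1 := by
  obtain ⟨x', rfl, hx'⟩ := edge_other hC he hx
  obtain ⟨x'', hne, hun⟩ := good_pair hg hx'
  unfold tt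
  rw [card_le_one]
  intro G hG G' hG'
  rw [mem_filter] at hG hG'
  by_contra hGG
  have h1 : x'' ∈ G := face_third hC hun hG.1 (hG.2 (by simp)) (hG.2 (by simp))
  have h2 : x'' ∈ G' := face_third hC hun hG'.1 (hG'.2 (by simp)) (hG'.2 (by simp))
  have h3 := inter_faces (r := 2) (mem_facesR.2 (mem_uf.1 hG.1).1)
    (mem_facesR.2 (mem_uf.1 hG'.1).1) hGG (mem_facesR.2 (mem_uf.1 he).1) hG.2 hG'.2
  have h4 : x'' ∈ ({x, x'} : Finset ι) := by
    rw [← h3]; exact mem_inter.2 ⟨h1, h2⟩
  rw [mem_insert, mem_singleton] at h4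
  rcases h4 with rfl | h4
  · have : x'' ∈ un p s h x'' := by rw [hun]; simp
    exact (mem_un.1 this).1.1 rfl
  · exact hne h4

lemma up_face_le (hC : Cut p s h 5) {G : Finset ι} (hG : G ∈ facesR p s 3) :
    up p s 4 G ≤ 2 := by
  obtain ⟨T, T', -, -, -, -, -, -, hall⟩ := exists_two_facets hG (by rw [hC.rank])
  unfold up
  refine (card_le_card (t := {T, T'}) ?_).trans card_le_two
  intro W hW
  rw [mem_filter] at hW
  rw [mem_insert, mem_singleton]
  exact hall W hW.1 hW.2

lemma rsum (E' : Finset (Finset ι)) (hE : E' ⊆ uf p s h 2) :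
    ∑ e ∈ E', up p s 4 e ≤ RR p s h + 72 * E'.card := by
  rw [← sum_filter_add_sum_filter_not E' (fun e => 73 ≤ up p s 4 e)]
  apply Nat.add_le_add
  · unfold RR
    exact sum_le_sum_of_subset (filter_subset_filter _ hE)
  · calc ∑ e ∈ E'.filter (fun e => ¬ 73 ≤ up p s 4 e), up p s 4 e
        ≤ ∑ e ∈ E'.filter (fun e => ¬ 73 ≤ up p s 4 e), 72 := by
          apply Finset.sum_le_sum
          intro e he
          rw [mem_filter] at he
          omega
      _ = 72 * (E'.filter (fun e => ¬ 73 ≤ up p s 4 e)).card := by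
          rw [sum_const, smul_eq_mul, mul_comm]
      _ ≤ 72 * E'.card := Nat.mul_le_mul_left _ (card_le_card (filter_subset _ _))

end UnProof

open UnProof

theorem un_le (hAV : S_AV) (hDEL : S_DEL) (hLEAF : S_LEAF) (hBR : S_BR) (hK0 : S_K0)
    (hK1 : S_K1) : S_UN := by
  intro ι _ V _ _ p s h hC
  classical
  -- leaves of a facet
  let LV : Finset ι → Finset ι := fun W => W.filter fun x => dg p s h W x = 1
  have hleaf : ∀ WW ⊆ facesR p s 4, ∑ W ∈ WW, (LV W).card ≤ 4 * WW.card + 396 * UU p s h := by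
    intro WW hWW
    calc ∑ W ∈ WW, (LV W).card ≤ ∑ W ∈ WW, (4 + ∑ x ∈ W, (dg p s h W x - 2)) :=
          Finset.sum_le_sum fun W hW => hLEAF ι V p s h 5 hC W (mem_facesR.1 (hWW hW)).1
      _ = 4 * WW.card + ∑ W ∈ WW, ∑ x ∈ W, (dg p s h W x - 2) := by
          rw [sum_add_distrib, sum_const, smul_eq_mul, mul_comm]
      _ ≤ 4 * WW.card + ∑ W ∈ facesR p s 4, ∑ x ∈ W, (dg p s h W x - 2) :=
          Nat.add_le_add_left (sum_le_sum_of_subset hWW) _
      _ ≤ 4 * WW.card + 396 * UU p s h := Nat.add_le_add_left (hBR ι V p s h hC) _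
  have hcov : ∀ E' : Finset (Finset ι),
      ((facesR p s 4).filter fun W => ∃ e ∈ E', e ⊆ W).card ≤ ∑ e ∈ E', up p s 4 e := by
    intro E'
    refine card_le_sum_of_cover _ E' (fun e => (facesR p s 4).filter fun W => e ⊆ W)
      (fun _ W => W) ?_
    intro W hW
    rw [mem_filter] at hW
    obtain ⟨hW1, e, he, heW⟩ := hW
    exact ⟨e, he, W, mem_filter.2 ⟨hW1, heW⟩, rfl⟩
  -- not good vertices
  set B : Finset ι := s.filter (fun x => ¬ Good p s h x) with hB
  have hdel : ∑ x ∈ B, (un p s h x).card ≤ 22 * UU p s h := hDEL ι V p s h hC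
  -- facets containing an uncut 2-face
  set YY : Finset (Finset ι) := (facesR p s 4).filter fun W => ∃ G ∈ uf p s h 3, G ⊆ W with hYY
  have hYc : YY.card ≤ 2 * UU p s h := by
    calc YY.card ≤ ∑ G ∈ uf p s h 3, up p s 4 G := hcov _
      _ ≤ ∑ G ∈ uf p s h 3, 2 :=
          Finset.sum_le_sum fun G hG => up_face_le hC (mem_facesR.2 (mem_uf.1 hG).1)
      _ = 2 * UU p s h := by rw [sum_const, smul_eq_mul, mul_comm]; rfl
  -- (c)
  set E1 : Finset (Finset ι) := (uf p s h 2).filter fun e =>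
    ∃ a b, e = {a, b} ∧ ∃ Y ∈ YY, a ∈ Y ∧ b ∉ Y with hE1
  have hE1c : E1.card ≤ 22 * UU p s h + (4 * YY.card + 396 * UU p s h) := by
    rw [← card_filter_add_card_filter_not (s := E1) (fun e => ∃ x ∈ e, ¬ Good p s h x)]
    apply Nat.add_le_add
    · refine le_trans (card_le_sum_of_cover _ B (fun x => un p s h x) (fun x k => {x, k}) ?_) hdel
      intro e he
      rw [mem_filter, hE1, mem_filter] at he
      obtain ⟨⟨he1, -⟩, x, hx, hxg⟩ := he
      obtain ⟨k, hk, hku⟩ := edge_other hC he1 hx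
      exact ⟨x, mem_filter.2 ⟨(mem_uf.1 he1).1.1.1 hx, hxg⟩, k, hku, hk.symm⟩
    · refine le_trans (card_le_sum_of_cover _ YY LV (fun Y a => insert a (un p s h a \ Y)) ?_)
        (hleaf YY (filter_subset _ _))
      intro e he
      rw [mem_filter, hE1, mem_filter] at he
      obtain ⟨⟨he1, a, b, hab, Y, hY, haY, hbY⟩, hgood⟩ := he
      push Not at hgood
      have hae : a ∈ e := by rw [hab]; simp
      have hga := hgood a hae
      obtain ⟨k, hk, hku⟩ := edge_other hC he1 hae
      have hbe : b ∈ ({a, k} : Finset ι) := by rw [← hk, hab]; simp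
      have hba : b ≠ a := by rintro rfl; exact hbY haY
      have hbk : b = k := by
        rw [mem_insert, mem_singleton] at hbe
        exact hbe.resolve_left hba
      subst hbk
      obtain ⟨a2, ha2, hun⟩ := good_pair hga hku
      have hY4 : Y ∈ facesR p s 4 := (mem_filter.1 hY).1
      obtain ⟨y, hy⟩ := good_meets hga hY4 haY
      rw [mem_inter, hun, mem_insert, mem_singleton] at hy
      have ha2Y : a2 ∈ Y := by
        obtain ⟨rfl | rfl, h2⟩ := hy
        · exact absurd h2 hbY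
        · exact h2
      have hin : un p s h a ∩ Y = {a2} := inter_one (by rw [hun, pair_comm]) ha2Y hbY
      refine ⟨Y, hY, a, mem_filter.2 ⟨haY, ?_⟩, ?_⟩
      · unfold dg
        rw [hin, card_singleton]
      · rw [hk, hun]
        ext z
        simp only [mem_insert, mem_sdiff, mem_singleton]
        constructor
        · rintro (rfl | ⟨rfl | rfl, h2⟩)
          · exact Or.inl rfl
          · exact Or.inr rfl
          · exact absurd ha2Y h2
        · rintro (rfl | rfl)
          · exact Or.inl rfl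
          · exact Or.inr ⟨Or.inl rfl, hbY⟩
  -- (a)
  set BB : Finset (Finset ι) := (uf p s h 2).filter fun e => ∀ x ∈ e, ¬ Good p s h x with hBB
  have hBBc : 2 * BB.card ≤ 22 * UU p s h := by
    refine le_trans ?_ hdel
    have h1 : ∑ x ∈ B, (BB.filter fun e => x ∈ e).card ≤ ∑ x ∈ B, (un p s h x).card := by
      apply Finset.sum_le_sum
      intro x hx
      refine le_trans (card_le_card (t := (un p s h x).image fun k => ({x, k} : Finset ι)) ?_)
        card_image_le
      intro e he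
      rw [mem_filter, hBB, mem_filter] at he
      obtain ⟨k, hk, hku⟩ := edge_other hC he.1.1 he.2
      exact mem_image.2 ⟨k, hku, hk.symm⟩
    refine le_trans ?_ h1
    have h2 : ∑ x ∈ B, (BB.filter fun e => x ∈ e).card = ∑ e ∈ BB, (B.filter fun x => x ∈ e).card :=
      Finset.sum_card_bipartiteAbove_eq_sum_card_bipartiteBelow (fun (x : ι) (e : Finset ι) => x ∈ e)
    rw [h2]
    have h3 : ∀ e ∈ BB, (B.filter fun x => x ∈ e).card = 2 := by
      intro e he
      rw [hBB, mem_filter] at he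
      have h4 : (B.filter fun x => x ∈ e) = e := by
        ext z
        simp only [hB, mem_filter]
        constructor
        · rintro ⟨-, h5⟩; exact h5
        · intro h5
          exact ⟨⟨(mem_uf.1 he.1).1.1.1 h5, he.2 z h5⟩, h5⟩
      rw [h4]
      exact edge_card hC he.1
    rw [Finset.sum_congr rfl h3, sum_const, smul_eq_mul, mul_comm]
  -- (d)
  set N1 : Finset (Finset ι) := (uf p s h 2).filter fun e =>
    tt p s h e = 1 ∧ ∃ x ∈ e, Good p s h x with hN1
  set W1 : Finset (Finset ι) := (facesR p s 4).filter fun W => ∃ e ∈ E1, e ⊆ W with hW1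
  have hN1c : N1.card ≤ 4 * W1.card + 396 * UU p s h := by
    refine le_trans (card_le_sum_of_cover _ W1 LV (fun W x => insert x (un p s h x ∩ W)) ?_)
      (hleaf W1 (filter_subset _ _))
    intro e he
    rw [hN1, mem_filter] at he
    obtain ⟨he1, ht, x, hx, hg⟩ := he
    obtain ⟨x', hex, hx'⟩ := edge_other hC he1 hx
    obtain ⟨x'', hne, hun⟩ := good_pair hg hx'
    have hGex : ∃ G ∈ uf p s h 3, e ⊆ G := by
      have h1 : 0 < tt p s h e := by omega
      unfold tt at h1
      obtain ⟨G, hG⟩ := card_pos.1 h1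
      rw [mem_filter] at hG
      exact ⟨G, hG.1, hG.2⟩
    obtain ⟨G, hG, heG⟩ := hGex
    obtain ⟨Y, hY, W, hW, hGY, hWG, a, b, hab, hss, haW, hbW, haY, hbY⟩ :=
      hK1 ι V p s h hC e he1 G hG heG ht
    have heW : e ⊆ W := by rw [← hWG]; exact inter_subset_left
    have hx''G : x'' ∈ G := face_third hC hun hG (heG hx) (heG (by rw [hex]; simp))
    have hx''W : x'' ∉ W := by
      intro h1
      have h2 : x'' ∈ e := by rw [← hWG]; exact mem_inter.2 ⟨h1, hx''G⟩
      rw [hex, mem_insert, mem_singleton] at h2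
      rcases h2 with h2 | h2
      · have h3 : x'' ∈ un p s h x := by rw [hun]; simp
        exact (mem_un.1 h3).1.1 h2.symm
      · exact hne h2
    have hin : un p s h x ∩ W = {x'} := inter_one hun (heW (by rw [hex]; simp)) hx''W
    refine ⟨W, ?_, x, mem_filter.2 ⟨heW hx, ?_⟩, ?_⟩
    · rw [hW1, mem_filter]
      refine ⟨hW, {a, b}, ?_, ?_⟩
      · rw [hE1, mem_filter]
        refine ⟨pair_mem_uf hC (mem_un.2 ⟨hab, hss⟩), a, b, rfl, Y, ?_, haY, hbY⟩
        rw [hYY, mem_filter]
        exact ⟨hY, G, hG, hGY⟩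
      · intro z hz
        rw [mem_insert, mem_singleton] at hz
        rcases hz with rfl | rfl <;> assumption
    · unfold dg
      rw [hin, card_singleton]
    · simp only [hin]
      exact hex.symm
  -- (e)
  set T1 : Finset (Finset ι) := (uf p s h 2).filter fun e => 1 ≤ tt p s h e with hT1
  have hT1c : T1.card ≤ BB.card + N1.card := by
    refine le_trans (card_le_card ?_) (card_union_le BB N1)
    intro e he
    rw [hT1, mem_filter] at he
    rw [mem_union]
    by_cases hg : ∃ x ∈ e, Good p s h x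
    · right
      obtain ⟨x, hx, hgx⟩ := hg
      have h1 := tt_le_one hC he.1 hx hgx
      rw [hN1, mem_filter]
      exact ⟨he.1, by omega, x, hx, hgx⟩
    · left
      push Not at hg
      rw [hBB, mem_filter]
      exact ⟨he.1, hg⟩
  -- (f)
  set N0 : Finset (Finset ι) := (uf p s h 2).filter fun e =>
    tt p s h e = 0 ∧ ∃ x ∈ e, Good p s h x with hN0
  set W0 : Finset (Finset ι) := (facesR p s 4).filter fun W => ∃ e ∈ T1, e ⊆ W with hW0
  have hN0c : N0.card ≤ 4 * W0.card + 396 * UU p s h := by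
    refine le_trans (card_le_sum_of_cover _ W0 LV (fun W x => insert x (un p s h x ∩ W)) ?_)
      (hleaf W0 (filter_subset _ _))
    intro e he
    rw [hN0, mem_filter] at he
    obtain ⟨he1, ht, x, hx, hg⟩ := he
    obtain ⟨x', hex, hx'⟩ := edge_other hC he1 hx
    obtain ⟨x'', hne, hun⟩ := good_pair hg hx'
    have hx''u : x'' ∈ un p s h x := by rw [hun]; simp
    have hx''e : x'' ∉ e := by
      intro h2
      rw [hex, mem_insert, mem_singleton] at h2
      rcases h2 with h2 | h2
      · exact (mem_un.1 hx''u).1.1 h2.symm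
      · exact hne h2
    obtain ⟨W, hWf, hWr, heW, hx''W⟩ := hAV ι V p s e x'' hC.pointed (mem_uf.1 he1).1.1
      (mem_un.1 hx''u).1.right hx''e
    have hW4 : W ∈ facesR p s 4 := by
      rw [mem_facesR]
      refine ⟨hWf, ?_⟩
      have := hC.rank
      omega
    obtain ⟨f, hf, hfW, hft⟩ := hK0 ι V p s h hC e he1 ht W hW4 heW
    have hin : un p s h x ∩ W = {x'} := inter_one hun (heW (by rw [hex]; simp)) hx''W
    refine ⟨W, ?_, x, mem_filter.2 ⟨heW hx, ?_⟩, ?_⟩
    · rw [hW0, mem_filter]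
      exact ⟨hW4, f, by rw [hT1, mem_filter]; exact ⟨hf, hft⟩, hfW⟩
    · unfold dg
      rw [hin, card_singleton]
    · simp only [hin]
      exact hex.symm
  -- total
  have htot : (uf p s h 2).card ≤ BB.card + N1.card + N0.card := by
    refine le_trans (card_le_card (t := (BB ∪ N1) ∪ N0) ?_)
      ((card_union_le _ _).trans (Nat.add_le_add_right (card_union_le _ _) _))
    intro e he
    rw [mem_union, mem_union]
    by_cases hg : ∃ x ∈ e, Good p s h x
    · obtain ⟨x, hx, hgx⟩ := hg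
      have h1 := tt_le_one hC he hx hgx
      rcases Nat.lt_or_ge (tt p s h e) 1 with h2 | h2
      · right
        rw [hN0, mem_filter]
        exact ⟨he, by omega, x, hx, hgx⟩
      · left; right
        rw [hN1, mem_filter]
        exact ⟨he, by omega, x, hx, hgx⟩
    · left; left
      push Not at hg
      rw [hBB, mem_filter]
      exact ⟨he, hg⟩
  have hW1c : W1.card ≤ RR p s h + 72 * E1.card :=
    (hcov E1).trans (rsum E1 (filter_subset _ _))
  have hW0c : W0.card ≤ RR p s h + 72 * T1.card :=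
    (hcov T1).trans (rsum T1 (filter_subset _ _))
  clear_value BB N1 N0 W1 W0 T1 E1 YY B
  generalize RR p s h = R at *
  generalize UU p s h = U at *
  omega

end Pool.Agent.Kal5
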