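import Pool.Agent.Kal5.Stmts

/-!
Module K5_VF: vertex figures of reduced families, and faces as intersections of facets.
-/

set_option autoImplicit false
set_option linter.unusedSectionVars false

namespace Pool.Agent.Kal5

open Finset Submodule Pool.Agent.Lib_helper40.Kal

namespace VfAux

variable {ι : Type} [DecidableEq ι] {V : Type} [AddCommGroup V] [Module ℝ V]

lemma not_mem_nb {p : ι → V} {s : Finset ι} {v : ι} : v ∉ nb p s v := by
  intro h
  exact (mem_nb.1 h).1 rfl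

lemma nb_subset {p : ι → V} {s : Finset ι} {v : ι} : nb p s v ⊆ s \ {v} := by
  intro k hk
  have h := mem_nb.1 hk
  rw [mem_sdiff, mem_singleton]
  exact ⟨h.right, fun h1 => h.1 h1.symm⟩

lemma pointed_q {p : ι → V} {s : Finset ι} (hr : Red p s) {v : ι} (hv : v ∈ s) :
    IsFace (qf p {v}) (s \ {v}) ∅ :=
  pointed_interval (hr v hv) (isFace_self p s) (hr v hv).1

lemma meets {p : ι → V} {s : Finset ι} (h0 : IsFace p s ∅) (hr : Red p s) {v : ι} (hv : v ∈ s) :
    Meets (qf p {v}) (s \ {v}) (nb p s v) := by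
  intro R hR
  rw [mem_facesR, isFace_quot (hr v hv).1] at hR
  obtain ⟨⟨hR1, hR2⟩, hR3⟩ := hR
  have hE : ({v} ∪ R) ∈ facesR p s 2 := by
    rw [mem_facesR]
    refine ⟨hR2, ?_⟩
    have := rk_quot p {v} R
    rw [hR3, Red.rk_one h0 hv] at this
    omega
  obtain ⟨k, hk, hadj⟩ := hr.edge_eq h0 hE (i := v) (by simp)
  have : k ∈ ({v} ∪ R : Finset ι) := by rw [hk]; simp
  rw [mem_union, mem_singleton] at this
  rcases this with rfl | h1
  · exact absurd rfl hadj.1
  · exact ⟨k, mem_inter.2 ⟨h1, mem_nb.2 hadj⟩⟩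

lemma sdiff_face {p : ι → V} {s F : Finset ι} (hr : Red p s) {v : ι} (hv : v ∈ s)
    (hF : IsFace p s F) (hvF : v ∈ F) : IsFace (qf p {v}) (s \ {v}) (F \ {v}) := by
  have hu : ({v} : Finset ι) ∪ (F \ {v}) = F := union_sdiff_of_subset (by simpa using hvF)
  rw [isFace_quot (hr v hv).1, hu]
  exact ⟨sdiff_subset_sdiff hF.1 (Subset.refl _), hF⟩

lemma sdiff_inter {p : ι → V} {s F : Finset ι} {v : ι} :
    (F \ {v}) ∩ nb p s v = F ∩ nb p s v := by
  ext k
  simp only [mem_inter, mem_sdiff, mem_singleton]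
  constructor
  · rintro ⟨⟨h1, _⟩, h3⟩
    exact ⟨h1, h3⟩
  · rintro ⟨h1, h3⟩
    exact ⟨⟨h1, fun h => not_mem_nb (h ▸ h3)⟩, h3⟩

lemma pr {p : ι → V} {s : Finset ι} {n : ℕ} {v : ι} (h : PR p s (n + 1)) (hv : v ∈ s) :
    PR (qf p {v}) (nb p s v) n := by
  have h0 := h.pointed
  have hr := h.red
  have hq0 := pointed_q hr hv
  have hm := meets h0 hr hv
  refine ⟨?_, ?_, ?_⟩
  · have := hq0.sub (nb_subset (p := p) (s := s) (v := v))
    simpa using this
  · intro k hk
    have hadj := mem_nb.1 hk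
    have h1 : IsFace (qf p {v}) (s \ {v}) {k} := by
      rw [isFace_quot (hr v hv).1]
      refine ⟨by simpa using nb_subset hk, ?_⟩
      have : ({v} : Finset ι) ∪ {k} = {v, k} := by ext; simp
      rw [this]
      exact hadj.2
    have h2 := h1.sub (nb_subset (p := p) (s := s) (v := v))
    have h3 : ({k} : Finset ι) ∩ nb p s v = {k} := by
      rw [inter_eq_left]
      simpa using hk
    rwa [h3] at h2
  · have h1 := hm.rk_inter hq0 (isFace_self (qf p {v}) (s \ {v}))
    rw [inter_eq_right.2 nb_subset] at h1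
    have h2 := rk_interval (p := p) (hr v hv).1
    rw [Red.rk_one h0 hv, h.rank] at h2
    rw [h1]
    omega

lemma pos_of_nb {p : ι → V} {s : Finset ι} (h0 : IsFace p s ∅) (hr : Red p s) {v : ι}
    (hv : v ∈ s) (h : V →ₗ[ℝ] ℝ) (hhv : h (p v) = 0) {F : Finset ι} (hF : IsFace p s F)
    (hvF : v ∈ F) (hpos : ∀ i ∈ F ∩ nb p s v, 0 < h (p i)) :
    ∀ i ∈ F, i ≠ v → 0 < h (p i) := by
  intro i hi hiv
  by_contra hn
  push Not at hn
  obtain ⟨_, ρ, ρ0, ρp⟩ := hr v hv
  have ρv : ρ (p v) = 0 := ρ0 v (mem_singleton_self v)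
  obtain ⟨M, hM⟩ := exists_bound (F ∩ nb p s v) (fun i => ρ (p i) / h (p i))
  have h0F : IsFace p F ∅ := (isFace_restrict hF).2 ⟨h0, empty_subset _⟩
  have hrF : Red p F := hr.restrict hF
  have hK : 0 ≤ max M 0 := le_max_right _ _
  obtain ⟨k, hk, hkp⟩ := exists_adj_pos h0F hrF (ρ - (max M 0 + 1) • h) hvF (by
    simp only [LinearMap.sub_apply, LinearMap.smul_apply, smul_eq_mul, ρv, hhv]
    ring) hi (by
    simp only [LinearMap.sub_apply, LinearMap.smul_apply, smul_eq_mul]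
    have h1 := ρp i (hF.1 hi) (by rw [mem_singleton]; exact hiv)
    have h2 : (max M 0 + 1) * h (p i) ≤ 0 :=
      mul_nonpos_of_nonneg_of_nonpos (by linarith) hn
    linarith)
  simp only [LinearMap.sub_apply, LinearMap.smul_apply, smul_eq_mul] at hkp
  have hkF : k ∈ F := hk.right
  have hadj : Adj p s v k := (adj_restrict hF hvF hkF).1 hk
  have hkm : k ∈ F ∩ nb p s v := mem_inter.2 ⟨hkF, mem_nb.2 hadj⟩
  have h1 := hpos k hkm
  have h2 := hM k hkm
  rw [div_le_iff₀ h1] at h2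
  have h3 : M * h (p k) ≤ max M 0 * h (p k) := mul_le_mul_of_nonneg_right (le_max_left _ _) h1.le
  have h4 : (max M 0 + 1) * h (p k) = max M 0 * h (p k) + h (p k) := by ring
  linarith

end VfAux

theorem vf : S_VF := by
  intro ι _ V _ _ p s n v h hv
  have h0 := h.pointed
  have hr := h.red
  have hq0 := VfAux.pointed_q hr hv
  have hm := VfAux.meets h0 hr hv
  have hsub := VfAux.nb_subset (p := p) (s := s) (v := v)
  refine ⟨VfAux.pr h hv, ?_, ?_, ?_, ?_, ?_⟩
  · intro F hF hvF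
    have h1 := VfAux.sdiff_face hr hv hF hvF
    have h2 := h1.sub hsub
    rw [VfAux.sdiff_inter] at h2
    refine ⟨h2, ?_⟩
    have h3 := hm.rk_inter hq0 h1
    rw [VfAux.sdiff_inter] at h3
    have h4 := rk_quot p {v} (F \ {v})
    rw [union_sdiff_of_subset (by simpa using hvF), Red.rk_one h0 hv] at h4
    rw [h3]
    exact h4
  · intro J hJ
    obtain ⟨I, hI, hIJ⟩ := hm.lift hq0 hsub hJ
    have h1 := (isFace_quot (hr v hv).1).1 hI
    refine ⟨{v} ∪ I, h1.2, by simp, ?_⟩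
    rw [← hIJ]
    ext k
    simp only [mem_inter, mem_union, mem_singleton]
    constructor
    · rintro ⟨h2 | h2, h3⟩
      · exact absurd h3 (h2 ▸ VfAux.not_mem_nb)
      · exact ⟨h2, h3⟩
    · rintro ⟨h2, h3⟩
      exact ⟨Or.inr h2, h3⟩
  · intro F F' hF hvF hF' hvF' hFF
    have h1 := VfAux.sdiff_face hr hv hF hvF
    have h2 := VfAux.sdiff_face hr hv hF' hvF'
    have h3 := hm.inj hq0 h1 h2 (by
      rw [VfAux.sdiff_inter]
      intro k hk
      rw [mem_sdiff, mem_singleton]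
      refine ⟨hFF hk, fun h => ?_⟩
      exact VfAux.not_mem_nb (h ▸ (mem_inter.1 hk).2))
    intro k hk
    by_cases hkv : k = v
    · rw [hkv]; exact hvF'
    · exact (mem_sdiff.1 (h3 (mem_sdiff.2 ⟨hk, by rw [mem_singleton]; exact hkv⟩))).1
  · intro g hg
    have hker : span ℝ (p '' (({v} : Finset ι) : Set ι)) ≤ LinearMap.ker g :=
      le_ker_of_zero (by intro k hk; rw [mem_singleton] at hk; rw [hk]; exact hg)
    exact ⟨liftQ _ g hker, fun i => by simp [qf]⟩
  · intro g hg F hF hvF hpos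
    exact VfAux.pos_of_nb h0 hr hv g hg hF hvF hpos

theorem av : S_AV := by
  classical
  intro ι _ V _ _ p s I y h0 hI hy hyI
  let P : Finset (Finset ι) := s.powerset.filter fun F => IsFace p s F ∧ I ⊆ F ∧ y ∉ F
  have hP : P.Nonempty := ⟨I, by
    simp only [P, mem_filter, mem_powerset]
    exact ⟨hI.1, hI, Subset.refl _, hyI⟩⟩
  obtain ⟨W, hW, hmax⟩ := exists_max_image P (rk p) hP
  simp only [P, mem_filter, mem_powerset] at hW hmax
  obtain ⟨hWs, hWf, hIW, hyW⟩ := hW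
  refine ⟨W, hWf, ?_, hIW, hyW⟩
  have hlt : rk p W < rk p s := hWf.rk_lt (Subset.refl _) ⟨hWs, fun h => hyW (h hy)⟩
  by_contra hcon
  have hq0 := pointed_interval hWf (isFace_self p s) hWs
  have hrk := rk_interval (p := p) hWs
  have hcard := rk_le_card_rays hq0
  obtain ⟨R, hR, hyR⟩ : ∃ R ∈ facesR (qf p W) (s \ W) 1, y ∉ R := by
    by_contra hno
    push Not at hno
    have hone : (facesR (qf p W) (s \ W) 1).card ≤ 1 := by
      rw [card_le_one]
      intro R hR R' hR'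
      exact ray_disjoint hq0 hR hR' (hno R hR) (hno R' hR')
    omega
  rw [mem_facesR, isFace_quot hWs] at hR
  obtain ⟨⟨hR1, hR2⟩, hR3⟩ := hR
  have hrk2 := rk_quot p W R
  have := hmax (W ∪ R) ⟨hR2.1, hR2, hIW.trans subset_union_left, by
    rw [mem_union, not_or]
    exact ⟨hyW, hyR⟩⟩
  omega

end Pool.Agent.Kal5
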