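import Pool.Agent.Kal5.Bad
import Pool.Agent.Kal5.Ce
import Pool.Agent.Kal5.Combine
import Pool.Agent.Kal5.Del
import Pool.Agent.Kal5.Fin
import Pool.Agent.Kal5.H1
import Pool.Agent.Kal5.K0
import Pool.Agent.Kal5.K1
import Pool.Agent.Kal5.L45
import Pool.Agent.Kal5.Leaf
import Pool.Agent.Kal5.Main
import Pool.Agent.Kal5.Rk
import Pool.Agent.Kal5.Un
import Pool.Agent.Kal5.Vf

/-!
Assembly: the inequality for 5-polytopes and its consequences (MP_716236_co).
-/

set_option autoImplicit false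

namespace Pool.Agent.Kal5

theorem s_main : S_MAIN := by
  have hVF : S_VF := vf
  have hAV : S_AV := av
  have hCON : S_CON := con
  have hH1 : S_H1 := h1 hVF
  have hRK : S_RK := Pool.Agent.Kal5.rk hH1
  have hCS : S_CUTSET := cutset hH1
  have hL5 : S_L5 := l5 hVF
  have hBAD : S_BAD := bad hAV
  have hTWO : S_TWO := two hAV
  have hDEL : S_DEL := del hRK hBAD hTWO
  have hCE : S_CE := ce hL5 hBAD hDEL
  have hLEAF : S_LEAF := leaf hCON
  have hBR : S_BR := br hL5 hDEL
  have hK0 : S_K0 := k0 hCON hCS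
  have hK1 : S_K1 := k1 hCON
  have hUN : S_UN := un_le hAV hDEL hLEAF hBR hK0 hK1
  exact main hVF hCE hUN

theorem s_fin : S_FIN := fin5 s_main

theorem s_avg : S_AVG := avg s_main

end Pool.Agent.Kal5
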