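import Pool.Agent.Kal5.Stmts

/-!
Bad facets of the vertices of a cut 5-family (module K5_BAD, MP_716236_co).
-/

set_option autoImplicit false
set_option linter.unusedSectionVars false

namespace Pool.Agent.Kal5

open Finset Submodule Pool.Agent.Lib_helper40.Kal

theorem con : S_CON := by
  intro ι _ V _ _ p s h n hC F hF Z x hx hZ hcl w hw hxw
  have h0 : IsFace p F ∅ := (isFace_restrict hF).2 ⟨hC.pointed, empty_subset _⟩
  have hr : Red p F := hC.red.restrict hF
  rcases lt_or_gt_of_ne (hC.ne x (hF.subset (hZ x hx).1)) with hneg | hpos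
  · have key : ∀ i ∈ F, SS p h x i → 0 < (-h) (p i) := by
      intro i hi hs
      have h1 : ¬ 0 < h (p i) := fun h2 => absurd (hs.2 h2) (not_lt.2 hneg.le)
      have h2 := lt_of_le_of_ne (not_lt.1 h1) (hC.ne i (hF.subset hi))
      rw [LinearMap.neg_apply]; linarith
    refine connected_pos h0 hr (-h) (Z := Z) (fun i hi => ⟨(hZ i hi).1, key i (hZ i hi).1 (hZ i hi).2⟩)
      ⟨x, hx⟩ ?_ hw (key w hw hxw)
    intro i hi k hik hk
    have hkF := hik.right
    refine hcl i hi k hkF ((adj_restrict hF (hZ i hi).1 hkF).1 hik) ?_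
    have h1 := key i (hZ i hi).1 (hZ i hi).2
    rw [LinearMap.neg_apply] at h1 hk
    unfold SS
    constructor
    · intro h2; linarith
    · intro h2; linarith
  · have key : ∀ i ∈ F, SS p h x i → 0 < h (p i) := fun i _ hs => hs.1 hpos
    refine connected_pos h0 hr h (Z := Z) (fun i hi => ⟨(hZ i hi).1, key i (hZ i hi).1 (hZ i hi).2⟩)
      ⟨x, hx⟩ ?_ hw (key w hw hxw)
    intro i hi k hik hk
    have hkF := hik.right
    refine hcl i hi k hkF ((adj_restrict hF (hZ i hi).1 hkF).1 hik) ?_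
    have h1 := key i (hZ i hi).1 (hZ i hi).2
    exact ⟨fun _ => hk, fun _ => h1⟩

section

variable {ι : Type} [DecidableEq ι] {V : Type} [AddCommGroup V] [Module ℝ V]

lemma mem_un {p : ι → V} {s : Finset ι} {h : V →ₗ[ℝ] ℝ} {x y : ι} :
    y ∈ un p s h x ↔ Adj p s x y ∧ SS p h x y := by
  classical
  unfold un
  rw [mem_filter, mem_nb]

lemma SS.refl (p : ι → V) (h : V →ₗ[ℝ] ℝ) (i : ι) : SS p h i i := Iff.rfl

lemma SS.symm {p : ι → V} {h : V →ₗ[ℝ] ℝ} {i j : ι} (hs : SS p h i j) : SS p h j i := Iff.symm hs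

lemma SS.trans {p : ι → V} {h : V →ₗ[ℝ] ℝ} {i j k : ι} (hs : SS p h i j) (ht : SS p h j k) :
    SS p h i k := Iff.trans hs ht

/-- two elements on the side other than the one of `x` are on the same side -/
lemma SS.of_not {p : ι → V} {h : V →ₗ[ℝ] ℝ} {x i j : ι} (hs : ¬ SS p h x i)
    (ht : ¬ SS p h x j) : SS p h i j := by
  unfold SS at *
  tauto

/-- a vertex without uncut neighbour in a face is alone on its side -/
lemma alone {p : ι → V} {s : Finset ι} {h : V →ₗ[ℝ] ℝ} {n : ℕ} (hC : Cut p s h n) {W : Finset ι}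
    (hW : IsFace p s W) {x : ι} (hx : x ∈ W) (hbad : un p s h x ∩ W = ∅) {w : ι} (hw : w ∈ W)
    (hwx : w ≠ x) : ¬ SS p h x w := by
  intro hs
  have h1 := con ι V p s h n hC W hW {x} x (mem_singleton_self x)
    (by intro i hi; rw [mem_singleton] at hi; subst hi; exact ⟨hx, SS.refl p h i⟩)
    (by
      intro i hi k hk hik hsk
      rw [mem_singleton] at hi
      subst hi
      exfalso
      have : k ∈ un p s h i ∩ W := mem_inter.2 ⟨mem_un.2 ⟨hik, hsk⟩, hk⟩
      rw [hbad] at this
      exact notMem_empty _ this) w hw hs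
  exact hwx (mem_singleton.1 h1)

end

theorem bad (hAV : S_AV) : S_BAD := by
  intro ι _ V _ _ p s h hC
  classical
  -- pairs (x, W)
  set P : Finset (ι × Finset ι) := (s ×ˢ facesR p s 4).filter
    fun q => q.1 ∈ q.2 ∧ un p s h q.1 ∩ q.2 = ∅ with hP
  set Q : Finset (Finset ι × Finset ι) := (uf p s h 3 ×ˢ facesR p s 4).filter
    fun q => q.1 ⊆ q.2 with hQ
  have hPc : ∑ x ∈ s, bd p s h x = P.card := by
    rw [hP, card_filter, sum_product]
    refine sum_congr rfl fun x _ => ?_
    unfold bd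
    rw [card_filter]
  have hQc : Q.card = 2 * UU p s h := by
    rw [hQ, card_filter, sum_product]
    have : ∀ F ∈ uf p s h 3, (∑ W ∈ facesR p s 4, if F ⊆ W then 1 else 0) = 2 := by
      intro F hF
      unfold uf at hF
      rw [mem_filter] at hF
      obtain ⟨T, T', hT, hT', hne, hFT, hFT', -, hall⟩ :=
        exists_two_facets (r := 3) hF.1 (by rw [hC.rank])
      rw [← card_filter]
      have : (facesR p s 4).filter (fun W => F ⊆ W) = {T, T'} := by
        ext W
        rw [mem_filter, mem_insert, mem_singleton]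
        constructor
        · rintro ⟨h1, h2⟩; exact hall W h1 h2
        · rintro (rfl | rfl)
          · exact ⟨hT, hFT⟩
          · exact ⟨hT', hFT'⟩
      rw [this, card_pair hne]
    rw [sum_congr rfl this, sum_const, smul_eq_mul, mul_comm]
    rfl
  rw [hPc, ← hQc]
  -- the choice of the 2-face
  have hex : ∀ q ∈ P, ∃ F, F ∈ uf p s h 3 ∧ F ⊆ q.2 ∧ q.1 ∉ F := by
    rintro ⟨x, W⟩ hq
    rw [hP, mem_filter, mem_product] at hq
    simp only at hq
    obtain ⟨⟨hxs, hWm⟩, hxW, hbad⟩ := hq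
    rw [mem_facesR] at hWm
    have h0 : IsFace p W ∅ := (isFace_restrict hWm.1).2 ⟨hC.pointed, empty_subset _⟩
    obtain ⟨F, hF, hrk, -, hxF⟩ := hAV ι V p W ∅ x h0 h0 hxW (notMem_empty x)
    rw [isFace_restrict hWm.1] at hF
    refine ⟨F, ?_, hF.2, hxF⟩
    unfold uf
    rw [mem_filter, mem_facesR]
    refine ⟨⟨hF.1, by omega⟩, ?_⟩
    intro i hi j hj
    have hi' := alone hC hWm.1 hxW hbad (hF.2 hi) (fun h => hxF (h ▸ hi))
    have hj' := alone hC hWm.1 hxW hbad (hF.2 hj) (fun h => hxF (h ▸ hj))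
    exact SS.of_not hi' hj'
  choose! f hf1 hf2 hf3 using hex
  refine card_le_card_of_injOn (fun q => (f q, q.2)) ?_ ?_
  · intro q hq
    rw [mem_coe] at hq
    have h1 := hf1 q hq
    have h2 := hf2 q hq
    rw [hP, mem_filter, mem_product] at hq
    rw [mem_coe, hQ, mem_filter, mem_product]
    exact ⟨⟨h1, hq.1.2⟩, h2⟩
  · rintro q hq q' hq' he
    rw [mem_coe] at hq hq'
    simp only [Prod.mk.injEq] at he
    obtain ⟨he1, he2⟩ := he
    have hF := hf1 q hq
    have hsub := hf2 q hq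
    have hx := hf3 q hq
    have hx' := hf3 q' hq'
    rw [← he1] at hx'
    obtain ⟨x, W⟩ := q
    obtain ⟨x', W'⟩ := q'
    simp only at he2 hx hx' hsub
    subst he2
    rw [hP, mem_filter, mem_product] at hq hq'
    simp only at hq hq'
    obtain ⟨⟨_, hWm⟩, hxW, hbad⟩ := hq
    obtain ⟨⟨_, _⟩, hxW', hbad'⟩ := hq'
    rw [mem_facesR] at hWm
    unfold uf at hF
    rw [mem_filter, mem_facesR] at hF
    obtain ⟨g, hg⟩ := rk_pos_nonempty (p := p) (I := f (x, W)) (by rw [hF.1.2]; norm_num)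
    by_contra hne
    have hxx : x' ≠ x := by
      rintro rfl; exact hne rfl
    have h1 := alone hC hWm.1 hxW hbad (hsub hg) (fun h => hx (h ▸ hg))
    have h2 := alone hC hWm.1 hxW' hbad' (hsub hg) (fun h => hx' (h ▸ hg))
    have h3 := alone hC hWm.1 hxW hbad hxW' hxx
    unfold SS at h1 h2 h3
    tauto

theorem two (hAV : S_AV) : S_TWO := by
  intro ι _ V _ _ p s h x hC hx hbd
  classical
  by_contra hlt
  rw [not_le] at hlt
  -- a facet containing `x` and none of its uncut neighbours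
  have hbadf : ∃ W ∈ facesR p s 4, x ∈ W ∧ un p s h x ∩ W = ∅ := by
    have hxf : IsFace p s {x} := hC.red x hx
    have hrk1 : rk p {x} = 1 := Red.rk_one hC.pointed hx
    rcases (un p s h x).eq_empty_or_nonempty with hemp | ⟨y, hy⟩
    · obtain ⟨W, hW, hxW, hWr⟩ := exists_facet hxf (by
        intro h1
        have h2 := hC.rank
        rw [← h1, hrk1] at h2
        omega)
      refine ⟨W, mem_facesR.2 ⟨hW, by have := hC.rank; omega⟩, hxW (mem_singleton_self x), ?_⟩
      rw [hemp, empty_inter]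
    · have hy' := mem_un.1 hy
      obtain ⟨W, hW, hWr, hxW, hyW⟩ := hAV ι V p s {x} y hC.pointed hxf hy'.1.right
        (by rw [mem_singleton]; exact fun h => hy'.1.1 h.symm)
      refine ⟨W, mem_facesR.2 ⟨hW, by have := hC.rank; omega⟩, hxW (mem_singleton_self x), ?_⟩
      rw [eq_empty_iff_forall_notMem]
      intro z hz
      rw [mem_inter] at hz
      have : z = y := card_le_one.1 (by omega) z hz.1 y hy
      rw [this] at hz
      exact hyW hz.2
  obtain ⟨W, hW, hxW, hempt⟩ := hbadf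
  unfold bd at hbd
  rw [card_eq_zero, filter_eq_empty_iff] at hbd
  exact hbd hW ⟨hxW, hempt⟩

end Pool.Agent.Kal5
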