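import Pool.Agent.Lib_helper40.Kal.Main3

/-!
Definitions for the theorem on 5-polytopes (`f_{23} ≤ C f_3`), MP_716236_co.

`(p, s)` is a pointed reduced family (the vertices of a polytope, homogenised); faces are the
index sets `F` with `IsFace p s F`; a face of dimension `k` has rank `k + 1`. `Adj p s i j` means
that `{i, j}` is an edge. `h` is a linear functional (a hyperplane) without zeros on the family.
-/

set_option autoImplicit false
set_option linter.unusedSectionVars false

namespace Pool.Agent.Kal5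

open Finset Submodule Pool.Agent.Lib_helper40.Kal

variable {ι : Type} [DecidableEq ι] {V : Type} [AddCommGroup V] [Module ℝ V]

/-- Pointed reduced family of rank `n` (an `(n-1)`-polytope given by its vertices). -/
structure PR (p : ι → V) (s : Finset ι) (n : ℕ) : Prop where
  pointed : IsFace p s ∅
  red : Red p s
  rank : rk p s = n

/-- Pointed reduced family of rank `n` cut by a hyperplane missing the vertices. -/
structure Cut (p : ι → V) (s : Finset ι) (h : V →ₗ[ℝ] ℝ) (n : ℕ) : Prop extends PR p s n where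
  ne : ∀ i ∈ s, h (p i) ≠ 0

/-- Same side of the hyperplane. -/
def SS (p : ι → V) (h : V →ₗ[ℝ] ℝ) (i j : ι) : Prop := 0 < h (p i) ↔ 0 < h (p j)

/-- `I` is not cut by the hyperplane. -/
def Unc (p : ι → V) (h : V →ₗ[ℝ] ℝ) (I : Finset ι) : Prop := ∀ i ∈ I, ∀ j ∈ I, SS p h i j

open scoped Classical in
/-- Uncut neighbours of `x`: the other ends of the uncut edges at `x`. -/
noncomputable def un (p : ι → V) (s : Finset ι) (h : V →ₗ[ℝ] ℝ) (x : ι) : Finset ι :=
  (nb p s x).filter fun y => SS p h x y

open scoped Classical in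
/-- Cut neighbours of `x`. -/
noncomputable def cn (p : ι → V) (s : Finset ι) (h : V →ₗ[ℝ] ℝ) (x : ι) : Finset ι :=
  (nb p s x).filter fun y => ¬ SS p h x y

open scoped Classical in
/-- The uncut faces of rank `r`. -/
noncomputable def uf (p : ι → V) (s : Finset ι) (h : V →ₗ[ℝ] ℝ) (r : ℕ) : Finset (Finset ι) :=
  (facesR p s r).filter fun F => Unc p h F

open scoped Classical in
/-- The cut faces of rank `r`. -/
noncomputable def cf (p : ι → V) (s : Finset ι) (h : V →ₗ[ℝ] ℝ) (r : ℕ) : Finset (Finset ι) :=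
  (facesR p s r).filter fun F => ¬ Unc p h F

/-- Number of faces of rank `r` containing `E`. -/
noncomputable def up (p : ι → V) (s : Finset ι) (r : ℕ) (E : Finset ι) : ℕ :=
  ((facesR p s r).filter fun W => E ⊆ W).card

/-- Number of uncut 2-faces containing `E`. -/
noncomputable def tt (p : ι → V) (s : Finset ι) (h : V →ₗ[ℝ] ℝ) (E : Finset ι) : ℕ :=
  ((uf p s h 3).filter fun W => E ⊆ W).card

/-- Number of bad facets at `x` (rank 5 families): facets in which `x` has no uncut neighbour. -/
noncomputable def bd (p : ι → V) (s : Finset ι) (h : V →ₗ[ℝ] ℝ) (x : ι) : ℕ :=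
  ((facesR p s 4).filter fun W => x ∈ W ∧ un p s h x ∩ W = ∅).card

/-- Number of uncut neighbours of `x` in `W`. -/
noncomputable def dg (p : ι → V) (s : Finset ι) (h : V →ₗ[ℝ] ℝ) (W : Finset ι) (x : ι) : ℕ :=
  (un p s h x ∩ W).card

/-- Good vertices: two uncut neighbours, no bad facet. -/
def Good (p : ι → V) (s : Finset ι) (h : V →ₗ[ℝ] ℝ) (x : ι) : Prop :=
  (un p s h x).card = 2 ∧ bd p s h x = 0

/-- Number of uncut 2-faces. -/
noncomputable def UU (p : ι → V) (s : Finset ι) (h : V →ₗ[ℝ] ℝ) : ℕ := (uf p s h 3).card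

/-- `∑ r(e)` over the uncut edges with `r(e) ≥ 73`, `r(e)` = number of facets containing `e`. -/
noncomputable def RR (p : ι → V) (s : Finset ι) (h : V →ₗ[ℝ] ℝ) : ℕ :=
  ∑ e ∈ (uf p s h 2).filter (fun e => 73 ≤ up p s 4 e), up p s 4 e

end Pool.Agent.Kal5
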