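import Pool.Agent.Kal5.Stmts

/-!
Final statements (MP_716236_co): 3-faces of polytopes of dimension at least five.
-/

set_option autoImplicit false
set_option linter.unusedSectionVars false

namespace Pool.Agent.Kal5

open Finset Submodule Pool.Agent.Lib_helper40.Kal

/-- Every polytope of dimension at least 5 has a 3-face with at most `10 ^ 10` vertices whose face
lattice is in a finite list. Proof: `K5_MAIN` for a face of rank 6 of the homogenised family (reduced with
`exists_red`; the counts are transported by `Meets.sum_card`); some `K` of rank 4 has at most 2627871988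
facets, so (Euler, `card_rank_two/three`, every vertex of `K` in at least three facets, i.e. `f0 ≤ 2 f2 - 4`) at
most `10 ^ 10` rays; then as in `main3` with `exists_list 3 (10 ^ 10)`. -/
def S_FIN : Prop :=
    ∃ (m : ℕ) (Q : Fin m → Set (EuclideanSpace ℝ (Fin 3))),
      (∀ i, (∃ S : Finset (EuclideanSpace ℝ (Fin 3)),
              Q i = convexHull ℝ (S : Set (EuclideanSpace ℝ (Fin 3)))) ∧
            Module.finrank ℝ (vectorSpan ℝ (Q i)) = 3) ∧
      ∀ (n : ℕ) (P : Set (EuclideanSpace ℝ (Fin n))),
        (∃ S : Finset (EuclideanSpace ℝ (Fin n)),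
            P = convexHull ℝ (S : Set (EuclideanSpace ℝ (Fin n)))) →
        5 ≤ Module.finrank ℝ (vectorSpan ℝ P) →
        ∃ F : Set (EuclideanSpace ℝ (Fin n)), IsExposed ℝ P F ∧ F.Nonempty ∧
          Module.finrank ℝ (vectorSpan ℝ F) = 3 ∧
          (∃ T : Finset (EuclideanSpace ℝ (Fin n)), T.card ≤ 10 ^ 10 ∧
            F = convexHull ℝ (T : Set (EuclideanSpace ℝ (Fin n)))) ∧
          ∃ i : Fin m, Nonempty
            ({G : Set (EuclideanSpace ℝ (Fin n)) | IsExposed ℝ F G} ≃o
             {G : Set (EuclideanSpace ℝ (Fin 3)) | IsExposed ℝ (Q i) G})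

/-- In a 5-polytope the average number of vertices of a 3-face is at most `10 ^ 10`. Proof: as `S_FIN`, now
with sums over all faces of rank 4 (`faceIso`, `idx_hull`, `rk_hom`); the extreme points of
`hull x K` are the points `x i`, `{i}` a ray of the reduced family of `K`. -/
def S_AVG : Prop :=
    ∀ (n : ℕ) (P : Set (EuclideanSpace ℝ (Fin n))),
        (∃ S : Finset (EuclideanSpace ℝ (Fin n)),
            P = convexHull ℝ (S : Set (EuclideanSpace ℝ (Fin n)))) →
        Module.finrank ℝ (vectorSpan ℝ P) = 5 →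
        {F : Set (EuclideanSpace ℝ (Fin n)) | IsExposed ℝ P F ∧
            Module.finrank ℝ (vectorSpan ℝ F) = 3}.Finite ∧
        {y : EuclideanSpace ℝ (Fin n) × Set (EuclideanSpace ℝ (Fin n)) | IsExposed ℝ P y.2 ∧
            Module.finrank ℝ (vectorSpan ℝ y.2) = 3 ∧ y.1 ∈ Set.extremePoints ℝ y.2}.Finite ∧
        {y : EuclideanSpace ℝ (Fin n) × Set (EuclideanSpace ℝ (Fin n)) | IsExposed ℝ P y.2 ∧
            Module.finrank ℝ (vectorSpan ℝ y.2) = 3 ∧ y.1 ∈ Set.extremePoints ℝ y.2}.ncard ≤
          10 ^ 10 * {F : Set (EuclideanSpace ℝ (Fin n)) | IsExposed ℝ P F ∧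
            Module.finrank ℝ (vectorSpan ℝ F) = 3}.ncard

/-- Dimension 5 is optimal: there are 4-polytopes all of whose 3-faces have many vertices.
Proof: `P` = convex hull of the `(t, t^2, u, u^2)`, `t, u ∈ {0, ..., M - 1}`, `M` large. A face is the zero set of
a nonnegative `f t + g u` (`f, g` polynomials of degree `≤ 2`), i.e. (argmin f) × (argmin g); if its rank
(homogenised) is 4 then one of the two factors has rank 3, so at least three elements, so `f` (or `g`) is
constant; the face contains at least `M` of the points, all of them vertices. -/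
def S_SHARP : Prop :=
    ∀ N : ℕ, ∃ P : Set (EuclideanSpace ℝ (Fin 4)),
      (∃ S : Finset (EuclideanSpace ℝ (Fin 4)),
        P = convexHull ℝ (S : Set (EuclideanSpace ℝ (Fin 4)))) ∧
      Module.finrank ℝ (vectorSpan ℝ P) = 4 ∧
      ∀ F : Set (EuclideanSpace ℝ (Fin 4)), IsExposed ℝ P F →
        Module.finrank ℝ (vectorSpan ℝ F) = 3 →
        ∀ T : Finset (EuclideanSpace ℝ (Fin 4)),
          F = convexHull ℝ (T : Set (EuclideanSpace ℝ (Fin 4))) → N < T.card

end Pool.Agent.Kal5
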