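import Pool.Agent.Kal5.Final

/-!
`S_SHARP`: 4-polytopes all of whose 3-faces have many vertices (MP_716236_co).
-/

set_option autoImplicit false

namespace Pool.Agent.Kal5.Sharp

open Finset Submodule Pool.Agent.Lib_helper40.Kal Pool.Agent.Kal5

/-- The points of the product of two parabola polygons. -/
noncomputable def pt (a : ℕ × ℕ) : EuclideanSpace ℝ (Fin 4) :=
  !₂[(a.1 : ℝ), (a.1 : ℝ) ^ 2, (a.2 : ℝ), (a.2 : ℝ) ^ 2]

/-- The parameter grid. -/
def grid (M : ℕ) : Finset (ℕ × ℕ) := range M ×ˢ range M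

lemma pt_eq (a : ℕ × ℕ) : pt a = (a.1 : ℝ) • EuclideanSpace.single (0 : Fin 4) (1 : ℝ)
    + ((a.1 : ℝ) ^ 2) • EuclideanSpace.single (1 : Fin 4) (1 : ℝ)
    + (a.2 : ℝ) • EuclideanSpace.single (2 : Fin 4) (1 : ℝ)
    + ((a.2 : ℝ) ^ 2) • EuclideanSpace.single (3 : Fin 4) (1 : ℝ) := by
  ext i
  fin_cases i <;> simp [pt]

lemma pt_inj : Function.Injective pt := by
  intro a b h
  have h0 : (a.1 : ℝ) = b.1 := by
    have := congrArg (fun v : EuclideanSpace ℝ (Fin 4) => v 0) h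
    simpa [pt] using this
  have h2 : (a.2 : ℝ) = b.2 := by
    have := congrArg (fun v : EuclideanSpace ℝ (Fin 4) => v 2) h
    simpa [pt] using this
  exact Prod.ext (by exact_mod_cast h0) (by exact_mod_cast h2)

lemma dual_pt (l : EuclideanSpace ℝ (Fin 4) →ₗ[ℝ] ℝ) :
    ∃ c0 c1 c2 c3 : ℝ, ∀ a : ℕ × ℕ,
      l (pt a) = (c0 * a.1 + c1 * (a.1 : ℝ) ^ 2) + (c2 * a.2 + c3 * (a.2 : ℝ) ^ 2) := by
  refine ⟨l (EuclideanSpace.single (0 : Fin 4) (1 : ℝ)), l (EuclideanSpace.single (1 : Fin 4) (1 : ℝ)),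
    l (EuclideanSpace.single (2 : Fin 4) (1 : ℝ)), l (EuclideanSpace.single (3 : Fin 4) (1 : ℝ)),
    fun a => ?_⟩
  rw [pt_eq, map_add, map_add, map_add, map_smul, map_smul, map_smul, map_smul]
  simp only [smul_eq_mul]
  ring

/-- A linear functional with prescribed values on the basis. -/
lemma exists_l0 (t u : ℕ) : ∃ l : EuclideanSpace ℝ (Fin 4) →ₗ[ℝ] ℝ, ∀ a : ℕ × ℕ,
    l (pt a) = ((a.1 : ℝ) - t) ^ 2 + ((a.2 : ℝ) - u) ^ 2 - (t : ℝ) ^ 2 - (u : ℝ) ^ 2 := by
  refine ⟨(-2 * (t : ℝ)) • (EuclideanSpace.proj (0 : Fin 4) : EuclideanSpace ℝ (Fin 4) →L[ℝ] ℝ).toLinearMap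
    + (EuclideanSpace.proj (1 : Fin 4) : EuclideanSpace ℝ (Fin 4) →L[ℝ] ℝ).toLinearMap
    + (-2 * (u : ℝ)) • (EuclideanSpace.proj (2 : Fin 4) : EuclideanSpace ℝ (Fin 4) →L[ℝ] ℝ).toLinearMap
    + (EuclideanSpace.proj (3 : Fin 4) : EuclideanSpace ℝ (Fin 4) →L[ℝ] ℝ).toLinearMap, fun a => ?_⟩
  simp [pt]
  ring

lemma mem_of_pt_mem {M : ℕ} {T : Finset (EuclideanSpace ℝ (Fin 4))}
    (hT : convexHull ℝ (T : Set (EuclideanSpace ℝ (Fin 4))) ⊆ hull pt (grid M)) {a : ℕ × ℕ}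
    (ha : pt a ∈ convexHull ℝ (T : Set (EuclideanSpace ℝ (Fin 4)))) : pt a ∈ T := by
  classical
  obtain ⟨l, hl⟩ := exists_l0 a.1 a.2
  set b : ℝ := (a.1 : ℝ) ^ 2 + (a.2 : ℝ) ^ 2 with hb
  have hval : ∀ i : ℕ × ℕ, l (pt i) + b = ((i.1 : ℝ) - a.1) ^ 2 + ((i.2 : ℝ) - a.2) ^ 2 := by
    intro i
    rw [hl]
    ring
  have hnn : ∀ i ∈ grid M, 0 ≤ l (pt i) + b := by
    intro i _
    rw [hval]
    positivity
  have ha0 : l (pt a) + b = 0 := by
    rw [hval]
    ring
  have huniq : ∀ y ∈ hull pt (grid M), l y + b = 0 → y = pt a := by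
    intro y hy hy0
    have := mem_hull_of_zero (x := pt) (S := grid M) (I := {a}) hnn (fun i _ h0 => by
      rw [hval] at h0
      have h1 : ((i.1 : ℝ) - a.1) ^ 2 = 0 := by nlinarith [sq_nonneg ((i.1 : ℝ) - a.1), sq_nonneg ((i.2 : ℝ) - a.2)]
      have h2 : ((i.2 : ℝ) - a.2) ^ 2 = 0 := by nlinarith [sq_nonneg ((i.1 : ℝ) - a.1), sq_nonneg ((i.2 : ℝ) - a.2)]
      have h3 : (i.1 : ℝ) = a.1 := by
        have := pow_eq_zero_iff (two_ne_zero) |>.1 h1
        linarith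
      have h4 : (i.2 : ℝ) = a.2 := by
        have := pow_eq_zero_iff (two_ne_zero) |>.1 h2
        linarith
      have : i = a := Prod.ext (by exact_mod_cast h3) (by exact_mod_cast h4)
      rw [this]
      exact mem_hull_self (by simp)) hy hy0
    simpa [hull] using this
  rw [Finset.mem_convexHull'] at ha
  obtain ⟨w, hw0, hw1, hwy⟩ := ha
  have hsum : ∑ e ∈ T, w e * (l e + b) = 0 := by
    have : ∑ e ∈ T, w e * (l e + b) = l (∑ e ∈ T, w e • e) + (∑ e ∈ T, w e) * b := by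
      rw [map_sum, sum_mul, ← sum_add_distrib]
      refine sum_congr rfl fun e _ => ?_
      rw [map_smul, smul_eq_mul]; ring
    rw [this, hwy, hw1, one_mul, ha0]
  have hTP : ∀ e ∈ T, e ∈ hull pt (grid M) := fun e he => hT (subset_convexHull ℝ _ (by exact_mod_cast he))
  have hterm : ∀ e ∈ T, w e * (l e + b) = 0 := by
    apply (sum_eq_zero_iff_of_nonneg ?_).1 hsum
    intro e he
    exact mul_nonneg (hw0 _ he) (aff_nonneg hnn (hTP e he))
  have hex : ∃ e ∈ T, w e ≠ 0 := by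
    by_contra hcon
    push Not at hcon
    rw [sum_eq_zero hcon] at hw1
    exact zero_ne_one hw1
  obtain ⟨e, he, hwe⟩ := hex
  have h1 := (mul_eq_zero.1 (hterm e he)).resolve_left hwe
  rw [← huniq e (hTP e he) h1]
  exact he

lemma vectorSpan_hull (I : Finset (ℕ × ℕ)) :
    vectorSpan ℝ (hull pt I) = vectorSpan ℝ (pt '' (I : Set (ℕ × ℕ))) := by
  unfold hull
  rw [← direction_affineSpan, affineSpan_convexHull, direction_affineSpan]

lemma finrank_grid {M : ℕ} (hM : 3 ≤ M) :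
    Module.finrank ℝ (vectorSpan ℝ (hull pt (grid M))) = 4 := by
  rw [vectorSpan_hull]
  have hmem : ∀ a b : ℕ, a < 3 → b < 3 → pt (a, b) ∈ pt '' (grid M : Set (ℕ × ℕ)) := by
    intro a b ha hb
    refine ⟨(a, b), ?_, rfl⟩
    simp only [grid, coe_product, Set.mem_prod, coe_range, Set.mem_Iio]
    omega
  have h00 : pt (0, 0) = 0 := by
    ext i; fin_cases i <;> simp [pt]
  have hv : ∀ a b : ℕ, a < 3 → b < 3 → pt (a, b) ∈ vectorSpan ℝ (pt '' (grid M : Set (ℕ × ℕ))) := by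
    intro a b ha hb
    have := vsub_mem_vectorSpan ℝ (hmem a b ha hb) (hmem 0 0 (by norm_num) (by norm_num))
    rwa [h00, vsub_eq_sub, sub_zero] at this
  have hs : ∀ i : Fin 4, EuclideanSpace.single i (1 : ℝ) ∈ vectorSpan ℝ (pt '' (grid M : Set (ℕ × ℕ))) := by
    intro i
    fin_cases i
    · have : EuclideanSpace.single (0 : Fin 4) (1 : ℝ) = (2 : ℝ) • pt (1, 0) - (1 / 2 : ℝ) • pt (2, 0) := by
        ext j; fin_cases j <;> simp [pt] <;> norm_num
      show EuclideanSpace.single (0 : Fin 4) (1 : ℝ) ∈ _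
      rw [this]
      exact sub_mem (smul_mem _ _ (hv 1 0 (by norm_num) (by norm_num))) (smul_mem _ _ (hv 2 0 (by norm_num) (by norm_num)))
    · have : EuclideanSpace.single (1 : Fin 4) (1 : ℝ) = (1 / 2 : ℝ) • pt (2, 0) - (1 : ℝ) • pt (1, 0) := by
        ext j; fin_cases j <;> simp [pt] <;> norm_num
      show EuclideanSpace.single (1 : Fin 4) (1 : ℝ) ∈ _
      rw [this]
      exact sub_mem (smul_mem _ _ (hv 2 0 (by norm_num) (by norm_num))) (smul_mem _ _ (hv 1 0 (by norm_num) (by norm_num)))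
    · have : EuclideanSpace.single (2 : Fin 4) (1 : ℝ) = (2 : ℝ) • pt (0, 1) - (1 / 2 : ℝ) • pt (0, 2) := by
        ext j; fin_cases j <;> simp [pt] <;> norm_num
      show EuclideanSpace.single (2 : Fin 4) (1 : ℝ) ∈ _
      rw [this]
      exact sub_mem (smul_mem _ _ (hv 0 1 (by norm_num) (by norm_num))) (smul_mem _ _ (hv 0 2 (by norm_num) (by norm_num)))
    · have : EuclideanSpace.single (3 : Fin 4) (1 : ℝ) = (1 / 2 : ℝ) • pt (0, 2) - (1 : ℝ) • pt (0, 1) := by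
        ext j; fin_cases j <;> simp [pt] <;> norm_num
      show EuclideanSpace.single (3 : Fin 4) (1 : ℝ) ∈ _
      rw [this]
      exact sub_mem (smul_mem _ _ (hv 0 2 (by norm_num) (by norm_num))) (smul_mem _ _ (hv 0 1 (by norm_num) (by norm_num)))
  have htop : vectorSpan ℝ (pt '' (grid M : Set (ℕ × ℕ))) = ⊤ := by
    rw [eq_top_iff]
    intro y _
    have hy : y = y 0 • EuclideanSpace.single (0 : Fin 4) (1 : ℝ) + y 1 • EuclideanSpace.single (1 : Fin 4) (1 : ℝ)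
        + y 2 • EuclideanSpace.single (2 : Fin 4) (1 : ℝ) + y 3 • EuclideanSpace.single (3 : Fin 4) (1 : ℝ) := by
      ext j; fin_cases j <;> simp
    rw [hy]
    exact add_mem (add_mem (add_mem (smul_mem _ _ (hs 0)) (smul_mem _ _ (hs 1))) (smul_mem _ _ (hs 2)))
      (smul_mem _ _ (hs 3))
  rw [htop, finrank_top, finrank_euclideanSpace_fin]

/-- A quadratic polynomial taking the same value at three points is constant. -/
lemma quad_const {c0 c1 x y z : ℝ} (hxy : x ≠ y) (hxz : x ≠ z) (hyz : y ≠ z)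
    (h1 : c0 * x + c1 * x ^ 2 = c0 * y + c1 * y ^ 2) (h2 : c0 * x + c1 * x ^ 2 = c0 * z + c1 * z ^ 2) :
    c0 = 0 ∧ c1 = 0 := by
  have e1 : (x - y) * (c0 + c1 * (x + y)) = 0 := by linear_combination h1
  have e2 : (x - z) * (c0 + c1 * (x + z)) = 0 := by linear_combination h2
  have e1' := (mul_eq_zero.1 e1).resolve_left (sub_ne_zero.2 hxy)
  have e2' := (mul_eq_zero.1 e2).resolve_left (sub_ne_zero.2 hxz)
  have e3 : (y - z) * c1 = 0 := by linear_combination e1' - e2'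
  have h3 := (mul_eq_zero.1 e3).resolve_left (sub_ne_zero.2 hyz)
  refine ⟨?_, h3⟩
  rw [h3] at e1'
  linarith

lemma sub_pair {A : Finset ℕ} {a0 : ℕ} (h0 : a0 ∈ A) (hc : A.card ≤ 2) :
    ∃ a1, ∀ a ∈ A, a = a0 ∨ a = a1 := by
  classical
  have h1 : (A.erase a0).card ≤ 1 := by
    rw [card_erase_of_mem h0]; omega
  rcases (A.erase a0).eq_empty_or_nonempty with he | ⟨a1, ha1⟩
  · refine ⟨a0, fun a ha => ?_⟩
    by_contra hn
    push Not at hn
    have : a ∈ A.erase a0 := mem_erase.2 ⟨hn.1, ha⟩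
    rw [he] at this
    exact absurd this (notMem_empty _)
  · refine ⟨a1, fun a ha => ?_⟩
    by_cases h : a = a0
    · exact Or.inl h
    · right
      exact card_le_one.1 h1 a (mem_erase.2 ⟨h, ha⟩) a1 ha1

lemma three_of_card {A : Finset ℕ} (hc : 2 < A.card) :
    ∃ x ∈ A, ∃ y ∈ A, ∃ z ∈ A, x ≠ y ∧ x ≠ z ∧ y ≠ z := by
  obtain ⟨x, hx, y, hy, z, hz, h1, h2, h3⟩ := two_lt_card.1 hc
  exact ⟨x, hx, y, hy, z, hz, h1, h2, h3⟩

theorem sharp : S_SHARP := by
  classical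
  intro N
  set M := N + 3 with hM
  refine ⟨hull pt (grid M), ⟨(grid M).image pt, by unfold hull; rw [coe_image]⟩,
    finrank_grid (by omega), ?_⟩
  intro F hF hF3 T hT
  have hFP : F ⊆ hull pt (grid M) := hF.subset
  have hTP : convexHull ℝ (T : Set (EuclideanSpace ℝ (Fin 4))) ⊆ hull pt (grid M) := hT ▸ hFP
  have hFh := (isFace_of_exposed hF).2
  obtain ⟨⟨hIsub, l, l0, lp⟩, -⟩ := isFace_of_exposed hF
  set I := idx pt (grid M) F with hI
  have hmemI : ∀ i, i ∈ I → pt i ∈ T := by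
    intro i hi
    apply mem_of_pt_mem hTP
    rw [← hT]
    exact (mem_filter.1 hi).2
  -- the functional on the grid
  obtain ⟨c0, c1, c2, c3, hc⟩ := dual_pt (l ∘ₗ LinearMap.inl ℝ (EuclideanSpace ℝ (Fin 4)) ℝ)
  set b := l (0, 1) with hb
  have hval : ∀ i : ℕ × ℕ, l (hom pt i) =
      (c0 * i.1 + c1 * (i.1 : ℝ) ^ 2) + (c2 * i.2 + c3 * (i.2 : ℝ) ^ 2) + b := by
    intro i
    rw [hom_apply, hc]
  have hnn : ∀ i ∈ grid M, 0 ≤ l (hom pt i) := by
    intro i hi
    by_cases h : i ∈ I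
    · exact (l0 i h).ge
    · exact (lp i hi h).le
  have hIiff : ∀ i ∈ grid M, (i ∈ I ↔ l (hom pt i) = 0) := by
    intro i hi
    constructor
    · exact fun h => l0 i h
    · intro h
      by_contra hn
      exact absurd h (lp i hi hn).ne'
  have hmg : ∀ a b : ℕ, (a, b) ∈ grid M ↔ a < M ∧ b < M := by
    intro a b
    simp [grid]
  -- product structure
  have hprod : ∀ a b a' b' : ℕ, (a, b) ∈ I → (a', b') ∈ I → (a, b') ∈ I := by
    intro a b a' b' h h'
    have hg := (hmg a b).1 (hIsub h)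
    have hg' := (hmg a' b').1 (hIsub h')
    have g1 : (a, b') ∈ grid M := (hmg _ _).2 ⟨hg.1, hg'.2⟩
    have g2 : (a', b) ∈ grid M := (hmg _ _).2 ⟨hg'.1, hg.2⟩
    have e1 := l0 _ h
    have e2 := l0 _ h'
    have n1 := hnn _ g1
    have n2 := hnn _ g2
    rw [hval] at e1 e2 n1 n2
    simp only at e1 e2 n1 n2
    rw [hIiff _ g1, hval]
    simp only
    linarith
  have hIne : I.Nonempty := by
    rw [← hull_nonempty_iff (x := pt), ← hFh]
    by_contra hne
    rw [Set.not_nonempty_iff_eq_empty] at hne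
    rw [hne, vectorSpan_empty, finrank_bot] at hF3
    omega
  obtain ⟨⟨a0, b0⟩, h0⟩ := hIne
  have h0g := (hmg _ _).1 (hIsub h0)
  by_cases hA : 2 < (I.image Prod.fst).card
  · obtain ⟨x, hx, y, hy, z, hz, hxy, hxz, hyz⟩ := three_of_card hA
    obtain ⟨⟨x1, x2⟩, hx1, rfl⟩ := mem_image.1 hx
    obtain ⟨⟨y1, y2⟩, hy1, rfl⟩ := mem_image.1 hy
    obtain ⟨⟨z1, z2⟩, hz1, rfl⟩ := mem_image.1 hz
    have ex := l0 _ (hprod _ _ _ _ hx1 h0)
    have ey := l0 _ (hprod _ _ _ _ hy1 h0)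
    have ez := l0 _ (hprod _ _ _ _ hz1 h0)
    rw [hval] at ex ey ez
    simp only at ex ey ez hxy hxz hyz
    obtain ⟨k0, k1⟩ := quad_const (c0 := c0) (c1 := c1) (x := x1) (y := y1) (z := z1)
      (by exact_mod_cast hxy) (by exact_mod_cast hxz) (by exact_mod_cast hyz)
      (by linarith) (by linarith)
    have hall : ∀ t ∈ range M, pt (t, b0) ∈ T := by
      intro t ht
      apply hmemI
      rw [hIiff _ ((hmg _ _).2 ⟨mem_range.1 ht, h0g.2⟩), hval]
      have e0 := l0 _ h0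
      rw [hval] at e0
      simp only at e0
      simp only
      rw [k0, k1] at e0 ⊢
      linarith
    have hcard : (range M).card ≤ T.card :=
      card_le_card_of_injOn (fun t => pt (t, b0)) (by intro t ht; exact hall t ht) (by
        intro s _ t _ hst
        have := pt_inj hst
        exact (Prod.ext_iff.1 this).1)
    rw [card_range] at hcard
    omega
  by_cases hB : 2 < (I.image Prod.snd).card
  · obtain ⟨x, hx, y, hy, z, hz, hxy, hxz, hyz⟩ := three_of_card hB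
    obtain ⟨⟨x1, x2⟩, hx1, rfl⟩ := mem_image.1 hx
    obtain ⟨⟨y1, y2⟩, hy1, rfl⟩ := mem_image.1 hy
    obtain ⟨⟨z1, z2⟩, hz1, rfl⟩ := mem_image.1 hz
    have ex := l0 _ (hprod _ _ _ _ h0 hx1)
    have ey := l0 _ (hprod _ _ _ _ h0 hy1)
    have ez := l0 _ (hprod _ _ _ _ h0 hz1)
    rw [hval] at ex ey ez
    simp only at ex ey ez hxy hxz hyz
    obtain ⟨k0, k1⟩ := quad_const (c0 := c2) (c1 := c3) (x := x2) (y := y2) (z := z2)
      (by exact_mod_cast hxy) (by exact_mod_cast hxz) (by exact_mod_cast hyz)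
      (by linarith) (by linarith)
    have hall : ∀ t ∈ range M, pt (a0, t) ∈ T := by
      intro t ht
      apply hmemI
      rw [hIiff _ ((hmg _ _).2 ⟨h0g.1, mem_range.1 ht⟩), hval]
      have e0 := l0 _ h0
      rw [hval] at e0
      simp only at e0
      simp only
      rw [k0, k1] at e0 ⊢
      linarith
    have hcard : (range M).card ≤ T.card :=
      card_le_card_of_injOn (fun t => pt (a0, t)) (by intro t ht; exact hall t ht) (by
        intro s _ t _ hst
        have := pt_inj hst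
        exact (Prod.ext_iff.1 this).2)
    rw [card_range] at hcard
    omega
  exfalso
  push Not at hA hB
  obtain ⟨a1, ha1⟩ := sub_pair (mem_image_of_mem Prod.fst h0) hA
  obtain ⟨b1, hb1⟩ := sub_pair (mem_image_of_mem Prod.snd h0) hB
  rw [hFh, vectorSpan_hull,
    vectorSpan_eq_span_vsub_set_right ℝ (Set.mem_image_of_mem pt (show (a0, b0) ∈ (I : Set (ℕ × ℕ)) from h0))] at hF3
  set v := pt (a1, b0) - pt (a0, b0) with hv
  set w := pt (a0, b1) - pt (a0, b0) with hw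
  have hle : span ℝ ((fun x => x -ᵥ pt (a0, b0)) '' (pt '' (I : Set (ℕ × ℕ)))) ≤
      span ℝ ((({v, w} : Finset (EuclideanSpace ℝ (Fin 4)))) : Set (EuclideanSpace ℝ (Fin 4))) := by
    rw [span_le]
    rintro _ ⟨_, ⟨⟨a, b⟩, hab, rfl⟩, rfl⟩
    have hvm : v ∈ span ℝ ((({v, w} : Finset (EuclideanSpace ℝ (Fin 4)))) : Set (EuclideanSpace ℝ (Fin 4))) :=
      subset_span (by simp)
    have hwm : w ∈ span ℝ ((({v, w} : Finset (EuclideanSpace ℝ (Fin 4)))) : Set (EuclideanSpace ℝ (Fin 4))) :=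
      subset_span (by simp)
    have ha := ha1 a (mem_image_of_mem Prod.fst hab)
    have hb' := hb1 b (mem_image_of_mem Prod.snd hab)
    simp only at ha hb'
    show pt (a, b) - pt (a0, b0) ∈ span ℝ _
    rcases ha with rfl | rfl <;> rcases hb' with rfl | rfl
    · rw [sub_self]; exact zero_mem _
    · exact hwm
    · exact hvm
    · have : pt (a, b) - pt (a0, b0) = v + w := by
        rw [hv, hw]
        ext j; fin_cases j <;> simp [pt]
      rw [this]
      exact add_mem hvm hwm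
  have h1 := Submodule.finrank_mono hle
  have h2 := finrank_span_finset_le_card (R := ℝ) ({v, w} : Finset (EuclideanSpace ℝ (Fin 4)))
  have h3 : ({v, w} : Finset (EuclideanSpace ℝ (Fin 4))).card ≤ 2 := card_le_two
  simp only [Set.finrank] at h2
  omega

end Pool.Agent.Kal5.Sharp

namespace Pool.Agent.Kal5

theorem sharp : S_SHARP := Sharp.sharp

end Pool.Agent.Kal5
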