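import Pool.Agent.Kal5.Sharp

/-!
No finite list is unavoidable for the 3-faces of 4-polytopes (MP_716236_co).
-/

set_option autoImplicit false
set_option linter.unusedSectionVars false

namespace Pool.Agent.Kal5

open Finset Submodule Pool.Agent.Lib_helper40.Kal

lemma hull_id {n : ℕ} (S : Finset (EuclideanSpace ℝ (Fin n))) :
    hull (id : EuclideanSpace ℝ (Fin n) → EuclideanSpace ℝ (Fin n)) S =
      convexHull ℝ (S : Set (EuclideanSpace ℝ (Fin n))) := by
  unfold hull; rw [Set.image_id]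

/-- A polytope with the face poset of `convexHull S` is the convex hull of at most `2 ^ |S|`
points. -/
lemma card_le_of_iso {n k : ℕ} (T0 : Finset (EuclideanSpace ℝ (Fin n)))
    (S : Finset (EuclideanSpace ℝ (Fin k)))
    (e : {G : Set (EuclideanSpace ℝ (Fin n)) | IsExposed ℝ
        (convexHull ℝ (T0 : Set (EuclideanSpace ℝ (Fin n)))) G} ≃o
      {G : Set (EuclideanSpace ℝ (Fin k)) | IsExposed ℝ
        (convexHull ℝ (S : Set (EuclideanSpace ℝ (Fin k)))) G}) :
    ∃ T : Finset (EuclideanSpace ℝ (Fin n)), T.card ≤ 2 ^ S.card ∧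
      convexHull ℝ (T0 : Set (EuclideanSpace ℝ (Fin n))) =
        convexHull ℝ (T : Set (EuclideanSpace ℝ (Fin n))) := by
  classical
  obtain ⟨s', hs, hm, hr⟩ := exists_red
    (hom_pointed (id : EuclideanSpace ℝ (Fin n) → EuclideanSpace ℝ (Fin n)) T0)
  have h0' : IsFace (hom (id : EuclideanSpace ℝ (Fin n) → _)) s' ∅ := hom_pointed _ _
  refine ⟨s', ?_, ?_⟩
  · rw [← hr.card_facesR_one h0', hm.card_facesR (hom_pointed _ T0) hs, ← card_powerset]
    have e1 := faceIso (id : EuclideanSpace ℝ (Fin n) → EuclideanSpace ℝ (Fin n)) T0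
    have e2 := faceIso (id : EuclideanSpace ℝ (Fin k) → EuclideanSpace ℝ (Fin k)) S
    rw [hull_id] at e1 e2
    let f : Finset (EuclideanSpace ℝ (Fin n)) → Finset (EuclideanSpace ℝ (Fin k)) := fun R =>
      if hR : IsFace (hom (id : EuclideanSpace ℝ (Fin n) → _)) T0 R then
        (e2.symm (e (e1 ⟨R, hR⟩))).1 else ∅
    refine card_le_card_of_injOn f ?_ ?_
    · intro R hR
      have hR' := (mem_facesR.1 (mem_coe.1 hR)).1
      simp only [f, hR', dif_pos, mem_coe, mem_powerset]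
      exact (e2.symm (e (e1 ⟨R, hR'⟩))).2.subset
    · intro R hR R' hR' h
      have h1 := (mem_facesR.1 (mem_coe.1 hR)).1
      have h2 := (mem_facesR.1 (mem_coe.1 hR')).1
      simp only [f, h1, h2, dif_pos] at h
      have h3 := e1.injective (e.injective (e2.symm.injective (Subtype.ext h)))
      exact congrArg Subtype.val h3
  · rw [← hull_id, ← hull_id, hull_of_meets hm hs]

/-- For every finite list of 3-polytopes there is a 4-polytope none of whose 3-faces is
combinatorially equivalent to a member of the list. -/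
theorem sharp_list (m : ℕ) (Q : Fin m → Set (EuclideanSpace ℝ (Fin 3)))
    (hQ : ∀ i, ∃ S : Finset (EuclideanSpace ℝ (Fin 3)),
      Q i = convexHull ℝ (S : Set (EuclideanSpace ℝ (Fin 3)))) :
    ∃ P : Set (EuclideanSpace ℝ (Fin 4)),
      (∃ S : Finset (EuclideanSpace ℝ (Fin 4)),
        P = convexHull ℝ (S : Set (EuclideanSpace ℝ (Fin 4)))) ∧
      Module.finrank ℝ (vectorSpan ℝ P) = 4 ∧
      ∀ F : Set (EuclideanSpace ℝ (Fin 4)), IsExposed ℝ P F →
        Module.finrank ℝ (vectorSpan ℝ F) = 3 → ∀ i : Fin m, IsEmpty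
          ({G : Set (EuclideanSpace ℝ (Fin 4)) | IsExposed ℝ F G} ≃o
           {G : Set (EuclideanSpace ℝ (Fin 3)) | IsExposed ℝ (Q i) G}) := by
  classical
  choose S hS using hQ
  obtain ⟨P, ⟨S0, hP⟩, hP4, hP3⟩ := sharp (∑ i, 2 ^ (S i).card)
  refine ⟨P, ⟨S0, hP⟩, hP4, fun F hF hF3 i => ⟨fun e => ?_⟩⟩
  have hF' : F = convexHull ℝ ((idx id S0 F : Finset (EuclideanSpace ℝ (Fin 4))) :
      Set (EuclideanSpace ℝ (Fin 4))) := by
    rw [← hull_id]
    refine (isFace_of_exposed ?_).2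
    rw [hull_id, ← hP]
    exact hF
  rw [hF', hS i] at e
  obtain ⟨T, hT, hT'⟩ := card_le_of_iso _ _ e
  have h1 := hP3 F hF hF3 T (hF'.trans hT')
  have h2 : 2 ^ (S i).card ≤ ∑ i, 2 ^ (S i).card :=
    single_le_sum (f := fun i => 2 ^ (S i).card) (fun _ _ => Nat.zero_le _) (mem_univ i)
  omega

end Pool.Agent.Kal5
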