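import Pool.Agent.Kal5.Defs

/-!
Module statements for the theorem on 5-polytopes (MP_716236_co), with proofs on paper.
`U` below always means `UU p s h`, the number of uncut 2-faces.
-/

set_option autoImplicit false
set_option linter.unusedSectionVars false

namespace Pool.Agent.Kal5

open Finset Submodule Pool.Agent.Lib_helper40.Kal

/-- VERTEX FIGURE. `q = qf p {v}` on the neighbours `N = nb p s v` is a pointed reduced family of
rank one less, its faces are the `F ∩ N`, `F` a face of `s` containing `v`.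
Proof: `R` is a ray of `(q, s \ {v})` iff `{v} ∪ R` is an edge, so `R = {k}`, `k ∈ N`; hence
`Meets q (s \ {v}) N`; then `Meets.rk_inter`, `Meets.lift`, `Meets.inj`, `isFace_quot`, `rk_quot`.
Last part: `rho` from `Red` (`rho (p v) = 0`, `> 0` elsewhere), `eps > 0` with `h - eps rho > 0` on
`F ∩ N`; if `h (p i) ≤ 0` then `exists_adj_pos` for the family `F` and `eps rho - h`. -/
def S_VF : Prop := ∀ (ι : Type) [DecidableEq ι] (V : Type) [AddCommGroup V] [Module ℝ V]
  (p : ι → V) (s : Finset ι) (n : ℕ) (v : ι), PR p s (n + 1) → v ∈ s →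
  PR (qf p {v}) (nb p s v) n ∧
  (∀ F, IsFace p s F → v ∈ F → IsFace (qf p {v}) (nb p s v) (F ∩ nb p s v) ∧
    rk (qf p {v}) (F ∩ nb p s v) + 1 = rk p F) ∧
  (∀ J, IsFace (qf p {v}) (nb p s v) J → ∃ F, IsFace p s F ∧ v ∈ F ∧ F ∩ nb p s v = J) ∧
  (∀ F F', IsFace p s F → v ∈ F → IsFace p s F' → v ∈ F' → F ∩ nb p s v ⊆ F' → F ⊆ F') ∧
  (∀ h : V →ₗ[ℝ] ℝ, h (p v) = 0 → ∃ hb : (V ⧸ span ℝ (p '' (({v} : Finset ι) : Set ι))) →ₗ[ℝ] ℝ,
    ∀ i, hb (qf p {v} i) = h (p i)) ∧
  (∀ h : V →ₗ[ℝ] ℝ, h (p v) = 0 → ∀ F, IsFace p s F → v ∈ F →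
    (∀ i ∈ F ∩ nb p s v, 0 < h (p i)) → ∀ i ∈ F, i ≠ v → 0 < h (p i))

/-- A face is the intersection of the facets containing it.
Proof: a face of maximal rank among those containing `I` and not `y`; if its rank is `< n - 1`, a
ray of the quotient not containing `y` gives a larger one. -/
def S_AV : Prop := ∀ (ι : Type) [DecidableEq ι] (V : Type) [AddCommGroup V] [Module ℝ V]
  (p : ι → V) (s I : Finset ι) (y : ι), IsFace p s ∅ → IsFace p s I → y ∈ s → y ∉ I →
  ∃ W, IsFace p s W ∧ rk p W + 1 = rk p s ∧ I ⊆ W ∧ y ∉ W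

/-- CONNECTIVITY of one side of a face. Proof: `connected_pos` for the family `F` and `± h`. -/
def S_CON : Prop := ∀ (ι : Type) [DecidableEq ι] (V : Type) [AddCommGroup V] [Module ℝ V]
  (p : ι → V) (s : Finset ι) (h : V →ₗ[ℝ] ℝ) (n : ℕ), Cut p s h n →
  ∀ (F : Finset ι), IsFace p s F → ∀ (Z : Finset ι) (x : ι), x ∈ Z →
  (∀ i ∈ Z, i ∈ F ∧ SS p h x i) → (∀ i ∈ Z, ∀ k ∈ F, Adj p s i k → SS p h i k → k ∈ Z) →
  ∀ w ∈ F, SS p h x w → w ∈ Z

/-- COHOMOLOGY. The positive part of the graph has no cohomology modulo the positive 2-faces.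
Proof: induction on the number of `i ∈ s` with `0 < h (p i)`. Choose `lam > 0` on `s` such that
the minimum `c` of `h / lam` on `Z = {0 < h}` is attained at one vertex `v` only (generic `lam`,
as in `euler_aux`); `h' = h - c • lam`, `{0 < h'} = Z \ {v}`, `h' (p v) = 0` and
`h' < 0` or `= 0` only off `Z`. By induction we have `ψ` for `h'`. Any two neighbours `k, k'` of
`v` with `h' > 0` are connected in the vertex figure of `v` (S_VF and `connected_pos` for the
functional induced by `h'`) by a chain of 2-faces `F` with `F \ {v} ⊆ {0 < h'}`; for such `F`, with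
neighbours `k, k'` of `v` in `F`: every vertex of `F` is in exactly two edges of `F`, so
`∑_{E edge of F} φ E = 0` gives `φ {v, k} + φ {v, k'} + ψ k + ψ k' = 0`. So `φ {v, k} + ψ k` does not
depend on `k`: this is `ψ v`. (The zeros of `h'` off `{v}` do not matter; if it is more
convenient choose `lam` such that there are none.) -/
def S_H1 : Prop := ∀ (ι : Type) [DecidableEq ι] (V : Type) [AddCommGroup V] [Module ℝ V]
  (p : ι → V) (s : Finset ι) (n : ℕ), PR p s n → ∀ (h : V →ₗ[ℝ] ℝ) (φ : Finset ι → ZMod 2),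
  (∀ F ∈ facesR p s 3, (∀ i ∈ F, 0 < h (p i)) → ∑ E ∈ facesR p F 2, φ E = 0) →
  ∃ ψ : ι → ZMod 2, ∀ i j, Adj p s i j → 0 < h (p i) → 0 < h (p j) → φ {i, j} = ψ i + ψ j

/-- CYCLE RANK. Proof: for `h` and for `-h`: the space of `φ` on the uncut edges (as a `ZMod 2` vector
space of dimension the number of edges on this side) satisfying the equations of the
uncut 2-faces on this side has dimension `≥ edges - (2-faces)`; by S_H1 it is contained in the image
of `ψ ↦ (ψ i + ψ j)`, of dimension `≤ vertices`. -/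
def S_RK : Prop := ∀ (ι : Type) [DecidableEq ι] (V : Type) [AddCommGroup V] [Module ℝ V]
  (p : ι → V) (s : Finset ι) (h : V →ₗ[ℝ] ℝ) (n : ℕ), Cut p s h n →
  (uf p s h 2).card ≤ s.card + UU p s h

/-- CUT SETS: for a set `S` of uncut edges none of which is in an uncut 2-face there is a
function on the vertices that changes exactly along the edges of `S`.
Proof: S_H1 for `h` and `-h`, `φ` the indicator function of `S`. -/
def S_CUTSET : Prop := ∀ (ι : Type) [DecidableEq ι] (V : Type) [AddCommGroup V] [Module ℝ V]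
  (p : ι → V) (s : Finset ι) (h : V →ₗ[ℝ] ℝ) (n : ℕ), Cut p s h n →
  ∀ S : Set (Finset ι), (∀ e ∈ S, e ∈ uf p s h 2 → tt p s h e = 0) →
  ∃ ψ : ι → ZMod 2, ∀ i j, Adj p s i j → SS p h i j → (ψ i ≠ ψ j ↔ ({i, j} : Finset ι) ∈ S)

/-- INCIDENCES in 3-polytopes. `X` a set of vertices. Proof: consider the family `X` itself
(pointed, reduced, `IsFace.sub`); let `e(X)` be the number of its edges (rank 2 faces),
`e(X) ≤ 3 |X|` (Euler if rank 4, `card_rank_three`, `card_rank_two` otherwise).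
(i) The `F` with `|F ∩ X| ≥ 3`: `F ∩ X` has rank 3 (a reduced family of rank 2 has two
elements) and `F` is determined by `F ∩ X` (`F ∩ F'` has rank `≤ 2`, hence at most 2 elements). If
`rk X = 4`: `∑ |F ∩ X| ≤ ∑_{J facet of X} |J| = 2 e(X) ≤ 6 |X|`; if `rk X = 3`: there is at most one
such `F` (it contains `X`). (ii) The `F` with `|F ∩ X| = 2`: `F ∩ X` is an edge of `X`, and at most
two `F` contain the same two vertices (if there are two such `F` the pair is an edge of `s`, which is in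
exactly two 2-faces); so at most `2 e(X)` such `F`, contribution `≤ 4 e(X) ≤ 12 |X|`. -/
def S_L4 : Prop := ∀ (ι : Type) [DecidableEq ι] (V : Type) [AddCommGroup V] [Module ℝ V]
  (p : ι → V) (s X : Finset ι), PR p s 4 → X ⊆ s →
  ∑ F ∈ (facesR p s 3).filter (fun F => 2 ≤ (F ∩ X).card), (F ∩ X).card ≤ 18 * X.card

/-- The same at a vertex of a 4-polytope. Proof: S_VF and S_L4. -/
def S_L5 : Prop := ∀ (ι : Type) [DecidableEq ι] (V : Type) [AddCommGroup V] [Module ℝ V]
  (p : ι → V) (s Y : Finset ι) (x : ι), PR p s 5 → x ∈ s → Y ⊆ nb p s x →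
  ∑ W ∈ (facesR p s 4).filter (fun W => x ∈ W ∧ 2 ≤ (W ∩ Y).card), (W ∩ Y).card ≤ 18 * Y.card

/-- BAD FACETS. Proof: if `x ∈ W` has no uncut neighbour in `W` then by S_CON all other vertices
of `W` are on the other side; choose (S_AV) a 2-face `F` of `W` with `x ∉ F`: it is uncut, and
`x` is the only vertex of `W` on the side opposite to `F`. So `(x, W) ↦ (F, W)` is injective; every
2-face is in exactly two facets (`exists_two_facets`). -/
def S_BAD : Prop := ∀ (ι : Type) [DecidableEq ι] (V : Type) [AddCommGroup V] [Module ℝ V]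
  (p : ι → V) (s : Finset ι) (h : V →ₗ[ℝ] ℝ), Cut p s h 5 →
  ∑ x ∈ s, bd p s h x ≤ 2 * UU p s h

/-- Proof: every facet containing `x` contains an uncut neighbour; if there is at most one such
neighbour `y`, S_AV for the face `{x}` and `y` gives a facet without `y`. -/
def S_TWO : Prop := ∀ (ι : Type) [DecidableEq ι] (V : Type) [AddCommGroup V] [Module ℝ V]
  (p : ι → V) (s : Finset ι) (h : V →ₗ[ℝ] ℝ) (x : ι), Cut p s h 5 → x ∈ s →
  bd p s h x = 0 → 2 ≤ (un p s h x).card

open scoped Classical in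
/-- DEGREES. Proof: `∑_x δ x = 2 * (uncut edges) ≤ 2 |s| + 2 U` (S_RK); so
`∑ (δ x - 2)^+ = ∑ (δ x - 2) + ∑ (2 - δ x)^+ ≤ 2 U + 2 #{δ x < 2} ≤ 2 U + 2 * 2 U = 6 U` by S_TWO and
S_BAD; at most `8 U` vertices are not good; `δ ≤ 2 + (δ - 2)^+`. -/
def S_DEL : Prop := ∀ (ι : Type) [DecidableEq ι] (V : Type) [AddCommGroup V] [Module ℝ V]
  (p : ι → V) (s : Finset ι) (h : V →ₗ[ℝ] ℝ), Cut p s h 5 →
  ∑ x ∈ s.filter (fun x => ¬ Good p s h x), (un p s h x).card ≤ 22 * UU p s h

/-- CUT EDGES of large degree. Proof: for a vertex `x` let `T` be the set of the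
`y ∈ cn x` with `r{x,y} ≥ 73`, `Y = un x ∪ T`. `∑_{y ∈ T} r{x,y} = ∑_{W ∋ x} |W ∩ T|`; the `W` with
`|W ∩ Y| ≥ 2` contribute at most `18 (δ x + |T|)` (S_L5), the others with `W ∩ T ≠ ∅` contribute 1 and
are bad for `x`. So `∑_T r ≤ 18 δ x + 18 |T| + bd x` and as `r ≥ 73 ≥ 36` on `T`:
`∑_T r ≤ 36 δ x + 2 bd x`. If `x` is good this is `72 < 73`, so `T = ∅`. Sum over the `x` that are not
good (S_DEL, S_BAD): `≤ 36 * 22 U + 2 * 2 U = 796 U`; every cut edge is counted twice. -/
def S_CE : Prop := ∀ (ι : Type) [DecidableEq ι] (V : Type) [AddCommGroup V] [Module ℝ V]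
  (p : ι → V) (s : Finset ι) (h : V →ₗ[ℝ] ℝ), Cut p s h 5 →
  ∑ g ∈ (cf p s h 2).filter (fun g => 73 ≤ up p s 4 g), up p s 4 g ≤ 398 * UU p s h

/-- LEAVES of a facet. Proof: on each side of `W` the graph is connected (S_CON), so
`edges ≥ vertices - 1`, `∑ (dg - 2) ≥ -2` on each side, and
`#{dg = 1} ≤ ∑ (dg - 2)^+ - ∑ (dg - 2) ≤ ∑ (dg - 2)^+ + 2` on each side. -/
def S_LEAF : Prop := ∀ (ι : Type) [DecidableEq ι] (V : Type) [AddCommGroup V] [Module ℝ V]
  (p : ι → V) (s : Finset ι) (h : V →ₗ[ℝ] ℝ) (n : ℕ), Cut p s h n → ∀ W, IsFace p s W →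
  (W.filter fun x => dg p s h W x = 1).card ≤ 4 + ∑ x ∈ W, (dg p s h W x - 2)

/-- BRANCHING. Proof: `∑_W ∑_{x ∈ W} (dg - 2)^+ ≤ ∑_{x : δ x ≥ 3} ∑_{W ∋ x, |W ∩ un x| ≥ 3} |W ∩ un x|
≤ ∑_{x : δ x ≥ 3} 18 δ x` (S_L5 with `Y = un x`) `≤ 18 * 22 U` (S_DEL). -/
def S_BR : Prop := ∀ (ι : Type) [DecidableEq ι] (V : Type) [AddCommGroup V] [Module ℝ V]
  (p : ι → V) (s : Finset ι) (h : V →ₗ[ℝ] ℝ), Cut p s h 5 →
  ∑ W ∈ facesR p s 4, ∑ x ∈ W, (dg p s h W x - 2) ≤ 396 * UU p s h

/-- KIND 0. `e` an uncut edge in no uncut 2-face; every facet `W ⊇ e` contains an uncut edge `f` of an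
uncut 2-face. Proof: let `F, F'` be the two 2-faces of `W` containing `e` (`F ∩ F' = e`), cut as
`t(e) = 0`; opposite means on the side other than `e`. `S` = the opposite edges `{a, b} ⊆ W` with
`a ∈ F`, `b ∉ F`. If all of them have `t = 0`, take `ψ` from S_CUTSET. On the opposite vertices of `W`
(connected, S_CON): `ψ a ≠ ψ a'` for `a ∈ F` opposite, `a' ∈ F'` opposite
(`ψ + 1_F` is constant on the opposite part of `W`). For a facet `W' ⊇ e`, `W' ≠ W`: no edge of `S` is in
`W'` (`W ∩ W'` is `e` or a 2-face of `W` containing `e`, i.e. `F` or `F'`; an opposite edge in `F` has both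
ends in `F`; one in `F'` has no end in `F`), so `ψ` is constant, `= c W'`, on the opposite vertices of `W'`. Let
`A` be the set of the facets `W' ⊇ e`, `W' ≠ W` with `c W' = ψ a'`. Every facet containing `e` contains
exactly two 2-faces containing `e`, every 2-face containing `e` is in exactly two facets
(and is cut, so has opposite vertices). Double count the pairs (2-face `⊇ e`, element of `A` containing it):
`2 |A|`; the 2-faces other than `F, F'` contribute 0 or 2, `F'` contributes 1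
(its second facet is in `A`), `F` contributes 0. Parity: contradiction. -/
def S_K0 : Prop := ∀ (ι : Type) [DecidableEq ι] (V : Type) [AddCommGroup V] [Module ℝ V]
  (p : ι → V) (s : Finset ι) (h : V →ₗ[ℝ] ℝ), Cut p s h 5 →
  ∀ e ∈ uf p s h 2, tt p s h e = 0 → ∀ W ∈ facesR p s 4, e ⊆ W →
  ∃ f ∈ uf p s h 2, f ⊆ W ∧ 1 ≤ tt p s h f

/-- KIND 1. `e` an uncut edge in exactly one uncut 2-face `G`: there are a facet `Y ⊇ G`, a facet
`W ⊇ e` with `W ∩ G = e`, and an uncut edge `e' ⊆ W` with exactly one end in `Y`.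
Proof: `Y₁, Y₂` the two facets containing `G` (`Y₁ ∩ Y₂ = G`), `F₁, F₂` the second 2-face of
`Y₁, Y₂` containing `e`; `F₁ ≠ F₂`; they are cut. If the statement is false (with `Y = Y₁`) then
for every facet `W ⊇ e` other than `Y₁, Y₂` (then `W ∩ G = e`): if an opposite vertex of `W` is in
`Y₁` then all opposite vertices of `W` are in `Y₁` (S_CON). Let `A` be the set of these `W`. Double count
pairs (2-face `⊇ e`, element of `A`): `2 |A|`; a 2-face `≠ G, F₁, F₂` contributes 0 or 2 (it is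
cut, its two facets are `≠ Y₁, Y₂`), `G` contributes 0, `F₁` contributes 1
(its second facet is `≠ Y₂` and in `A`), `F₂` contributes 0 (otherwise its opposite
vertices are in `Y₁ ∩ Y₂ = G`). Parity: contradiction. -/
def S_K1 : Prop := ∀ (ι : Type) [DecidableEq ι] (V : Type) [AddCommGroup V] [Module ℝ V]
  (p : ι → V) (s : Finset ι) (h : V →ₗ[ℝ] ℝ), Cut p s h 5 →
  ∀ e ∈ uf p s h 2, ∀ G ∈ uf p s h 3, e ⊆ G → tt p s h e = 1 →
  ∃ Y ∈ facesR p s 4, ∃ W ∈ facesR p s 4, G ⊆ Y ∧ W ∩ G = e ∧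
    ∃ a b, Adj p s a b ∧ SS p h a b ∧ a ∈ W ∧ b ∈ W ∧ a ∈ Y ∧ b ∉ Y

/-- UNCUT EDGES. Proof (`r e = up p s 4 e`, `t e = tt p s h e`, `δ x = (un x).card`,
a leaf of `W` is an `x ∈ W` with `dg W x = 1`):
(a) the uncut edges with both ends not good: at most `11 U` (S_DEL).
(b) if `x` is good and `e = {x, x'}` is uncut then `t e ≤ 1` (an uncut 2-face containing `e` contains
the other uncut neighbour `x''` of `x`; two different 2-faces containing `e` meet in `e`).
(c) `E'` = uncut edges `{a, b}` such that some facet `Y` containing an uncut 2-face has `a ∈ Y`, `b ∉ Y`: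
`|E'| ≤ 22 U + 4 * 2 U + 396 U = 426 U`: those with an end that is not good: `≤ 22 U`; if `a` is good it is a
leaf of `Y` (`bd a = 0`) and `(a, Y)` determines the edge; at most `2 U` facets `Y` (each uncut 2-face is in two
facets); S_LEAF and S_BR.
(d) `N1` = number of uncut edges `e` with `t e = 1` and a good end `x`: for `W` from S_K1, `x` is a leaf of `W`
(`x'' ∈ G \ e`, so `x'' ∉ W`), `(x, W)` determines `e`, and `W` contains an element of `E'`:
`N1 ≤ 4 ∑_{e' ∈ E'} r e' + 396 U ≤ 4 (RR + 72 * 426 U) + 396 U = 4 RR + 123084 U`.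
(e) `#{t e ≥ 1} ≤ 11 U + N1`, so `∑_{t e ≥ 1} r e ≤ RR + 72 (11 U + N1) ≤ 289 RR + 8862840 U`.
(f) `N0` = number of uncut edges `e` with `t e = 0` and a good end `x`: by S_AV there is a facet `W ⊇ e` with
`x'' ∉ W`, so `x` is a leaf of `W`; by S_K0 `W` contains an `f` with `t f ≥ 1`:
`N0 ≤ 4 ∑_{t f ≥ 1} r f + 396 U ≤ 1156 RR + 35451756 U`.
Total: `11 U + N1 + N0 ≤ 1160 RR + 35574851 U`. -/
def S_UN : Prop := ∀ (ι : Type) [DecidableEq ι] (V : Type) [AddCommGroup V] [Module ℝ V]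
  (p : ι → V) (s : Finset ι) (h : V →ₗ[ℝ] ℝ), Cut p s h 5 →
  (uf p s h 2).card ≤ 1160 * RR p s h + 35574851 * UU p s h

/-- THE INEQUALITY FOR 5-POLYTOPES: `f_{23} ≤ C f_3`.
Proof: `lam > 0` on `s`, `psi` generic, height `psi / lam` injective on `s`; for a vertex `v`:
`h_v = lam (p v) • psi - psi (p v) • lam` vanishes at `v` and is `≠ 0` at the other vertices; by
S_VF it gives a `Cut (qf p {v}) (nb p s v) hb 5`. The faces of rank `r` of the vertex figure are
the faces of rank `r + 1` containing `v`; such a face `F` is uncut iff `v` is the lowest or the highest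
vertex of `F` (last part of S_VF for `± h_v`); `up` is the same. So with `r F = up p s 5 F`:
`∑_v UU_v = 2 |facesR p s 4|`, `∑_v RR_v = 2 ∑_{F ∈ facesR p s 3, r F ≥ 73} r F`,
`∑_v (uf_v 2).card = 2 |facesR p s 3|`, `∑_v ∑_{g ∈ cf_v 2, r ≥ 73} r g =
∑_{F ∈ facesR p s 3, r F ≥ 73} (|F| - 2) r F ≥ ∑_{F, r F ≥ 73} r F =: R`.
S_CE: `R ≤ 796 f_3`. S_UN: `2 f_2 ≤ 1160 * 2 R + 35574851 * 2 f_3`, so `f_2 ≤ 36498211 f_3`, and
`∑ r F ≤ R + 72 f_2 ≤ 2627871988 f_3`. Finally `up p s 5 F = up p s 4 F` (`F` of rank 3, the quotient is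
a polygon: `card_rank_three`). -/
def S_MAIN : Prop := ∀ (ι : Type) [DecidableEq ι] (V : Type) [AddCommGroup V] [Module ℝ V]
  (p : ι → V) (s : Finset ι), PR p s 6 →
  ∑ K ∈ facesR p s 4, (facesR p K 3).card ≤ 2627871988 * (facesR p s 4).card

end Pool.Agent.Kal5
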